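import Pool.Agent.H33.G.R_seed8.H499R2.LT.Defs

/-! Project LT, task B1: graded families are equidistributed in the classes mod `3^m` of the odd integers
of a window. -/

set_option autoImplicit false

namespace Pool.Agent.H499R2.LT

open Pool.Agent.H320R2.PD Finset Filter Topology

open Pool.Agent.H499R2.ND hiding La Ea Me FC

open Pool.Agent.H499R2.CZ

open Pool.Agent.H319R2.Lln (mu)

namespace B1

theorem cls_union_le (S R : Set ℤ) (a b : ℝ) (m : ℕ) (u v : ℤ) :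
    ((cls (S ∪ R) a b m u v).card : ℝ) ≤ (cls S a b m u v).card + (cls R a b m u v).card := by
  classical
  have h : cls (S ∪ R) a b m u v ⊆ cls S a b m u v ∪ cls R a b m u v := by
    intro x hx
    rw [mem_cls] at hx
    rw [mem_union, mem_cls, mem_cls]
    rcases hx.2.2.1 with h | h
    · exact Or.inl ⟨hx.1, hx.2.1, h, hx.2.2.2⟩
    · exact Or.inr ⟨hx.1, hx.2.1, h, hx.2.2.2⟩
  exact_mod_cast (card_le_card h).trans (card_union_le _ _)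

/-- the value predicted by the one-stage inequality for a family of targets -/
noncomputable def MnG (d : ℤ) (S' : ℕ → Set ℤ) (A : ℝ) (k m m' : ℕ) : ℝ :=
  (∑ w ∈ GW (3 * k) k ((39 * k + 19) / 20) (41 * k / 20),
    ((cls (S' w.sum) (A * 3 ^ k / 2 ^ w.sum) (2 * (A * 3 ^ k / 2 ^ w.sum)) m' (2 ^ w.sum)
      (d * Wo w)).card : ℝ)) / 3 ^ (k + m - m')

theorem starG' {d : ℤ} (hd : Odd d) (hd3 : IsCoprime d 3) {S : Set ℤ} (S' : ℕ → Set ℤ) {A : ℝ}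
    (hA : 0 < A) {k m m' : ℕ}
    (hpath : ∀ w ∈ GW (3 * k) k ((39 * k + 19) / 20) (41 * k / 20), ∀ M x : ℤ, Odd M → Odd x →
      A ≤ (M : ℝ) → (M : ℝ) < 2 * A → M ∈ S → Vw d w M x → x ∈ S' w.sum)
    (hk : 1 ≤ k) (hm' : m' ≤ k) (c : ℤ) :
    ((cls S A (2 * A) m 1 c).card : ℝ) ≤ MnG d S' A k m m' + Err d A k m m' * (A / (2 * 3 ^ m)) := by
  have hTm : 41 * k / 20 ≤ k * (3 * k) := by nlinarith [Nat.div_mul_le_self (41 * k) 20]
  have h1 := starG hd hd3 S' hA.le (3 * k) k m m' ((39 * k + 19) / 20) (41 * k / 20) hpath hk hm' hTm c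
  refine h1.trans (le_of_eq ?_)
  unfold MnG Err
  set G := GW (3 * k) k ((39 * k + 19) / 20) (41 * k / 20) with hG
  set δ := ∑ T ∈ range (k * (3 * k) + 1), dev (FWT (3 * k) k T) wwt (fun w => (Wo w : ℤ)) (k + m) m'
  set X := (2 : ℝ) ^ (41 * k / 20)
  set Y := A / (2 * 3 ^ m) with hY
  set Z := 2 * 3 ^ m / A with hZ
  set μ := ∑ w ∈ G, wwt w
  have hfac : Y * Z = 1 := by rw [hY, hZ]; field_simp
  have : ((1 + X * Z) * δ + (1 - μ) + (1 + (|(d : ℝ)| + 2) * X) * Z) * Y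
      = (Y + X * (Y * Z)) * δ + Y * (1 - μ) + (1 + (|(d : ℝ)| + 2) * X) * (Y * Z) := by ring
  rw [this, hfac]
  ring

theorem MnG_add (d : ℤ) (S1 : ℕ → Set ℤ) (R : Set ℤ) {A : ℝ} (hA : 0 < A) {k m m' : ℕ} (hm' : m' ≤ k)
    {ρ : ℝ} (hρ : 0 ≤ ρ)
    (hR : ∀ T : ℕ, 39 * k ≤ 20 * T → 20 * T ≤ 41 * k → PB R (A * 3 ^ k / 2 ^ T) m' ρ) :
    MnG d (fun T => S1 T ∪ R) A k m m' + MnG d (fun T => (S1 T)ᶜ ∪ R) A k m m'
      ≤ A / (2 * 3 ^ m) + 2 ^ (41 * k / 20) + 2 * ρ * (A / (2 * 3 ^ m)) := by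
  unfold MnG
  rw [← add_div, ← sum_add_distrib]
  have h1 : ∀ w ∈ GW (3 * k) k ((39 * k + 19) / 20) (41 * k / 20),
      (((cls (S1 w.sum ∪ R) (A * 3 ^ k / 2 ^ w.sum) (2 * (A * 3 ^ k / 2 ^ w.sum)) m' (2 ^ w.sum) (d * Wo w)).card : ℝ)
        + ((cls ((S1 w.sum)ᶜ ∪ R) (A * 3 ^ k / 2 ^ w.sum) (2 * (A * 3 ^ k / 2 ^ w.sum)) m' (2 ^ w.sum) (d * Wo w)).card : ℝ))
      ≤ (1 + 2 * ρ) * (A * 3 ^ k / (2 * 3 ^ m')) * wwt w + 1 := by
    intro w hw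
    unfold GW at hw; rw [mem_filter] at hw
    have e1 := cls_union_le (S1 w.sum) R (A * 3 ^ k / 2 ^ w.sum) (2 * (A * 3 ^ k / 2 ^ w.sum)) m'
      (2 ^ w.sum) (d * Wo w)
    have e2 := cls_union_le (S1 w.sum)ᶜ R (A * 3 ^ k / 2 ^ w.sum) (2 * (A * 3 ^ k / 2 ^ w.sum)) m'
      (2 ^ w.sum) (d * Wo w)
    have e3 := cls_compl (S1 w.sum) (A * 3 ^ k / 2 ^ w.sum) (2 * (A * 3 ^ k / 2 ^ w.sum)) m'
      (2 ^ w.sum) (d * Wo w)
    have e4 := cls_card_le Set.univ (a := A * 3 ^ k / 2 ^ w.sum) (b := 2 * (A * 3 ^ k / 2 ^ w.sum))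
      (by have : 0 < A * 3 ^ k / 2 ^ w.sum := by positivity
          linarith) m' (cop_two_pow w.sum) (d * Wo w)
    have e5 := hR w.sum (by omega) (by omega) (2 ^ w.sum) (d * Wo w) (cop_two_pow _)
    have e6 : (2 * (A * 3 ^ k / 2 ^ w.sum) - A * 3 ^ k / 2 ^ w.sum) / (2 * 3 ^ m')
        = A * 3 ^ k / (2 * 3 ^ m') * wwt w := by
      unfold wwt
      rw [one_div, inv_pow]
      field_simp
      ring
    have e7 : ρ * (A * 3 ^ k / 2 ^ w.sum / (2 * 3 ^ m')) = ρ * (A * 3 ^ k / (2 * 3 ^ m')) * wwt w := by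
      unfold wwt
      rw [one_div, inv_pow]
      field_simp
    rw [e6] at e4
    rw [e7] at e5
    have e8 : (1 + 2 * ρ) * (A * 3 ^ k / (2 * 3 ^ m')) * wwt w + 1
        = (A * 3 ^ k / (2 * 3 ^ m') * wwt w + 1) + 2 * (ρ * (A * 3 ^ k / (2 * 3 ^ m')) * wwt w) := by ring
    rw [e8]
    linarith
  rw [div_le_iff₀ (by positivity)]
  refine (sum_le_sum h1).trans ?_
  rw [sum_add_distrib, ← mul_sum, sum_const, nsmul_eq_mul, mul_one]
  have hmass1 : ∑ w ∈ GW (3 * k) k ((39 * k + 19) / 20) (41 * k / 20), wwt w ≤ 1 := by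
    refine le_trans ?_ (sum_wwt_le (3 * k) k)
    unfold GW
    apply sum_le_sum_of_subset_of_nonneg (filter_subset _ _)
    intro w _ _; unfold wwt; positivity
  have hcard := GW_card (3 * k) k ((39 * k + 19) / 20) (41 * k / 20)
  have h6 : (3 : ℝ) ^ (k + m - m') * 3 ^ m' = 3 ^ k * 3 ^ m := by
    rw [← pow_add, ← pow_add]; congr 1; omega
  have h7 : A / (2 * 3 ^ m) * 3 ^ (k + m - m') = A * 3 ^ k / (2 * 3 ^ m') := by
    have h7 : (3 : ℝ) ^ k = 3 ^ (k + m - m') * 3 ^ m' / 3 ^ m := by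
      rw [h6]; field_simp
    rw [h7]
    field_simp
  have h8 : (1 : ℝ) ≤ 3 ^ (k + m - m') := one_le_pow₀ (by norm_num)
  have e9 : (A / (2 * 3 ^ m) + 2 ^ (41 * k / 20) + 2 * ρ * (A / (2 * 3 ^ m))) * 3 ^ (k + m - m')
      = (1 + 2 * ρ) * (A / (2 * 3 ^ m) * 3 ^ (k + m - m')) + 2 ^ (41 * k / 20) * 3 ^ (k + m - m') := by ring
  rw [e9, h7]
  have h9 : (1 + 2 * ρ) * (A * 3 ^ k / (2 * 3 ^ m'))
        * ∑ w ∈ GW (3 * k) k ((39 * k + 19) / 20) (41 * k / 20), wwt w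
      ≤ (1 + 2 * ρ) * (A * 3 ^ k / (2 * 3 ^ m')) := by
    have : (1 + 2 * ρ) * (A * 3 ^ k / (2 * 3 ^ m'))
        * ∑ w ∈ GW (3 * k) k ((39 * k + 19) / 20) (41 * k / 20), wwt w
      ≤ (1 + 2 * ρ) * (A * 3 ^ k / (2 * 3 ^ m')) * 1 := mul_le_mul_of_nonneg_left hmass1 (by positivity)
    linarith
  have h10 : (2 : ℝ) ^ (41 * k / 20) ≤ 2 ^ (41 * k / 20) * 3 ^ (k + m - m') := by
    have : (0 : ℝ) < 2 ^ (41 * k / 20) := by positivity
    nlinarith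
  linarith

theorem cls_mono_card {S S' : Set ℤ} (h : S ⊆ S') (a b : ℝ) (m : ℕ) (u v : ℤ) :
    ((cls S a b m u v).card : ℝ) ≤ (cls S' a b m u v).card := by
  have : cls S a b m u v ⊆ cls S' a b m u v := by
    intro x hx
    rw [mem_cls] at hx ⊢
    exact ⟨hx.1, hx.2.1, h hx.2.2.1, hx.2.2.2⟩
  exact_mod_cast card_le_card this

end B1

open B1

/-- the statement of `GF_word` (task LT-A) -/
def GFWord : Prop := ∀ {d : ℤ}, Odd d → ∀ {R : Set ℤ}, FC d R → ∀ {S : ℤ → ℤ → Set ℤ}, GF d R S →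
    ∀ {w : List ℕ}, (∀ a ∈ w, 1 ≤ a) → ∀ {M x : ℤ}, Odd M → Odd x → Vw d w M x → ∀ k o : ℤ,
    (M ∈ S k o → x ∈ S (k - w.sum) (o - w.length) ∪ R) ∧
    (M ∉ S k o → x ∈ (S (k - w.sum) (o - w.length))ᶜ ∪ R)

/-- `equi_oddG` from `GF_word` -/
theorem equi_oddG_of (GF_word : GFWord) (B : ℕ) {d : ℤ} (hd : Odd d) (hd3 : IsCoprime d 3) {R : Set ℤ}
    (hR : FC d R) (hRs : SpW R) :
    ∃ C : ℝ, 0 < C ∧ ∀ S : ℤ → ℤ → Set ℤ, GF d R S → ∀ A : ℝ, 0 < A → 1000 ≤ Real.log A → ∀ m : ℕ,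
      (m : ℝ) ^ 2 ≤ Real.log A → ∀ k o c c' : ℤ,
      ((cls (S k o) A (2 * A) m 1 c).card : ℝ)
        ≤ (cls (S k o) A (2 * A) m 1 c').card + C / (Real.log A) ^ B * (A / (2 * 3 ^ m)) := by
  obtain ⟨C, hC, herr⟩ := err_bound B d
  obtain ⟨CR, hCR, hRb⟩ := hRs B
  refine ⟨3 * C + 2 * (CR * (5 / 4) ^ B), by positivity, ?_⟩
  intro S hS A hA ht m hm kk oo c c'
  set t := Real.log A with htdef
  obtain ⟨k, hk⟩ : ∃ k : ℕ, k = ⌊t / 2⌋₊ := ⟨_, rfl⟩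
  obtain ⟨m', hm'⟩ : ∃ m' : ℕ, m' = ⌊Real.sqrt (0.8 * t)⌋₊ := ⟨_, rfl⟩
  have hk2 : t / 2 - 1 ≤ k := by rw [hk]; linarith [Nat.lt_floor_add_one (t / 2)]
  have hk1N : 1 ≤ k := by
    have : (1 : ℝ) ≤ k := by linarith
    exact_mod_cast this
  have hm'sq : (m' : ℝ) ^ 2 ≤ 0.8 * t := by
    have h1 : (m' : ℝ) ≤ Real.sqrt (0.8 * t) := by
      rw [hm']; exact Nat.floor_le (Real.sqrt_nonneg _)
    calc (m' : ℝ) ^ 2 ≤ (Real.sqrt (0.8 * t)) ^ 2 :=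
          pow_le_pow_left₀ (Nat.cast_nonneg _) h1 2
      _ = 0.8 * t := Real.sq_sqrt (by linarith)
  have hm'k : m' ≤ k := by
    have : (m' : ℝ) ≤ k := by
      have h0 : (0 : ℝ) ≤ m' := Nat.cast_nonneg _
      by_contra hcon
      push Not at hcon
      nlinarith
    exact_mod_cast this
  have hE := herr A hA ht k m m' hm hk hm'
  rw [← htdef] at hE
  have hY : 0 < A / (2 * 3 ^ m) := by positivity
  -- the sparse set
  set ρ := CR * (5 / 4) ^ B / t ^ B with hρdef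
  have htpos : 0 < t := by linarith
  have hρ : 0 ≤ ρ := by positivity
  have hRρ : ∀ T : ℕ, 39 * k ≤ 20 * T → 20 * T ≤ 41 * k → PB R (A * 3 ^ k / 2 ^ T) m' ρ := by
    intro T hT1 hT2
    have hn := next_scale hA ht hk hT1 hT2
    rw [← htdef] at hn
    have hA' : 0 < A * 3 ^ k / 2 ^ T := by positivity
    have h1 := (hRb (A * 3 ^ k / 2 ^ T) hA' (by linarith [hn.1])).1 m' (hm'sq.trans hn.1)
    intro u v hu
    refine (h1 u v hu).trans ?_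
    apply mul_le_mul_of_nonneg_right _ (by positivity)
    rw [hρdef]
    have h2 : (0.8 * t) ^ B ≤ (Real.log (A * 3 ^ k / 2 ^ T)) ^ B :=
      pow_le_pow_left₀ (by positivity) hn.1 B
    have h3 : CR / (Real.log (A * 3 ^ k / 2 ^ T)) ^ B ≤ CR / (0.8 * t) ^ B :=
      div_le_div_of_nonneg_left hCR (by positivity) h2
    refine h3.trans (le_of_eq ?_)
    have h4 : (0.8 * t) ^ B = t ^ B / (5 / 4) ^ B := by
      rw [mul_pow, eq_div_iff (by positivity)]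
      have : (0.8 : ℝ) ^ B * (5 / 4) ^ B = 1 := by
        rw [← mul_pow]; norm_num
      calc (0.8 : ℝ) ^ B * t ^ B * (5 / 4) ^ B = ((0.8 : ℝ) ^ B * (5 / 4) ^ B) * t ^ B := by ring
        _ = t ^ B := by rw [this, one_mul]
    rw [h4]
    field_simp
  have hlen : ∀ w ∈ GW (3 * k) k ((39 * k + 19) / 20) (41 * k / 20), w.length = k ∧ ∀ a ∈ w, 1 ≤ a := by
    intro w hw
    unfold GW at hw; rw [mem_filter] at hw
    exact ⟨(FW_props hw.1).1, (FW_props hw.1).2⟩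
  have h1 := starG' hd hd3 (S := S kk oo) (fun T : ℕ => S (kk - T) (oo - k) ∪ R) hA
    (fun w hw M x hM hx _ _ hMS hV => by
      have := (GF_word hd hR hS (hlen w hw).2 hM hx hV kk oo).1 hMS
      rw [(hlen w hw).1] at this
      exact this) hk1N hm'k (m := m) c
  have h2 := starG' hd hd3 (S := (S kk oo)ᶜ) (fun T : ℕ => (S (kk - T) (oo - k))ᶜ ∪ R) hA
    (fun w hw M x hM hx _ _ hMS hV => by
      have := (GF_word hd hR hS (hlen w hw).2 hM hx hV kk oo).2 hMS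
      rw [(hlen w hw).1] at this
      exact this) hk1N hm'k (m := m) c'
  have h3 := MnG_add d (fun T : ℕ => S (kk - T) (oo - k)) R hA (m := m) hm'k hρ hRρ
  have h4 := cls_compl (S kk oo) A (2 * A) m 1 c'
  have h5 := le_cls_univ A (2 * A) m isCoprime_one_left c'
  rw [show 2 * A - A = A by ring] at h5
  -- `1 + 2^Tm ≤ Err * Y`
  have h6 : 1 + 2 ^ (41 * k / 20) ≤ Err d A k m m' * (A / (2 * 3 ^ m)) := by
    unfold Err
    set G := GW (3 * k) k ((39 * k + 19) / 20) (41 * k / 20) with hG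
    set δ := ∑ T ∈ range (k * (3 * k) + 1), dev (FWT (3 * k) k T) wwt (fun w => (Wo w : ℤ)) (k + m) m'
      with hδ
    set X := (2 : ℝ) ^ (41 * k / 20)
    set Y := A / (2 * 3 ^ m) with hYdef
    set Z := 2 * 3 ^ m / A with hZ
    set μ := ∑ w ∈ G, wwt w with hμ
    have hfac : Y * Z = 1 := by rw [hYdef, hZ]; field_simp
    have : ((1 + X * Z) * δ + (1 - μ) + (1 + (|(d : ℝ)| + 2) * X) * Z) * Y
        = (Y + X * (Y * Z)) * δ + Y * (1 - μ) + (1 + (|(d : ℝ)| + 2) * X) * (Y * Z) := by ring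
    rw [this, hfac]
    have hX : 0 < X := by positivity
    have hδnn : 0 ≤ δ := sum_nonneg fun _ _ => sum_nonneg fun _ _ => abs_nonneg _
    have hμ1 : μ ≤ 1 := by
      refine le_trans ?_ (sum_wwt_le (3 * k) k)
      rw [hμ, hG]; unfold GW
      apply sum_le_sum_of_subset_of_nonneg (filter_subset _ _)
      intro w _ _; unfold wwt; positivity
    have e1 : 0 ≤ (Y + X * 1) * δ := by positivity
    have e2 : 0 ≤ Y * (1 - μ) := mul_nonneg hY.le (by linarith)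
    have e3 : 0 ≤ |(d : ℝ)| * X := by positivity
    nlinarith
  have h7 : Err d A k m m' * (A / (2 * 3 ^ m)) ≤ C / t ^ B * (A / (2 * 3 ^ m)) :=
    mul_le_mul_of_nonneg_right hE hY.le
  have h8 : (3 * C + 2 * (CR * (5 / 4) ^ B)) / t ^ B * (A / (2 * 3 ^ m))
      = 3 * (C / t ^ B * (A / (2 * 3 ^ m))) + 2 * ρ * (A / (2 * 3 ^ m)) := by
    rw [hρdef]; ring
  rw [h8]
  linarith

end Pool.Agent.H499R2.LT
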