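import Pool.Agent.H33.G.R_seed8.H499R2.LT.Defs

/-! Project LT, task LT-B2 (helper106): equidistribution mod 3 of graded families. -/

set_option autoImplicit false

namespace Pool.Agent.H499R2.LT

open Pool.Agent.H320R2.PD Finset Filter Topology

open Pool.Agent.H499R2.ND hiding La Ea Me FC

open Pool.Agent.H499R2.CZ

open Pool.Agent.H319R2.Lln (mu)

theorem B2_two {d : ℤ} {R : Set ℤ} {S : ℤ → ℤ → Set ℤ} (hS : GF d R S) (k o y : ℤ)
    (hy : 2 * y ∉ R) : 2 * y ∈ S k o ↔ y ∈ S (k - 1) o := by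
  have h := hS k o (2 * y) hy
  have h1 : (2 * y) % 2 = 0 := by omega
  have h2 : Td d (2 * y) = y := by unfold Td; rw [if_pos h1]; omega
  rw [h2, if_pos h1, sub_zero] at h
  exact h

/-- parity decomposition, upper bound -/
theorem B2_parity_le {d : ℤ} {R : Set ℤ} {S : ℤ → ℤ → Set ℤ} (hS : GF d R S) (k o : ℤ) (A : ℝ)
    (c : ℤ) :
    (wc (S k o) A (2 * A) 3 c).card ≤ (cls (S k o) A (2 * A) 1 1 c).card +
      (wc (S (k - 1) o) (A / 2) (2 * (A / 2)) 3 (2 * c)).card + (wc R A (2 * A) 1 0).card := by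
  classical
  have hev : ((wc (S (k - 1) o) (A / 2) (2 * (A / 2)) 3 (2 * c)).image fun x => 2 * x).card ≤
      (wc (S (k - 1) o) (A / 2) (2 * (A / 2)) 3 (2 * c)).card := card_image_le
  have hsub : wc (S k o) A (2 * A) 3 c ⊆ (cls (S k o) A (2 * A) 1 1 c ∪
      (wc (S (k - 1) o) (A / 2) (2 * (A / 2)) 3 (2 * c)).image fun x => 2 * x) ∪
        wc R A (2 * A) 1 0 := by
    intro x hx
    rw [mem_wc] at hx
    obtain ⟨h1, h2, h3⟩ := hx
    rw [mem_union, mem_union]
    by_cases hxR : x ∈ R
    · right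
      rw [mem_wc]
      exact ⟨h1, hxR, one_dvd _⟩
    · left
      rcases Int.even_or_odd x with he | ho
      · right
        obtain ⟨y, hy⟩ := he
        rw [mem_image]
        refine ⟨y, ?_, by omega⟩
        rw [mem_wc]
        have hxy : (x : ℝ) = 2 * y := by rw [hy]; push_cast; ring
        have hx2 : x = 2 * y := by omega
        refine ⟨⟨by linarith [h1.1], by linarith [h1.2]⟩, ?_, by omega⟩
        rw [hx2] at h2 hxR
        exact (B2_two hS k o y hxR).1 h2
      · left
        rw [mem_cls]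
        exact ⟨h1, ho, h2, by rw [pow_one, one_mul]; exact h3⟩
  refine (card_le_card hsub).trans ((card_union_le _ _).trans ?_)
  refine Nat.add_le_add_right ((card_union_le _ _).trans ?_) _
  exact Nat.add_le_add_left hev _

/-- parity decomposition, lower bound -/
theorem B2_parity_ge {d : ℤ} {R : Set ℤ} {S : ℤ → ℤ → Set ℤ} (hS : GF d R S) (k o : ℤ) (A : ℝ)
    (c : ℤ) :
    (cls (S k o) A (2 * A) 1 1 c).card +
      (wc (S (k - 1) o) (A / 2) (2 * (A / 2)) 3 (2 * c)).card ≤
      (wc (S k o) A (2 * A) 3 c).card + (wc R A (2 * A) 1 0).card := by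
  classical
  have hev : (wc (S (k - 1) o) (A / 2) (2 * (A / 2)) 3 (2 * c)).card =
      ((wc (S (k - 1) o) (A / 2) (2 * (A / 2)) 3 (2 * c)).image fun x => 2 * x).card := by
    rw [card_image_of_injective]
    intro x y hxy
    simp only at hxy
    omega
  rw [hev, ← card_union_of_disjoint]
  · refine (card_le_card ?_).trans (card_union_le _ _)
    intro x hx
    rw [mem_union, mem_cls, mem_image] at hx
    rw [mem_union, mem_wc, mem_wc]
    rcases hx with ⟨h1, h2, h3, h4⟩ | ⟨y, hy, rfl⟩
    · rw [pow_one, one_mul] at h4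
      exact Or.inl ⟨h1, h3, h4⟩
    · rw [mem_wc] at hy
      obtain ⟨h1, h2, h3⟩ := hy
      have hw : A ≤ ((2 * y : ℤ) : ℝ) ∧ ((2 * y : ℤ) : ℝ) < 2 * A := by
        push_cast
        exact ⟨by linarith [h1.1], by linarith [h1.2]⟩
      by_cases hxR : 2 * y ∈ R
      · exact Or.inr ⟨hw, hxR, one_dvd _⟩
      · exact Or.inl ⟨hw, (B2_two hS k o y hxR).2 h2, by omega⟩
  · rw [Finset.disjoint_left]
    intro x hx hx'
    rw [mem_cls] at hx
    rw [mem_image] at hx'
    obtain ⟨y, _, rfl⟩ := hx'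
    have := hx.2.1
    rw [Int.odd_iff] at this
    omega

/-- statement of task LT-B1 (`equi_oddG`) -/
def OddG : Prop := ∀ (B : ℕ) {d : ℤ} (_ : Odd d) (_ : IsCoprime d 3) {R : Set ℤ} (_ : FC d R) (_ : SpW R),
    ∃ C : ℝ, 0 < C ∧ ∀ S : ℤ → ℤ → Set ℤ, GF d R S → ∀ A : ℝ, 0 < A → 1000 ≤ Real.log A → ∀ m : ℕ,
      (m : ℝ) ^ 2 ≤ Real.log A → ∀ k o c c' : ℤ,
      ((cls (S k o) A (2 * A) m 1 c).card : ℝ)
        ≤ (cls (S k o) A (2 * A) m 1 c').card + C / (Real.log A) ^ B * (A / (2 * 3 ^ m))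

theorem equi_allG_of (equi_oddG : OddG) {d : ℤ} (hd : Odd d) (hd3 : IsCoprime d 3) {R : Set ℤ} (hR : FC d R) (hRs : SpW R) :
    ∃ K : ℝ, 0 < K ∧ ∀ S : ℤ → ℤ → Set ℤ, GF d R S → ∀ A : ℝ, 0 < A → 1001 ≤ Real.log A →
      ∀ k o c c' : ℤ, ((wc (S k o) A (2 * A) 3 c).card : ℝ)
        ≤ (wc (S k o) A (2 * A) 3 c').card + K / (Real.log A) ^ 2 * A := by
  obtain ⟨C, hC, he⟩ := equi_oddG 2 hd hd3 hR hRs
  obtain ⟨CR, hCR, hRw⟩ := hRs 2
  refine ⟨C + 5 * CR + 2 * 1002 ^ 2, by positivity, ?_⟩
  intro S hS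
  have hl2 := Real.log_two_gt_d9
  have hl2' := Real.log_two_lt_d9
  set K := C + 5 * CR + 2 * 1002 ^ 2 with hK
  have hKpos : 0 < K := by positivity
  have htriv : ∀ A : ℝ, 0 < A → 1001 ≤ Real.log A → Real.log A ≤ 1002 → ∀ k o c c' : ℤ,
      ((wc (S k o) A (2 * A) 3 c).card : ℝ)
        ≤ (wc (S k o) A (2 * A) 3 c').card + K / (Real.log A) ^ 2 * A := by
    intro A hA h1 h2 k o c c'
    have h3 := wc_card_le (S k o) (by linarith : A ≤ 2 * A) (q := 3) (by norm_num) c
    have h4 : 1 ≤ A := by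
      have : 0 < Real.log A := by linarith
      exact (Real.log_pos_iff hA.le).1 this |>.le
    have h5 : 2 ≤ K / (Real.log A) ^ 2 := by
      rw [le_div_iff₀ (by have : 0 < Real.log A := by linarith
                          positivity)]
      have : (Real.log A) ^ 2 ≤ 1002 ^ 2 := pow_le_pow_left₀ (by linarith) h2 2
      rw [hK]; linarith
    have h6 : 2 * A ≤ K / (Real.log A) ^ 2 * A := mul_le_mul_of_nonneg_right h5 hA.le
    have h7 : (0 : ℝ) ≤ (wc (S k o) A (2 * A) 3 c').card := Nat.cast_nonneg _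
    push_cast at h3
    have h8 : (2 * A - A) / 3 + 1 ≤ 2 * A := by linarith
    linarith
  have main : ∀ n : ℕ, ∀ A : ℝ, 0 < A → 1001 ≤ Real.log A → Real.log A ≤ 1002 + n * Real.log 2 →
      ∀ k o c c' : ℤ, ((wc (S k o) A (2 * A) 3 c).card : ℝ)
        ≤ (wc (S k o) A (2 * A) 3 c').card + K / (Real.log A) ^ 2 * A := by
    intro n
    induction n with
    | zero =>
      intro A hA h1 h2 k o c c'
      exact htriv A hA h1 (by simpa using h2) k o c c'
    | succ n ih =>
      intro A hA h1 h2 k o c c'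
      rcases le_or_gt (Real.log A) 1002 with h3 | h3
      · exact htriv A hA h1 h3 k o c c'
      · have hlog : Real.log (A / 2) = Real.log A - Real.log 2 := Real.log_div hA.ne' (by norm_num)
        have hih := ih (A / 2) (by linarith) (by rw [hlog]; linarith) (by
          rw [hlog]; push_cast at h2; linarith) (k - 1) o (2 * c) (2 * c')
        have hodd := he S hS A hA (by linarith) 1 (by
          norm_num; linarith) k o c c'
        have hr := (hRw A hA (by linarith)).2
        have e1 : ((wc (S k o) A (2 * A) 3 c).card : ℝ)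
            ≤ (cls (S k o) A (2 * A) 1 1 c).card +
              (wc (S (k - 1) o) (A / 2) (2 * (A / 2)) 3 (2 * c)).card +
              (wc R A (2 * A) 1 0).card := by
          exact_mod_cast B2_parity_le hS k o A c
        have e2 : ((cls (S k o) A (2 * A) 1 1 c').card : ℝ) +
              (wc (S (k - 1) o) (A / 2) (2 * (A / 2)) 3 (2 * c')).card ≤
            (wc (S k o) A (2 * A) 3 c').card + (wc R A (2 * A) 1 0).card := by
          exact_mod_cast B2_parity_ge hS k o A c'
        set t := Real.log A with ht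
        have htpos : 0 < t := by linarith
        have hne : (0 : ℝ) < (t - Real.log 2) ^ 2 := by
          have : 0 < t - Real.log 2 := by linarith
          positivity
        have hsq : 0.998 * t ^ 2 ≤ (t - Real.log 2) ^ 2 := by nlinarith
        have hK1 : K / (Real.log (A / 2)) ^ 2 * (A / 2) ≤ 0.51 * (K / t ^ 2 * A) := by
          rw [hlog]
          have : K / (t - Real.log 2) ^ 2 ≤ K / (0.998 * t ^ 2) :=
            div_le_div_of_nonneg_left hKpos.le (by positivity) hsq
          have h9 : K / (0.998 * t ^ 2) ≤ 1.01 * (K / t ^ 2) := by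
            rw [div_mul_eq_div_div_swap, div_le_iff₀ (by norm_num)]
            have : 0 < K / t ^ 2 := by positivity
            nlinarith
          have h10 : 0 < K / t ^ 2 * A := by positivity
          calc K / (t - Real.log 2) ^ 2 * (A / 2) ≤ (1.01 * (K / t ^ 2)) * (A / 2) :=
                mul_le_mul_of_nonneg_right (this.trans h9) (by linarith)
            _ = 0.505 * (K / t ^ 2 * A) := by ring
            _ ≤ _ := by linarith
        have hC1 : C / t ^ 2 * (A / (2 * 3 ^ 1)) + 2 * (CR / t ^ 2 * A) ≤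
            0.49 * (K / t ^ 2 * A) := by
          have h9 : C / 6 + 2 * CR ≤ 0.49 * K := by
            rw [hK]
            have : (0 : ℝ) < 2 * 1002 ^ 2 := by norm_num
            linarith
          have h10 : 0 < A / t ^ 2 := by positivity
          have h11 := mul_le_mul_of_nonneg_right h9 h10.le
          calc C / t ^ 2 * (A / (2 * 3 ^ 1)) + 2 * (CR / t ^ 2 * A) =
                (C / 6 + 2 * CR) * (A / t ^ 2) := by ring
            _ ≤ 0.49 * K * (A / t ^ 2) := h11
            _ = _ := by ring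
        linarith
  intro A hA h1 k o c c'
  obtain ⟨n, hn⟩ := exists_nat_ge ((Real.log A - 1002) / Real.log 2)
  have : Real.log A ≤ 1002 + n * Real.log 2 := by
    rw [div_le_iff₀ (by linarith)] at hn; linarith
  exact main n A hA h1 this k o c c'

end Pool.Agent.H499R2.LT
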