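import Pool.Agent.H33.G.R_seed8.H499R2.LT.Defs

/-! Project LT, task B3: almost invariant sets have a natural density. -/

set_option autoImplicit false

namespace Pool.Agent.H499R2.LT

open Pool.Agent.H320R2.PD Finset Filter Topology

open Pool.Agent.H499R2.ND hiding La Ea Me FC

open Pool.Agent.H499R2.CZ

open Pool.Agent.H319R2.Lln (mu)

/-- the statement of `equi_allG` (task LT-B2) -/
def AllG : Prop := ∀ {d : ℤ} (_ : Odd d) (_ : IsCoprime d 3) {R : Set ℤ} (_ : FC d R) (_ : SpW R),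
    ∃ K : ℝ, 0 < K ∧ ∀ S : ℤ → ℤ → Set ℤ, GF d R S → ∀ A : ℝ, 0 < A → 1001 ≤ Real.log A →
      ∀ k o c c' : ℤ, ((wc (S k o) A (2 * A) 3 c).card : ℝ)
        ≤ (wc (S k o) A (2 * A) 3 c').card + K / (Real.log A) ^ 2 * A

theorem AI.two {d : ℤ} {R S : Set ℤ} (h : AI d R S) {x : ℤ} (hx : 2 * x ∉ R) : 2 * x ∈ S ↔ x ∈ S := by
  rw [h (2 * x) hx]
  have : Td d (2 * x) = x := by unfold Td; rw [if_pos (by omega)]; omega
  rw [this]

theorem AI.odd {d : ℤ} {R S : Set ℤ} (h : AI d R S) {n n' : ℤ} (hnR : n ∉ R) (hn : Odd n)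
    (hnn : 2 * n' = 3 * n + d) : n ∈ S ↔ n' ∈ S := by
  rw [h n hnR]
  have : Td d n = n' := by
    unfold Td
    rw [if_neg (by obtain ⟨t, ht⟩ := hn; omega), ← hnn]
    omega
  rw [this]

/-- two finite sets related by an injective map up to few exceptions -/
theorem card_le_of_exc {ι κ : Type*} [DecidableEq ι] [DecidableEq κ] {s e : Finset ι} {t : Finset κ}
    (g : ι → κ) (hg : Set.InjOn g (s : Set ι)) (h : ∀ x ∈ s, x ∉ e → g x ∈ t) : s.card ≤ t.card + e.card := by
  have h1 : s.card ≤ (s \ e).card + e.card := by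
    have := Finset.card_le_card (show s ⊆ (s \ e) ∪ e from by
      intro x hx
      by_cases hxe : x ∈ e
      · exact Finset.mem_union_right _ hxe
      · exact Finset.mem_union_left _ (Finset.mem_sdiff.2 ⟨hx, hxe⟩))
    exact this.trans (Finset.card_union_le _ _)
  have h2 : (s \ e).card ≤ t.card := by
    apply Finset.card_le_card_of_injOn g
    · intro x hx
      have := Finset.mem_sdiff.1 (Finset.mem_coe.1 hx)
      exact Finset.mem_coe.2 (h x this.1 this.2)
    · intro x hx y hy hxy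
      exact hg (Finset.mem_coe.2 (Finset.mem_sdiff.1 (Finset.mem_coe.1 hx)).1)
        (Finset.mem_coe.2 (Finset.mem_sdiff.1 (Finset.mem_coe.1 hy)).1) hxy
  omega

/-- parity decomposition, upper bound -/
theorem AI.parity_le {d : ℤ} {R S : Set ℤ} (h : AI d R S) (A : ℝ) :
    (wc S A (2 * A) 1 0).card
      ≤ (cls S A (2 * A) 0 1 0).card + (wc S (A / 2) (2 * (A / 2)) 1 0).card + (wc R A (2 * A) 1 0).card := by
  classical
  have hev : (wc S (A / 2) (2 * (A / 2)) 1 0).card
      = ((wc S (A / 2) (2 * (A / 2)) 1 0).image fun x => 2 * x).card := by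
    rw [card_image_of_injective]
    intro x y hxy
    simp only at hxy
    omega
  rw [hev]
  have hsub : wc S A (2 * A) 1 0 ⊆ (cls S A (2 * A) 0 1 0 ∪
      ((wc S (A / 2) (2 * (A / 2)) 1 0).image fun x => 2 * x)) ∪ wc R A (2 * A) 1 0 := by
    intro x hx
    rw [mem_wc] at hx
    obtain ⟨h1, h2, h3⟩ := hx
    rw [mem_union, mem_union, mem_cls, mem_image, mem_wc]
    by_cases hxR : x ∈ R
    · exact Or.inr ⟨h1, hxR, one_dvd _⟩
    · left
      rcases Int.even_or_odd x with he | ho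
      · right
        obtain ⟨y, hy⟩ := he
        refine ⟨y, ?_, by omega⟩
        rw [mem_wc]
        have hxy : (x : ℝ) = 2 * y := by rw [hy]; push_cast; ring
        refine ⟨⟨by linarith [h1.1], by linarith [h1.2]⟩, ?_, one_dvd _⟩
        have hx2 : x = 2 * y := by omega
        rw [hx2] at hxR h2
        exact (h.two hxR).1 h2
      · left
        exact ⟨h1, ho, h2, by simp⟩
  refine (card_le_card hsub).trans ?_
  refine (card_union_le _ _).trans ?_
  gcongr
  exact card_union_le _ _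

/-- parity decomposition, lower bound -/
theorem AI.parity_ge {d : ℤ} {R S : Set ℤ} (h : AI d R S) (A : ℝ) :
    (cls S A (2 * A) 0 1 0).card + (wc S (A / 2) (2 * (A / 2)) 1 0).card
      ≤ (wc S A (2 * A) 1 0).card + (wc R A (2 * A) 1 0).card := by
  classical
  have hev : (wc S (A / 2) (2 * (A / 2)) 1 0).card
      = ((wc S (A / 2) (2 * (A / 2)) 1 0).image fun x => 2 * x).card := by
    rw [card_image_of_injective]
    intro x y hxy
    simp only at hxy
    omega
  rw [hev, ← card_union_of_disjoint]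
  · refine le_trans (card_le_card ?_) (card_union_le _ _)
    intro x hx
    rw [mem_union, mem_cls, mem_image] at hx
    rw [mem_union, mem_wc, mem_wc]
    rcases hx with ⟨h1, h3, h2, _⟩ | ⟨y, hy, rfl⟩
    · exact Or.inl ⟨h1, h2, one_dvd _⟩
    · rw [mem_wc] at hy
      obtain ⟨h1, h2, h3⟩ := hy
      push_cast
      by_cases hxR : 2 * y ∈ R
      · exact Or.inr ⟨⟨by linarith [h1.1], by linarith [h1.2]⟩, hxR, one_dvd _⟩
      · exact Or.inl ⟨⟨by linarith [h1.1], by linarith [h1.2]⟩, (h.two hxR).2 h2, one_dvd _⟩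
  · rw [Finset.disjoint_left]
    intro x hx hx'
    rw [mem_cls] at hx
    rw [mem_image] at hx'
    obtain ⟨y, _, rfl⟩ := hx'
    have := hx.2.1
    rw [Int.odd_iff] at this
    omega

theorem odd_img {d : ℤ} (hd : Odd d) {n : ℤ} (hn : Odd n) : 2 * ((3 * n + d) / 2) = 3 * n + d := by
  obtain ⟨t, ht⟩ := hn; obtain ⟨s, hs⟩ := hd; omega

/-- the odd elements of a window and their images, upper bound -/
theorem AI.odd_le {d : ℤ} (hd : Odd d) {R S : Set ℤ} (h : AI d R S) (A : ℝ) :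
    (cls S A (2 * A) 0 1 0).card
      ≤ (wc S (3 * A / 2 + d / 2) (2 * (3 * A / 2) + d / 2) 3 (2 * d)).card + (wc R A (2 * A) 1 0).card := by
  classical
  apply card_le_of_exc (fun n => (3 * n + d) / 2)
  · intro n hn n' hn' heq
    have hn := Finset.mem_coe.1 hn
    have hn' := Finset.mem_coe.1 hn'
    rw [mem_cls] at hn hn'
    have hev := odd_img hd hn.2.1
    have hev' := odd_img hd hn'.2.1
    simp only at heq
    omega
  · intro n hn hnR
    rw [mem_cls] at hn
    obtain ⟨h1, h2, h3, _⟩ := hn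
    have hev := odd_img hd h2
    have hR : (2 : ℝ) * (((3 * n + d) / 2 : ℤ) : ℝ) = 3 * n + d := by exact_mod_cast hev
    have hnR' : n ∉ R := by
      intro hc
      apply hnR
      rw [mem_wc]
      exact ⟨h1, hc, one_dvd _⟩
    rw [mem_wc]
    refine ⟨⟨by linarith [h1.1], by linarith [h1.2]⟩, (h.odd hnR' h2 hev).1 h3, ?_⟩
    exact ⟨2 * n - ((3 * n + d) / 2), by omega⟩

/-- the odd elements of a window and their images, lower bound -/
theorem AI.odd_ge {d : ℤ} (hd : Odd d) {R S : Set ℤ} (h : AI d R S) (A : ℝ) :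
    (wc S (3 * A / 2 + d / 2) (2 * (3 * A / 2) + d / 2) 3 (2 * d)).card
      ≤ (cls S A (2 * A) 0 1 0).card + (wc R A (2 * A) 1 0).card := by
  classical
  have key : ∀ x ∈ wc S (3 * A / 2 + d / 2) (2 * (3 * A / 2) + d / 2) 3 (2 * d),
      ∃ n : ℤ, 2 * x = 3 * n + d ∧ Odd n ∧ A ≤ n ∧ (n : ℝ) < 2 * A ∧ (2 * x - d) / 3 = n := by
    intro x hx
    rw [mem_wc] at hx
    obtain ⟨h1, h2, t, ht⟩ := hx
    have hn : 2 * x = 3 * (2 * t + d) + d := by omega
    have hodd : Odd (2 * t + d) := (even_two_mul t).add_odd hd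
    have hR : (2 : ℝ) * x = 3 * ((2 * t + d : ℤ) : ℝ) + d := by exact_mod_cast hn
    exact ⟨2 * t + d, hn, hodd, by linarith [h1.1], by linarith [h1.2], by omega⟩
  refine le_trans ?_ (card_union_le _ _)
  apply Finset.card_le_card_of_injOn (fun x => (2 * x - d) / 3)
  · intro x hx
    have hx := Finset.mem_coe.1 hx
    obtain ⟨n, hn, hodd, hA1, hA2, he⟩ := key x hx
    rw [mem_wc] at hx
    apply Finset.mem_coe.2
    simp only
    rw [he, mem_union, mem_cls, mem_wc]
    by_cases hnR : n ∈ R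
    · exact Or.inr ⟨⟨hA1, hA2⟩, hnR, one_dvd _⟩
    · exact Or.inl ⟨⟨hA1, hA2⟩, hodd, (h.odd hnR hodd hn).2 hx.2.1, by simp⟩
  · intro x hx y hy hxy
    obtain ⟨n, hn, _, _, _, he⟩ := key x (Finset.mem_coe.1 hx)
    obtain ⟨n', hn', _, _, _, he'⟩ := key y (Finset.mem_coe.1 hy)
    simp only at hxy
    rw [he, he'] at hxy
    omega

/-- THE HARMONIC RELATION for almost invariant sets -/
theorem harm_AI (equi_allG : AllG) {d : ℤ} (hd : Odd d) (hd3 : IsCoprime d 3) {R : Set ℤ} (hR : FC d R) (hRs : SpW R)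
    {S : Set ℤ} (hS : AI d R S) : ∃ K : ℝ, 0 < K ∧ ∀ A : ℝ, 0 < A → 1002 ≤ Real.log A →
      |((wc S A (2 * A) 1 0).card : ℝ) - (wc S (A / 2) (2 * (A / 2)) 1 0).card
        - (wc S (3 * A / 2) (2 * (3 * A / 2)) 1 0).card / 3| ≤ K / (Real.log A) ^ 2 * A := by
  obtain ⟨K, hK, he⟩ := equi_allG hd hd3 hR hRs
  obtain ⟨C, hC, hsp⟩ := hRs 2
  refine ⟨2 * K + 2 * |(d : ℝ)| + 2 + 2 * C, by positivity, ?_⟩
  intro A hA ht
  have hr := (hsp A hA (by linarith)).2
  set r : ℝ := ((wc R A (2 * A) 1 0).card : ℝ) with hrdef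
  have h1 : ((wc S A (2 * A) 1 0).card : ℝ)
      ≤ (cls S A (2 * A) 0 1 0).card + (wc S (A / 2) (2 * (A / 2)) 1 0).card + r := by
    rw [hrdef]; exact_mod_cast hS.parity_le A
  have h1' : ((cls S A (2 * A) 0 1 0).card : ℝ) + (wc S (A / 2) (2 * (A / 2)) 1 0).card
      ≤ (wc S A (2 * A) 1 0).card + r := by
    rw [hrdef]; exact_mod_cast hS.parity_ge A
  have h2 : ((cls S A (2 * A) 0 1 0).card : ℝ)
      ≤ (wc S (3 * A / 2 + d / 2) (2 * (3 * A / 2) + d / 2) 3 (2 * d)).card + r := by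
    rw [hrdef]; exact_mod_cast hS.odd_le hd A
  have h2' : ((wc S (3 * A / 2 + d / 2) (2 * (3 * A / 2) + d / 2) 3 (2 * d)).card : ℝ)
      ≤ (cls S A (2 * A) 0 1 0).card + r := by
    rw [hrdef]; exact_mod_cast hS.odd_ge hd A
  set L := 3 * A / 2 with hL
  have hLpos : 0 < L := by positivity
  have hlogL : Real.log A ≤ Real.log L := Real.log_le_log hA (by rw [hL]; linarith)
  have h3 := wc_shift_le S L (d / 2) 3 (2 * d)
  have h4 := wc_shift_ge S L (d / 2) 3 (2 * d)
  have hthree : ((wc S L (2 * L) 1 0).card : ℝ)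
      = (wc S L (2 * L) 3 0).card + (wc S L (2 * L) 3 1).card + (wc S L (2 * L) 3 2).card := by
    exact_mod_cast wc_three S L (2 * L)
  have hGF : GF d R (fun _ _ => S) := fun _ _ x hx => hS x hx
  have he' : ∀ c c' : ℤ, ((wc S L (2 * L) 3 c).card : ℝ)
        ≤ (wc S L (2 * L) 3 c').card + K / (Real.log L) ^ 2 * L :=
    fun c c' => he (fun _ _ => S) hGF L hLpos (by linarith) 0 0 c c'
  set D := K / (Real.log L) ^ 2 * L with hD
  have u0 := he' (2 * d) 0
  have u1 := he' (2 * d) 1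
  have u2 := he' (2 * d) 2
  have v0 := he' 0 (2 * d)
  have v1 := he' 1 (2 * d)
  have v2 := he' 2 (2 * d)
  have hDle : D ≤ 3 / 2 * (K / (Real.log A) ^ 2 * A) := by
    rw [hD, hL]
    have htpos : 0 < Real.log A := by linarith
    have : K / (Real.log (3 * A / 2)) ^ 2 ≤ K / (Real.log A) ^ 2 := by
      apply div_le_div_of_nonneg_left hK.le (by positivity)
      exact pow_le_pow_left₀ htpos.le hlogL 2
    calc K / (Real.log (3 * A / 2)) ^ 2 * (3 * A / 2) ≤ K / (Real.log A) ^ 2 * (3 * A / 2) :=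
          mul_le_mul_of_nonneg_right this (by positivity)
      _ = _ := by ring
  have hD0 : 0 ≤ D := by positivity
  have hd2 : |(d : ℝ) / 2| = |(d : ℝ)| / 2 := by rw [abs_div, abs_of_pos (by norm_num : (0 : ℝ) < 2)]
  rw [hd2] at h3 h4
  -- the constant is absorbed
  have habs : (2 * |(d : ℝ)| + 2) / (Real.log A) ^ 2 * A ≥ |(d : ℝ)| + 1 := by
    have htpos : 0 < Real.log A := by linarith
    have h5 : (Real.log A) ^ 2 / 2 ≤ A := by
      have := Real.pow_div_factorial_le_exp (Real.log A) htpos.le 2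
      rw [Real.exp_log hA] at this
      simpa using this
    rw [ge_iff_le, div_mul_eq_mul_div, le_div_iff₀ (by positivity)]
    have : 0 ≤ |(d : ℝ)| := abs_nonneg _
    nlinarith
  have hfin : (2 * K + 2 * |(d : ℝ)| + 2 + 2 * C) / (Real.log A) ^ 2 * A
      = 2 * (K / (Real.log A) ^ 2 * A) + (2 * |(d : ℝ)| + 2) / (Real.log A) ^ 2 * A
        + 2 * (C / (Real.log A) ^ 2 * A) := by ring
  rw [hfin]
  have h0d : 0 ≤ |(d : ℝ)| := abs_nonneg _
  have hKA : 0 ≤ K / (Real.log A) ^ 2 * A := by positivity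
  rw [abs_le]
  constructor <;> linarith

theorem Fd_harm_AI (equi_allG : AllG) {d : ℤ} (hd : Odd d) (hd3 : IsCoprime d 3) {R : Set ℤ} (hR : FC d R) (hRs : SpW R)
    {S : Set ℤ} (hS : AI d R S) : ∃ K : ℝ, 0 < K ∧ ∀ t : ℝ, 1002 ≤ t →
      |Fd S t - (Fd S (t - Real.log 2) + Fd S (t + Real.log (3 / 2))) / 2| ≤ K / t ^ 2 := by
  obtain ⟨K, hK, h⟩ := harm_AI equi_allG hd hd3 hR hRs hS
  refine ⟨K, hK, fun t ht => ?_⟩
  have he := Real.exp_pos t
  have h1 := h (Real.exp t) he (by rw [Real.log_exp]; exact ht)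
  rw [Real.log_exp] at h1
  have e1 : Real.exp (t - Real.log 2) = Real.exp t / 2 := by
    rw [Real.exp_sub, Real.exp_log (by norm_num)]
  have e2 : Real.exp (t + Real.log (3 / 2)) = 3 * Real.exp t / 2 := by
    rw [Real.exp_add, Real.exp_log (by norm_num)]; ring
  have w0 := Fd_win S t
  have w1 := Fd_win S (t - Real.log 2)
  have w2 := Fd_win S (t + Real.log (3 / 2))
  rw [e1] at w1
  rw [e2] at w2
  rw [← w0, ← w1, ← w2] at h1
  set A := Real.exp t with hA
  have hrel : Fd S t * (3 * A) - Fd S (t - Real.log 2) * (3 * (A / 2))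
      - Fd S (t + Real.log (3 / 2)) * (3 * (3 * A / 2)) / 3
      = (Fd S t - (Fd S (t - Real.log 2) + Fd S (t + Real.log (3 / 2))) / 2) * (3 * A) := by ring
  rw [hrel, abs_mul, abs_of_pos (by positivity : (0 : ℝ) < 3 * A)] at h1
  have hX := abs_nonneg (Fd S t - (Fd S (t - Real.log 2) + Fd S (t + Real.log (3 / 2))) / 2)
  have htpos : 0 < t := by linarith
  have hKt : 0 < K / t ^ 2 := by positivity
  by_contra hcon
  push Not at hcon
  nlinarith

/-- window densities converge -/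
theorem Fd_tendsto_AI (equi_allG : AllG) {d : ℤ} (hd : Odd d) (hd3 : IsCoprime d 3) {R : Set ℤ} (hR : FC d R)
    (hRs : SpW R) {S : Set ℤ} (hS : AI d R S) :
    ∃ l : ℝ, Filter.Tendsto (Fd S) Filter.atTop (nhds l) := by
  obtain ⟨K, _, h⟩ := Fd_harm_AI equi_allG hd hd3 hR hRs hS
  exact Pool.Agent.H499R2.HL.harmonic_limit (t0 := 1002) (L := 10) (C := K) (Fd_meas S) (Fd_nonneg S)
    (Fd_le_one S) (fun t s ht hs hs1 => Fd_lip S t s (by linarith) hs hs1) (fun t ht => h t ht)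

/-- ALMOST INVARIANT SETS HAVE A NATURAL DENSITY (positive side) -/
theorem density_AI_of (equi_allG : AllG) {d : ℤ} (hd : Odd d) (hd3 : IsCoprime d 3) {R : Set ℤ} (hR : FC d R) (hRs : SpW R)
    {S : Set ℤ} (hS : AI d R S) :
    ∃ l : ℝ, Tendsto (fun X : ℝ => G S X / X) atTop (𝓝 l) := by
  obtain ⟨l, hl⟩ := Fd_tendsto_AI equi_allG hd hd3 hR hRs hS
  refine ⟨3 * l, ?_⟩
  rw [Metric.tendsto_atTop] at hl ⊢
  intro ε hε
  obtain ⟨T, hT⟩ := hl (ε / 12) (by positivity)
  -- recursion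
  have hrec : ∀ X : ℝ, 0 < X → G S (2 * X) / (2 * X) - 3 * l
      = (G S X / X - 3 * l) / 2 + 3 / 2 * (Fd S (Real.log X) - l) := by
    intro X hX
    unfold Fd
    rw [Real.exp_log hX]
    field_simp
    ring
  set X0 := max (Real.exp T) 1 with hX0
  have hX0pos : 0 < X0 := by positivity
  have hX01 : 1 ≤ X0 := le_max_right _ _
  have hstep : ∀ X : ℝ, X0 ≤ X → |G S (2 * X) / (2 * X) - 3 * l| ≤ |G S X / X - 3 * l| / 2 + ε / 8 := by
    intro X hX
    have hXpos : 0 < X := by linarith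
    rw [hrec X hXpos]
    have h1 := hT (Real.log X) (by
      rw [ge_iff_le, Real.le_log_iff_exp_le hXpos]
      exact (le_max_left _ _).trans hX)
    rw [Real.dist_eq] at h1
    have h2 := abs_add_le ((G S X / X - 3 * l) / 2) (3 / 2 * (Fd S (Real.log X) - l))
    rw [abs_div, abs_mul, abs_of_pos (by norm_num : (0 : ℝ) < 2),
      abs_of_pos (by norm_num : (0 : ℝ) < 3 / 2)] at h2
    linarith
  set M := 1 + |3 * l| with hM
  have hMpos : 0 < M := by positivity
  have hbase : ∀ X : ℝ, X0 ≤ X → |G S X / X - 3 * l| ≤ M := by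
    intro X hX
    have hXpos : 0 < X := by linarith
    have h1 : G S X / X ≤ 1 := by rw [div_le_one hXpos]; exact pos_card_le S hXpos.le
    have h2 : 0 ≤ G S X / X := div_nonneg (G_nonneg S X) hXpos.le
    calc |G S X / X - 3 * l| ≤ |G S X / X| + |3 * l| := abs_sub _ _
      _ ≤ M := by rw [abs_of_nonneg h2]; linarith
  have hiter : ∀ n : ℕ, ∀ X : ℝ, X0 * 2 ^ n ≤ X → |G S X / X - 3 * l| ≤ M / 2 ^ n + ε / 4 := by
    intro n
    induction n with
    | zero =>
      intro X hX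
      have := hbase X (by simpa using hX)
      simp only [pow_zero, div_one]
      linarith
    | succ n ih =>
      intro X hX
      have hX2 : X0 * 2 ^ n ≤ X / 2 := by rw [pow_succ] at hX; linarith
      have h1 := ih (X / 2) hX2
      have h2 := hstep (X / 2) (by
        have : X0 ≤ X0 * 2 ^ n := le_mul_of_one_le_right hX0pos.le (one_le_pow₀ (by norm_num))
        linarith)
      rw [show 2 * (X / 2) = X by ring] at h2
      have h3 : M / 2 ^ (n + 1) = M / 2 ^ n / 2 := by rw [pow_succ]; field_simp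
      rw [h3]
      linarith
  obtain ⟨n, hn⟩ := pow_unbounded_of_one_lt (4 * M / ε) (by norm_num : (1 : ℝ) < 2)
  refine ⟨X0 * 2 ^ n, fun X hX => ?_⟩
  rw [Real.dist_eq]
  have h1 := hiter n X hX
  have h2 : M / 2 ^ n < ε / 4 := by
    rw [div_lt_iff₀ hε] at hn
    rw [div_lt_iff₀ (by positivity)]
    linarith
  linarith

end Pool.Agent.H499R2.LT
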