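import Pool.Agent.H33.G.R_seed8.H499R2.LT.B5

/-! Project LT, task B4 (helper541, after helper537): almost invariant sets are equidistributed in
the classes mod `3^m`, with the right density. -/

set_option autoImplicit false

namespace Pool.Agent.H499R2.LT

open Pool.Agent.H320R2.PD Finset Filter Topology

open Pool.Agent.H499R2.ND hiding La Ea Me FC

open Pool.Agent.H499R2.CZ

open Pool.Agent.H319R2.Lln (mu)

namespace B4

/-- the step on even integers -/
theorem Td_two (d t : ℤ) : Td d (2 * t) = t := by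
  unfold Td
  rw [if_pos (by omega)]
  omega

/-- the odd elements of an almost invariant set in a window -/
theorem odd_le {d : ℤ} {R S : Set ℤ} (hS : AI d R S) {A : ℝ} (hA : 0 < A) :
    ((cls S A (2 * A) 0 1 0).card : ℝ) ≤ G S (2 * A) - 2 * G S A + G S (A / 2) +
      ((wc R A (2 * A) 1 0).card : ℝ) := by
  classical
  have h1 := G_win S hA (by linarith : A ≤ 2 * A)
  have h2 := G_win S (by linarith : 0 < A / 2) (by linarith : A / 2 ≤ A)
  have hsub : cls S A (2 * A) 0 1 0 ∪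
      (wc S (A / 2) A 1 0).image (fun x => 2 * x) ⊆ wc S A (2 * A) 1 0 ∪ wc R A (2 * A) 1 0 := by
    intro x hx
    rw [mem_union, mem_cls, mem_image] at hx
    rw [mem_union, mem_wc, mem_wc]
    rcases hx with ⟨h, _, hxS, _⟩ | ⟨t, ht, rfl⟩
    · exact Or.inl ⟨h, hxS, one_dvd _⟩
    · rw [mem_wc] at ht
      push_cast
      have hw : A ≤ 2 * (t : ℝ) ∧ 2 * (t : ℝ) < 2 * A := ⟨by linarith [ht.1.1], by linarith [ht.1.2]⟩
      by_cases hR : 2 * t ∈ R
      · exact Or.inr ⟨hw, hR, one_dvd _⟩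
      · refine Or.inl ⟨hw, (hS _ hR).2 ?_, one_dvd _⟩
        rw [Td_two]
        exact ht.2.1
  have hdisj : Disjoint (cls S A (2 * A) 0 1 0) ((wc S (A / 2) A 1 0).image (fun x => 2 * x)) := by
    rw [Finset.disjoint_left]
    intro x hx hx'
    rw [mem_cls] at hx
    rw [mem_image] at hx'
    obtain ⟨t, _, rfl⟩ := hx'
    have := hx.2.1
    rw [← Int.not_even_iff_odd] at this
    exact this (even_two_mul t)
  have hcard : ((cls S A (2 * A) 0 1 0).card : ℝ) + (wc S (A / 2) A 1 0).card ≤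
      (wc S A (2 * A) 1 0).card + (wc R A (2 * A) 1 0).card := by
    have h3 := (card_le_card hsub).trans (card_union_le _ _)
    rw [card_union_of_disjoint hdisj, card_image_of_injective _ (fun x y h => by
      have : 2 * x = 2 * y := h
      omega)] at h3
    exact_mod_cast h3
  linarith

/-- the classes mod `3^m` form a partition -/
theorem clI_sum (S : Set ℤ) (a b : ℝ) (m : ℕ) :
    ∑ c ∈ range (3 ^ m), ((cls S a b m 1 (c : ℤ)).card : ℝ) = (cls S a b 0 1 0).card := by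
  classical
  have hpos : (0 : ℤ) < 3 ^ m := by positivity
  have h := card_eq_sum_card_fiberwise (s := cls S a b 0 1 0) (t := range (3 ^ m))
    (f := fun x : ℤ => (x % 3 ^ m).toNat) (by
      intro x _
      simp only [Finset.coe_range, Set.mem_Iio]
      have h1 := Int.emod_lt_of_pos x hpos
      have h2 := Int.emod_nonneg x hpos.ne'
      have : ((x % 3 ^ m).toNat : ℤ) < ((3 ^ m : ℕ) : ℤ) := by
        rw [Int.toNat_of_nonneg h2]; push_cast; exact h1
      exact_mod_cast this)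
  rw [h, Nat.cast_sum]
  refine sum_congr rfl fun c hc => ?_
  congr 2
  ext x
  rw [mem_cls, mem_filter, mem_cls]
  have hc' : (c : ℤ) < 3 ^ m := by exact_mod_cast mem_range.1 hc
  have h2 := Int.emod_nonneg x hpos.ne'
  have key : (3 : ℤ) ^ m ∣ 1 * x - c ↔ (x % 3 ^ m).toNat = c := by
    rw [one_mul]
    constructor
    · intro hd
      have h3 : x % 3 ^ m = (c : ℤ) % 3 ^ m := (Int.modEq_iff_dvd.2 hd).symm
      rw [Int.emod_eq_of_lt (by positivity) hc'] at h3
      rw [h3]; rfl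
    · intro he
      have h3 : x % 3 ^ m = (c : ℤ) := by rw [← he, Int.toNat_of_nonneg h2]
      have h4 : x % 3 ^ m = (c : ℤ) % 3 ^ m := by rw [h3, Int.emod_eq_of_lt (by positivity) hc']
      exact Int.modEq_iff_dvd.1 (Int.ModEq.symm h4)
  rw [key]
  simp only [pow_zero, isUnit_one, IsUnit.dvd, and_true]
  tauto

end B4

open B4

theorem class_bound_AI {d : ℤ} (hd : Odd d) (hd3 : IsCoprime d 3) {R : Set ℤ} (hR : FC d R) (hRs : SpW R)
    {S : Set ℤ} (hS : AI d R S) {δ : ℝ}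
    (hδ : Tendsto (fun X : ℝ => G S X / X) atTop (𝓝 δ)) {ε : ℝ} (hε : 0 < ε) :
    ∃ A0 : ℝ, 0 < A0 ∧ ∀ A : ℝ, A0 ≤ A → ∀ m : ℕ, (m : ℝ) ^ 2 ≤ Real.log A → PB S A m (δ + ε) := by
  obtain ⟨C, hC, hequi⟩ := equi_oddG 1 hd hd3 hR hRs
  obtain ⟨C', hC', hsp⟩ := hRs 1
  have hlim : Tendsto (fun A : ℝ => (G S (2 * A) - 2 * G S A + G S (A / 2)) / A) atTop
      (𝓝 (2 * δ - 2 * δ + δ / 2)) := by
    have t1 : Tendsto (fun A : ℝ => 2 * (G S (2 * A) / (2 * A))) atTop (𝓝 (2 * δ)) :=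
      (hδ.comp (tendsto_id.const_mul_atTop (by norm_num : (0 : ℝ) < 2))).const_mul 2
    have t2 : Tendsto (fun A : ℝ => 2 * (G S A / A)) atTop (𝓝 (2 * δ)) := hδ.const_mul 2
    have t3 : Tendsto (fun A : ℝ => G S (A / 2) / (A / 2) / 2) atTop (𝓝 (δ / 2)) :=
      (hδ.comp (tendsto_id.atTop_div_const (by norm_num : (0 : ℝ) < 2))).div_const 2
    refine ((t1.sub t2).add t3).congr' ?_
    filter_upwards [eventually_gt_atTop 0] with A hA
    field_simp
  have e1 : ∀ᶠ A : ℝ in atTop, (G S (2 * A) - 2 * G S A + G S (A / 2)) / A < δ / 2 + ε / 8 := by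
    refine (tendsto_order.1 hlim).2 _ ?_
    linarith
  have e2 : ∀ᶠ A : ℝ in atTop, max 1000 (max (2 * C / ε) (8 * C' / ε)) ≤ Real.log A :=
    Real.tendsto_log_atTop.eventually_ge_atTop _
  obtain ⟨A1, hA1⟩ := eventually_atTop.1 (e1.and e2)
  refine ⟨max A1 1, lt_of_lt_of_le zero_lt_one (le_max_right _ _), ?_⟩
  intro A hA m hm u v hu
  have hA0 : 0 < A := lt_of_lt_of_le zero_lt_one ((le_max_right _ _).trans hA)
  obtain ⟨h1, h2⟩ := hA1 A ((le_max_left _ _).trans hA)
  have hlog : 1000 ≤ Real.log A := (le_max_left _ _).trans h2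
  have hlog2 : 2 * C / ε ≤ Real.log A := (le_max_left _ _).trans ((le_max_right _ _).trans h2)
  have hlog3 : 8 * C' / ε ≤ Real.log A := (le_max_right _ _).trans ((le_max_right _ _).trans h2)
  obtain ⟨c, hc⟩ := cls_unit S A (2 * A) m hu v
  rw [hc]
  have hG : GF d R (fun _ _ => S) := fun _ _ x hx => hS x hx
  have hq := fun c' : ℤ => hequi (fun _ _ => S) hG A hA0 hlog m hm 0 0 c c'
  have hsum : ∑ c' ∈ range (3 ^ m), ((cls S A (2 * A) m 1 c).card : ℝ) ≤
      ∑ c' ∈ range (3 ^ m), (((cls S A (2 * A) m 1 (c' : ℤ)).card : ℝ) +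
        C / (Real.log A) ^ 1 * (A / (2 * 3 ^ m))) := sum_le_sum fun c' _ => hq c'
  rw [sum_add_distrib, clI_sum, sum_const, sum_const, card_range, nsmul_eq_mul,
    nsmul_eq_mul] at hsum
  have hodd := odd_le hS hA0
  have hwR := (hsp A hA0 (by linarith)).2
  rw [div_lt_iff₀ hA0] at h1
  push_cast at hsum
  have hCl : C / Real.log A ≤ ε / 2 := by
    rw [div_le_div_iff₀ (by linarith) (by norm_num)]
    rw [div_le_iff₀ hε] at hlog2
    linarith
  have hCl' : C' / Real.log A ≤ ε / 8 := by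
    rw [div_le_div_iff₀ (by linarith) (by norm_num)]
    rw [div_le_iff₀ hε] at hlog3
    linarith
  rw [pow_one] at hwR
  have hwR' : ((wc R A (2 * A) 1 0).card : ℝ) ≤ ε / 8 * A :=
    hwR.trans (mul_le_mul_of_nonneg_right hCl' hA0.le)
  set x : ℝ := ((cls S A (2 * A) m 1 c).card : ℝ) with hx
  have h3 : (0 : ℝ) < 3 ^ m := by positivity
  have h4 : (3 : ℝ) ^ m * (C / Real.log A ^ 1 * (A / (2 * 3 ^ m))) = C / Real.log A * (A / 2) := by
    rw [pow_one]
    field_simp
  rw [h4] at hsum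
  have h5 : (δ + ε) * (A / (2 * 3 ^ m)) = ((δ + ε) * (A / 2)) / 3 ^ m := by
    field_simp
  rw [h5, le_div_iff₀ h3]
  have h6 : C / Real.log A * (A / 2) ≤ ε / 2 * (A / 2) :=
    mul_le_mul_of_nonneg_right hCl (by linarith)
  nlinarith

end Pool.Agent.H499R2.LT
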