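import Pool.Agent.H33.G.R_seed8.H499R2.LT.A
import Pool.Agent.H33.G.R_seed8.H499R2.LT.B0
import Pool.Agent.H33.G.R_seed8.H499R2.LT.B1
import Pool.Agent.H33.G.R_seed8.H499R2.LT.B2
import Pool.Agent.H33.G.R_seed8.H499R2.LT.B3

/-! Project LT: equidistribution of graded families, densities of almost invariant sets. -/

set_option autoImplicit false

namespace Pool.Agent.H499R2.LT

open Pool.Agent.H320R2.PD Finset Filter Topology

open Pool.Agent.H499R2.ND hiding La Ea Me FC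

open Pool.Agent.H499R2.CZ

theorem equi_oddG (B : ℕ) {d : ℤ} (hd : Odd d) (hd3 : IsCoprime d 3) {R : Set ℤ} (hR : FC d R) (hRs : SpW R) :
    ∃ C : ℝ, 0 < C ∧ ∀ S : ℤ → ℤ → Set ℤ, GF d R S → ∀ A : ℝ, 0 < A → 1000 ≤ Real.log A → ∀ m : ℕ,
      (m : ℝ) ^ 2 ≤ Real.log A → ∀ k o c c' : ℤ,
      ((cls (S k o) A (2 * A) m 1 c).card : ℝ)
        ≤ (cls (S k o) A (2 * A) m 1 c').card + C / (Real.log A) ^ B * (A / (2 * 3 ^ m)) :=
  equi_oddG_of @GF_word B hd hd3 hR hRs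

theorem equi_allG {d : ℤ} (hd : Odd d) (hd3 : IsCoprime d 3) {R : Set ℤ} (hR : FC d R) (hRs : SpW R) :
    ∃ K : ℝ, 0 < K ∧ ∀ S : ℤ → ℤ → Set ℤ, GF d R S → ∀ A : ℝ, 0 < A → 1001 ≤ Real.log A →
      ∀ k o c c' : ℤ, ((wc (S k o) A (2 * A) 3 c).card : ℝ)
        ≤ (wc (S k o) A (2 * A) 3 c').card + K / (Real.log A) ^ 2 * A :=
  equi_allG_of @equi_oddG hd hd3 hR hRs

theorem density_AI {d : ℤ} (hd : Odd d) (hd3 : IsCoprime d 3) {R : Set ℤ} (hR : FC d R) (hRs : SpW R)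
    {S : Set ℤ} (hS : AI d R S) :
    ∃ l : ℝ, Tendsto (fun X : ℝ => G S X / X) atTop (𝓝 l) :=
  density_AI_of @equi_allG hd hd3 hR hRs hS

end Pool.Agent.H499R2.LT
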