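import Pool.Agent.H33.G.R_seed8.H499R2.LT.B5
import Pool.Agent.H33.G.R_seed8.H499R2.LT.C1

/-! Project LT, task LT-C2: the recursion for the numbers `N(k, o)`. -/

set_option autoImplicit false

namespace Pool.Agent.H499R2.LT

open Pool.Agent.H320R2.PD Finset Filter Topology

open Pool.Agent.H499R2.ND hiding La Ea Me FC

open Pool.Agent.H499R2.CZ

open Pool.Agent.H319R2.Lln (mu)

namespace C2aux

theorem Hit_succ {d : ℤ} {F : Finset ℤ} {f x : ℤ} {j : ℕ} :
    Hit d F f x (j + 1) ↔ x ∉ F ∧ Hit d F f (Td d x) j := by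
  unfold Hit
  rw [Function.iterate_succ_apply]
  constructor
  · rintro ⟨h1, h2, h3⟩
    refine ⟨h3 0 (Nat.succ_pos j), h1, h2, fun i hi => ?_⟩
    have := h3 (i + 1) (by omega)
    rwa [Function.iterate_succ_apply] at this
  · rintro ⟨h0, h1, h2, h3⟩
    refine ⟨h1, h2, fun i hi => ?_⟩
    rcases i with _ | i
    · exact h0
    · rw [Function.iterate_succ_apply]
      exact h3 i (by omega)

theorem mem_SF {d : ℤ} {F : Finset ℤ} {f : ℤ} {k : ℕ} {o x : ℤ} :
    x ∈ SF d F f k o ↔ Hit d F f x k ∧ od d k x = o := by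
  unfold SF
  constructor
  · rintro ⟨j, hj, h1, h2⟩
    have : j = k := by exact_mod_cast hj
    subst this
    exact ⟨h1, h2⟩
  · rintro ⟨h1, h2⟩
    exact ⟨k, rfl, h1, h2⟩

theorem SF_succ {d : ℤ} {F : Finset ℤ} {f : ℤ} {k : ℕ} {o x : ℤ} :
    x ∈ SF d F f ((k + 1 : ℕ) : ℤ) o ↔ x ∉ F ∧
      Td d x ∈ SF d F f k (o - (if x % 2 = 0 then 0 else 1)) := by
  rw [mem_SF, mem_SF, Hit_succ]
  have : od d (k + 1) x = (if x % 2 = 0 then 0 else 1) + od d k (Td d x) := rfl
  rw [this]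
  constructor
  · rintro ⟨⟨h1, h2⟩, h3⟩
    exact ⟨h1, h2, by omega⟩
  · rintro ⟨h1, h2, h3⟩
    exact ⟨⟨h1, h2⟩, by omega⟩

/-- the positive elements -/
def A (d : ℤ) (F : Finset ℤ) (f : ℤ) (k : ℕ) (o : ℤ) : Set ℤ := {x : ℤ | 0 < x ∧ x ∈ SF d F f k o}

/-- bound -/
noncomputable def Yb (C : ℝ) (k : ℕ) (o : ℤ) : ℝ := Real.exp C * 2 ^ k / (3 : ℝ) ^ o

theorem Yb_pos (C : ℝ) (k : ℕ) (o : ℤ) : 0 < Yb C k o := by
  unfold Yb; positivity

theorem log_Yb (C : ℝ) (k : ℕ) (o : ℤ) :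
    Real.log (Yb C k o) = C + k * Real.log 2 - o * Real.log 3 := by
  unfold Yb
  rw [Real.log_div (by positivity) (by positivity), Real.log_mul (by positivity) (by positivity),
    Real.log_exp, Real.log_pow, Real.log_zpow]

section
variable {d : ℤ} {F : Finset ℤ} {f : ℤ} {C : ℝ}
  (hC : ∀ (x : ℤ) (j : ℕ), x ≠ 0 → Hit d F f x j →
      |Real.log (x : ℝ) + od d j x * Real.log 3 - j * Real.log 2| ≤ C)
include hC

theorem le_Yb {k : ℕ} {o x : ℤ} (hx : x ∈ A d F f k o) : (x : ℝ) ≤ Yb C k o := by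
  obtain ⟨h1, h2⟩ := hx
  obtain ⟨h3, h4⟩ := mem_SF.1 h2
  have h5 := hC x k (by omega) h3
  rw [h4] at h5
  have h6 := (abs_le.1 h5).2
  have hx0 : (0 : ℝ) < x := by exact_mod_cast h1
  rw [← Real.log_le_log_iff hx0 (Yb_pos C k o), log_Yb]
  linarith

theorem ge_Yb {k : ℕ} {o x : ℤ} (hx : x ∈ A d F f k o) : Yb (-C) k o ≤ (x : ℝ) := by
  obtain ⟨h1, h2⟩ := hx
  obtain ⟨h3, h4⟩ := mem_SF.1 h2
  have h5 := hC x k (by omega) h3
  rw [h4] at h5
  have h6 := (abs_le.1 h5).1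
  have hx0 : (0 : ℝ) < x := by exact_mod_cast h1
  rw [← Real.log_le_log_iff (Yb_pos (-C) k o) hx0, log_Yb]
  linarith

theorem A_sub {k : ℕ} {o : ℤ} : A d F f k o ⊆ ↑(Finset.Icc (1 : ℤ) ⌊Yb C k o⌋) := by
  intro x hx
  rw [Finset.coe_Icc]
  refine ⟨?_, Int.le_floor.2 (le_Yb hC hx)⟩
  have := hx.1
  omega

theorem A_fin (k : ℕ) (o : ℤ) : (A d F f k o).Finite :=
  (Finset.finite_toSet _).subset (A_sub hC)

theorem NN_le (k : ℕ) (o : ℤ) : NN d F f k o ≤ Yb C k o := by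
  have h1 : (A d F f k o).ncard ≤ (Finset.Icc (1 : ℤ) ⌊Yb C k o⌋).card := by
    rw [← Set.ncard_coe_finset]
    exact Set.ncard_le_ncard (A_sub hC) (Finset.finite_toSet _)
  rw [Int.card_Icc] at h1
  have h2 : ((A d F f k o).ncard : ℝ) ≤ ((⌊Yb C k o⌋ + 1 - 1).toNat : ℝ) := by exact_mod_cast h1
  have h3 : (0 : ℤ) ≤ ⌊Yb C k o⌋ := Int.floor_nonneg.2 (Yb_pos C k o).le
  have h4 : ((⌊Yb C k o⌋ + 1 - 1).toNat : ℝ) = (⌊Yb C k o⌋ : ℝ) := by
    rw [add_sub_cancel_right]
    exact_mod_cast Int.toNat_of_nonneg h3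
  rw [h4] at h2
  exact h2.trans (Int.floor_le _)

theorem MM_le (k : ℕ) (o : ℤ) : MM d F f k o ≤ Real.exp C := by
  have h := NN_le hC k o
  unfold MM
  unfold Yb at h
  have h3 : (0 : ℝ) < (3 : ℝ) ^ o := by positivity
  have h2 : (0 : ℝ) < (2 : ℝ) ^ k := by positivity
  rw [le_div_iff₀ h3] at h
  rw [div_le_iff₀ h2]
  exact h

end

theorem MM_nonneg (d : ℤ) (F : Finset ℤ) (f : ℤ) (k : ℕ) (o : ℤ) : 0 ≤ MM d F f k o := by
  unfold MM NN; positivity

/-! ### block bound -/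

theorem harm_Ico (m N : ℕ) (hm : 1 ≤ m) (hN : m ≤ N) :
    ∑ n ∈ Finset.Ico m N, 1 / (n : ℝ) ≤ 2 * (Real.log N - Real.log m) := by
  induction N, hN using Nat.le_induction with
  | base => simp
  | succ N hN ih =>
    rw [Finset.sum_Ico_succ_top hN]
    have hN0 : (1 : ℝ) ≤ N := by exact_mod_cast hm.trans hN
    have h1 : 1 / (N : ℝ) ≤ 2 * (Real.log ((N + 1 : ℕ) : ℝ) - Real.log N) := by
      have h2 : Real.log ((N + 1 : ℕ) : ℝ) - Real.log N = - Real.log ((N : ℝ) / (N + 1)) := by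
        rw [Real.log_div (by positivity) (by positivity)]; push_cast; ring
      rw [h2]
      have h3 := Real.log_le_sub_one_of_pos (show (0 : ℝ) < (N : ℝ) / (N + 1) by positivity)
      have h4 : (N : ℝ) / (N + 1) - 1 = - (1 / (N + 1)) := by field_simp; ring
      rw [h4] at h3
      have h5 : 1 / (N : ℝ) ≤ 2 * (1 / (N + 1)) := by
        rw [mul_one_div, div_le_div_iff₀ (by positivity) (by positivity)]
        linarith
      linarith
    linarith

theorem harm_set (U : Finset ℤ) (m N : ℕ) (hm : 1 ≤ m) (hN : m ≤ N)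
    (hU : ∀ x ∈ U, (m : ℤ) ≤ x ∧ x < N) :
    ∑ x ∈ U, 1 / (x : ℝ) ≤ 2 * (Real.log N - Real.log m) := by
  have hsub : U ⊆ (Finset.Ico m N).image (fun n : ℕ => (n : ℤ)) := by
    intro x hx
    obtain ⟨h1, h2⟩ := hU x hx
    refine Finset.mem_image.2 ⟨x.toNat, Finset.mem_Ico.2 ⟨by omega, by omega⟩, ?_⟩
    omega
  calc ∑ x ∈ U, 1 / (x : ℝ) ≤ ∑ x ∈ (Finset.Ico m N).image (fun n : ℕ => (n : ℤ)), 1 / (x : ℝ) := by
        refine Finset.sum_le_sum_of_subset_of_nonneg hsub fun i hi _ => ?_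
        obtain ⟨n, _, rfl⟩ := Finset.mem_image.1 hi
        simp only [Int.cast_natCast]
        positivity
    _ = ∑ n ∈ Finset.Ico m N, 1 / (n : ℝ) := by
        rw [Finset.sum_image (fun a _ b _ h => by exact_mod_cast h)]
        simp only [Int.cast_natCast]
    _ ≤ _ := harm_Ico m N hm hN

theorem block {d : ℤ} {F : Finset ℤ} {f : ℤ} {C : ℝ} (hC0 : 0 ≤ C)
    (hC : ∀ (x : ℤ) (j : ℕ), x ≠ 0 → Hit d F f x j →
      |Real.log (x : ℝ) + od d j x * Real.log 3 - j * Real.log 2| ≤ C)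
    (k1 H : ℕ) (o1 : ℤ) (L : ℕ) :
    ∑ k ∈ Finset.Ico k1 (k1 + H), ∑ o ∈ Finset.Ico o1 (o1 + L), MM d F f k o ≤
      Real.exp C * (4 * C + 4) * (H + L + 1) := by
  classical
  have hexp : 0 < Real.exp C := Real.exp_pos C
  rw [← Finset.sum_product']
  set T := Finset.Ico k1 (k1 + H) ×ˢ Finset.Ico o1 (o1 + (L : ℤ)) with hT
  set B : ℕ × ℤ → Finset ℤ := fun p => (A_fin hC p.1 p.2).toFinset with hB
  have hmem : ∀ p x, x ∈ B p ↔ x ∈ A d F f p.1 p.2 := fun p x => by
    rw [hB]; simp only [Set.Finite.mem_toFinset]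
  have h1 : ∀ p ∈ T, MM d F f p.1 p.2 ≤ ∑ x ∈ B p, Real.exp C * (1 / (x : ℝ)) := by
    intro p _
    have e1 : MM d F f p.1 p.2 = ∑ x ∈ B p, (3 : ℝ) ^ p.2 / 2 ^ p.1 := by
      rw [Finset.sum_const, nsmul_eq_mul]
      unfold MM NN
      have : ({x : ℤ | 0 < x ∧ x ∈ SF d F f p.1 p.2}.ncard : ℝ) = ((B p).card : ℝ) := by
        rw [hB]
        exact_mod_cast Set.ncard_eq_toFinset_card _ (A_fin hC p.1 p.2)
      rw [this, mul_div_assoc]
    rw [e1]
    refine Finset.sum_le_sum fun x hx => ?_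
    have hx' := (hmem p x).1 hx
    have hx0 : (0 : ℝ) < x := by exact_mod_cast hx'.1
    have h2 := le_Yb hC hx'
    unfold Yb at h2
    have h3 : (0 : ℝ) < (3 : ℝ) ^ p.2 := by positivity
    have h4 : (0 : ℝ) < (2 : ℝ) ^ p.1 := by positivity
    rw [le_div_iff₀ h3] at h2
    rw [mul_one_div, div_le_div_iff₀ h4 hx0]
    linarith
  refine (Finset.sum_le_sum h1).trans ?_
  have hdisj : ∀ p ∈ T, ∀ q ∈ T, p ≠ q → Disjoint (B p) (B q) := by
    intro p _ q _ hpq
    rw [Finset.disjoint_left]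
    intro x hxp hxq
    obtain ⟨_, h2⟩ := (hmem p x).1 hxp
    obtain ⟨_, h3⟩ := (hmem q x).1 hxq
    obtain ⟨h4, h5⟩ := mem_SF.1 h2
    obtain ⟨h6, h7⟩ := mem_SF.1 h3
    have h8 := (Hit_unique h4 h6).2
    apply hpq
    ext
    · exact h8
    · rw [← h5, ← h7, h8]
  rw [← Finset.sum_biUnion (fun p hp q hq hpq => hdisj p hp q hq hpq), ← Finset.mul_sum]
  set U := T.biUnion B with hU
  have hlog2 : 0 < Real.log 2 := Real.log_pos (by norm_num)
  have hlog3 : 0 < Real.log 3 := Real.log_pos (by norm_num)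
  have hlog2' : Real.log 2 < 1 := by have := Real.log_two_lt_d9; linarith
  have hlog3' : Real.log 3 < 2 := by
    have : Real.log 3 < Real.log 4 := Real.log_lt_log (by norm_num) (by norm_num)
    have h4 : Real.log 4 = 2 * Real.log 2 := by
      rw [show (4 : ℝ) = 2 ^ 2 by norm_num, Real.log_pow]; norm_num
    linarith
  have key : ∑ x ∈ U, 1 / (x : ℝ) ≤ (4 * C + 4) * (H + L + 1) := by
    rcases U.eq_empty_or_nonempty with h0 | ⟨x0, hx0⟩
    · rw [h0, Finset.sum_empty]; positivity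
    -- bounds
    set a : ℝ := Real.exp (k1 * Real.log 2 - (o1 + L) * Real.log 3 - C) with ha
    set b : ℝ := Real.exp ((k1 + H) * Real.log 2 - o1 * Real.log 3 + C) with hb
    have hbd : ∀ x ∈ U, a ≤ (x : ℝ) ∧ (x : ℝ) ≤ b ∧ 1 ≤ x := by
      intro x hx
      obtain ⟨p, hp, hxp⟩ := Finset.mem_biUnion.1 hx
      have hx' := (hmem p x).1 hxp
      rw [hT, Finset.mem_product, Finset.mem_Ico, Finset.mem_Ico] at hp
      obtain ⟨⟨hp1, hp2⟩, hp3, hp4⟩ := hp
      have hx0 : (0 : ℝ) < x := by exact_mod_cast hx'.1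
      have q1 : (k1 : ℝ) ≤ p.1 := by exact_mod_cast hp1
      have q2 : (p.1 : ℝ) ≤ k1 + H := by exact_mod_cast hp2.le
      have q3 : (o1 : ℝ) ≤ p.2 := by exact_mod_cast hp3
      have q4 : (p.2 : ℝ) ≤ o1 + L := by exact_mod_cast hp4.le
      have l1 := (Real.log_le_log_iff hx0 (Yb_pos C p.1 p.2)).2 (le_Yb hC hx')
      have l2 := (Real.log_le_log_iff (Yb_pos (-C) p.1 p.2) hx0).2 (ge_Yb hC hx')
      rw [log_Yb] at l1 l2
      have r1 := mul_le_mul_of_nonneg_right q1 hlog2.le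
      have r2 := mul_le_mul_of_nonneg_right q2 hlog2.le
      have r3 := mul_le_mul_of_nonneg_right q3 hlog3.le
      have r4 := mul_le_mul_of_nonneg_right q4 hlog3.le
      refine ⟨?_, ?_, ?_⟩
      · rw [ha, ← Real.le_log_iff_exp_le hx0]
        linarith
      · rw [hb, ← Real.log_le_iff_le_exp hx0]
        linarith
      · have := hx'.1
        omega
    have hx0' := hbd x0 hx0
    have hx1 : (1 : ℝ) ≤ x0 := by exact_mod_cast hx0'.2.2
    have hb1 : 1 ≤ b := hx1.trans hx0'.2.1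
    have ha0 : 0 < a := Real.exp_pos _
    set m : ℕ := max 1 ⌈a⌉₊ with hm
    set N : ℕ := ⌊b⌋₊ + 1 with hN
    have hUb : ∀ x ∈ U, (m : ℤ) ≤ x ∧ x < N := by
      intro x hx
      obtain ⟨h2, h3, h4⟩ := hbd x hx
      have hxn : (x : ℤ) = (x.toNat : ℤ) := (Int.toNat_of_nonneg (by omega)).symm
      have h5 : ⌈a⌉₊ ≤ x.toNat := by
        rw [Nat.ceil_le]
        have : (x : ℝ) = (x.toNat : ℝ) := by exact_mod_cast hxn
        linarith
      have h6 : x.toNat ≤ ⌊b⌋₊ := by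
        rw [Nat.le_floor_iff (by linarith)]
        have : (x : ℝ) = (x.toNat : ℝ) := by exact_mod_cast hxn
        linarith
      constructor
      · rw [hm]; push_cast; omega
      · rw [hN]; omega
    have hmN : m ≤ N := by
      have := hUb x0 hx0
      omega
    refine (harm_set U m N (le_max_left _ _) hmN hUb).trans ?_
    have hNb : (N : ℝ) ≤ 2 * b := by
      rw [hN]; push_cast
      have := Nat.floor_le (show 0 ≤ b by linarith)
      linarith
    have hN0 : (0 : ℝ) < N := by rw [hN]; positivity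
    have l1 : Real.log N ≤ Real.log 2 + Real.log b := by
      rw [← Real.log_mul (by norm_num) (by positivity)]
      exact Real.log_le_log hN0 hNb
    have l2 : Real.log a ≤ Real.log m := by
      apply Real.log_le_log ha0
      rw [hm]
      calc a ≤ (⌈a⌉₊ : ℝ) := Nat.le_ceil a
        _ ≤ _ := by exact_mod_cast le_max_right _ _
    have l3 : Real.log b - Real.log a = H * Real.log 2 + L * Real.log 3 + 2 * C := by
      rw [ha, hb, Real.log_exp, Real.log_exp]; ring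
    have n1 : (H : ℝ) * Real.log 2 ≤ H := by
      have := mul_le_mul_of_nonneg_left hlog2'.le (Nat.cast_nonneg (α := ℝ) H); linarith
    have n2 : (L : ℝ) * Real.log 3 ≤ 2 * L := by
      have := mul_le_mul_of_nonneg_left hlog3'.le (Nat.cast_nonneg (α := ℝ) L); linarith
    have hH0 : (0 : ℝ) ≤ H := Nat.cast_nonneg H
    have hL0 : (0 : ℝ) ≤ L := Nat.cast_nonneg L
    have n3 : 0 ≤ C * (H + L) := by positivity
    nlinarith
  calc Real.exp C * ∑ x ∈ U, 1 / (x : ℝ) ≤ Real.exp C * ((4 * C + 4) * (H + L + 1)) :=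
        mul_le_mul_of_nonneg_left key hexp.le
    _ = _ := by ring

/-! ### residue classes modulo 3 -/

theorem wc_add (S : Set ℤ) {a b c : ℝ} (hab : a ≤ b) (hbc : b ≤ c) (q r : ℤ) :
    (wc S a c q r).card = (wc S a b q r).card + (wc S b c q r).card := by
  classical
  rw [← Finset.card_union_of_disjoint]
  · congr 1
    ext x
    rw [Finset.mem_union, mem_wc, mem_wc, mem_wc]
    constructor
    · rintro ⟨⟨h1, h2⟩, h3⟩
      rcases lt_or_ge (x : ℝ) b with h | h
      · left; exact ⟨⟨h1, h⟩, h3⟩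
      · right; exact ⟨⟨h, h2⟩, h3⟩
    · rintro (⟨⟨h1, h2⟩, h3⟩ | ⟨⟨h1, h2⟩, h3⟩)
      · exact ⟨⟨h1, by linarith⟩, h3⟩
      · exact ⟨⟨by linarith, h2⟩, h3⟩
  · rw [Finset.disjoint_left]
    intro x hx hx'
    rw [mem_wc] at hx hx'
    linarith [hx.1.2, hx'.1.1]

theorem equi_sum {d : ℤ} (hd : Odd d) (hd3 : IsCoprime d 3) {R : Set ℤ} (hR : FC d R) (hRs : SpW R) :
    ∃ K : ℝ, 0 < K ∧ ∀ S : ℤ → ℤ → Set ℤ, GF d R S → ∀ X : ℝ, 2 ≤ X →
      ∀ k o c c' : ℤ, ((wc (S k o) 1 X 3 c).card : ℝ)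
        ≤ (wc (S k o) 1 X 3 c').card + K / (Real.log X) ^ 2 * X := by
  obtain ⟨K, hK, hE⟩ := equi_allG hd hd3 hR hRs
  refine ⟨1002 ^ 2 + 2 * K, by positivity, fun S hS => ?_⟩
  have main : ∀ n : ℕ, ∀ X : ℝ, 2 ≤ X → X ≤ Real.exp 1002 * 2 ^ n → ∀ k o c c' : ℤ,
      ((wc (S k o) 1 X 3 c).card : ℝ)
        ≤ (wc (S k o) 1 X 3 c').card + (1002 ^ 2 + 2 * K) / (Real.log X) ^ 2 * X := by
    have base : ∀ X : ℝ, 2 ≤ X → X ≤ Real.exp 1002 → ∀ k o c c' : ℤ,
      ((wc (S k o) 1 X 3 c).card : ℝ)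
        ≤ (wc (S k o) 1 X 3 c').card + (1002 ^ 2 + 2 * K) / (Real.log X) ^ 2 * X := by
      intro X hX hX2 k o c c'
      have h1 := wc_card_le (S k o) (show (1 : ℝ) ≤ X by linarith) (q := 3) (by norm_num) c
      have h2 : (0 : ℝ) ≤ (wc (S k o) 1 X 3 c').card := Nat.cast_nonneg _
      have h3 : 0 < Real.log X := Real.log_pos (by linarith)
      have h4 : Real.log X ≤ 1002 := by
        rw [Real.log_le_iff_le_exp (by linarith)]; exact hX2
      have h5 : 1 ≤ (1002 ^ 2 + 2 * K) / (Real.log X) ^ 2 := by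
        rw [le_div_iff₀ (by positivity), one_mul]
        nlinarith
      have h6 := mul_le_mul_of_nonneg_right h5 (show 0 ≤ X by linarith)
      push_cast at h1
      linarith
    intro n
    induction n with
    | zero => intro X hX hX2; rw [pow_zero, mul_one] at hX2; exact base X hX hX2
    | succ n ih =>
      intro X hX hX2 k o c c'
      rcases le_or_gt X (Real.exp 1002) with h | h
      · exact base X hX h k o c c'
      have hX0 : 0 < X := by linarith
      have hlog : 1002 < Real.log X := by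
        rw [Real.lt_log_iff_exp_lt hX0]; exact h
      have hlA : Real.log (X / 2) = Real.log X - Real.log 2 :=
        Real.log_div hX0.ne' (by norm_num)
      have hlog2 : Real.log 2 < 1 := by have := Real.log_two_lt_d9; linarith
      have hlog2p : 0 < Real.log 2 := Real.log_pos (by norm_num)
      have hX4 : 4 ≤ X := by
        have := Real.add_one_le_exp (1002 : ℝ)
        linarith
      have i1 := ih (X / 2) (by linarith) (by rw [pow_succ] at hX2; linarith) k o c c'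
      have i2 := hE S hS (X / 2) (by linarith) (by linarith) k o c c'
      rw [show 2 * (X / 2) = X by ring] at i2
      have e1 := wc_add (S k o) (show (1 : ℝ) ≤ X / 2 by linarith) (show X / 2 ≤ X by linarith) 3 c
      have e2 := wc_add (S k o) (show (1 : ℝ) ≤ X / 2 by linarith) (show X / 2 ≤ X by linarith) 3 c'
      rw [e1, e2]
      push_cast
      have hlA1 : 1001 < Real.log (X / 2) := by linarith
      -- 1/(log (X/2))^2 ≤ (1.01)/(log X)^2
      have hr : 1 / (Real.log (X / 2)) ^ 2 ≤ (101 / 100) / (Real.log X) ^ 2 := by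
        rw [div_le_div_iff₀ (by positivity) (by positivity)]
        have : Real.log X ≤ Real.log (X / 2) + 1 := by linarith
        nlinarith
      have hs : (1002 ^ 2 + 2 * K) / (Real.log (X / 2)) ^ 2 * (X / 2) + K / (Real.log (X / 2)) ^ 2 * (X / 2)
          ≤ (1002 ^ 2 + 2 * K) / (Real.log X) ^ 2 * X := by
        have t1 : (1002 ^ 2 + 2 * K) / (Real.log (X / 2)) ^ 2 * (X / 2) +
            K / (Real.log (X / 2)) ^ 2 * (X / 2) =
            ((1002 ^ 2 + 3 * K) * (X / 2)) * (1 / (Real.log (X / 2)) ^ 2) := by ring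
        have t2 : (1002 ^ 2 + 2 * K) / (Real.log X) ^ 2 * X =
            ((1002 ^ 2 + 2 * K) * X * (100 / 101)) * ((101 / 100) / (Real.log X) ^ 2) := by ring
        rw [t1, t2]
        apply mul_le_mul _ hr (by positivity) (by positivity)
        have : 0 < K * X := by positivity
        nlinarith
      linarith
  intro X hX k o c c'
  obtain ⟨n, hn⟩ := pow_unbounded_of_one_lt X (show (1 : ℝ) < 2 by norm_num)
  refine main n X hX ?_ k o c c'
  have : (1 : ℝ) ≤ Real.exp 1002 := Real.one_le_exp (by norm_num)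
  have h2 : (0 : ℝ) < 2 ^ n := by positivity
  nlinarith

theorem wc_three (S : Set ℤ) (a b : ℝ) (c : ℤ) :
    (wc S a b 1 0).card = (wc S a b 3 c).card + (wc S a b 3 (c + 1)).card +
      (wc S a b 3 (c + 2)).card := by
  classical
  rw [← Finset.card_union_of_disjoint, ← Finset.card_union_of_disjoint]
  · congr 1
    ext x
    rw [Finset.mem_union, Finset.mem_union, mem_wc, mem_wc, mem_wc, mem_wc]
    constructor
    · rintro ⟨h1, h2, _⟩
      have : (3 : ℤ) ∣ x - c ∨ (3 : ℤ) ∣ x - (c + 1) ∨ (3 : ℤ) ∣ x - (c + 2) := by omega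
      rcases this with h | h | h
      · left; left; exact ⟨h1, h2, h⟩
      · left; right; exact ⟨h1, h2, h⟩
      · right; exact ⟨h1, h2, h⟩
    · rintro ((⟨h1, h2, _⟩ | ⟨h1, h2, _⟩) | ⟨h1, h2, _⟩) <;> exact ⟨h1, h2, one_dvd _⟩
  · rw [Finset.disjoint_left]
    intro x hx hx'
    rw [Finset.mem_union, mem_wc, mem_wc] at hx
    rw [mem_wc] at hx'
    rcases hx with hx | hx
    · have := hx.2.2; have := hx'.2.2; omega
    · have := hx.2.2; have := hx'.2.2; omega
  · rw [Finset.disjoint_left]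
    intro x hx hx'
    rw [mem_wc] at hx hx'
    have := hx.2.2; have := hx'.2.2; omega

/-! ### one step -/

section
variable {d : ℤ} {F : Finset ℤ} {f : ℤ} {C : ℝ}
  (hC : ∀ (x : ℤ) (j : ℕ), x ≠ 0 → Hit d F f x j →
      |Real.log (x : ℝ) + od d j x * Real.log 3 - j * Real.log 2| ≤ C)
include hC

theorem NN_card (k : ℕ) (o : ℤ) : NN d F f k o = ((A_fin hC k o).toFinset.card : ℝ) := by
  unfold NN
  exact_mod_cast Set.ncard_eq_toFinset_card _ (A_fin hC k o)

theorem A_wc (k : ℕ) (o : ℤ) {X : ℝ} (hX : Yb C k o < X) :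
    (A_fin hC k o).toFinset = wc (SF d F f k o) 1 X 1 0 := by
  ext x
  rw [Set.Finite.mem_toFinset, mem_wc]
  constructor
  · intro hx
    have h1 := le_Yb hC hx
    have h2 : (1 : ℤ) ≤ x := by have := hx.1; omega
    exact ⟨⟨by exact_mod_cast h2, by linarith⟩, hx.2, one_dvd _⟩
  · rintro ⟨⟨h1, _⟩, h2, _⟩
    have : (1 : ℤ) ≤ x := by exact_mod_cast h1
    exact ⟨by omega, h2⟩

theorem even_part (k : ℕ) (o : ℤ) :
    |(((A_fin hC (k + 1) o).toFinset.filter (fun x => x % 2 = 0)).card : ℝ) - NN d F f k o| ≤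
      F.card := by
  classical
  have h1 : (A_fin hC (k + 1) o).toFinset.filter (fun x => x % 2 = 0) ⊆
      (A_fin hC k o).toFinset.image (fun y => 2 * y) := by
    intro x hx
    rw [Finset.mem_filter, Set.Finite.mem_toFinset] at hx
    obtain ⟨⟨hx0, hx1⟩, hx2⟩ := hx
    rw [SF_succ, if_pos hx2, sub_zero] at hx1
    have hT : Td d x = x / 2 := by unfold Td; rw [if_pos hx2]
    rw [hT] at hx1
    refine Finset.mem_image.2 ⟨x / 2, ?_, by omega⟩
    rw [Set.Finite.mem_toFinset]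
    exact ⟨by omega, hx1.2⟩
  have h2 : (A_fin hC k o).toFinset.image (fun y => 2 * y) ⊆
      (A_fin hC (k + 1) o).toFinset.filter (fun x => x % 2 = 0) ∪ F := by
    intro x hx
    obtain ⟨y, hy, rfl⟩ := Finset.mem_image.1 hx
    rw [Set.Finite.mem_toFinset] at hy
    by_cases hF : 2 * y ∈ F
    · exact Finset.mem_union_right _ hF
    · apply Finset.mem_union_left
      have he : (2 * y) % 2 = 0 := by omega
      rw [Finset.mem_filter, Set.Finite.mem_toFinset]
      refine ⟨⟨by have := hy.1; omega, ?_⟩, he⟩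
      rw [SF_succ, if_pos he, sub_zero]
      have hT : Td d (2 * y) = y := by unfold Td; rw [if_pos he]; omega
      rw [hT]
      exact ⟨hF, hy.2⟩
  have hinj : ((A_fin hC k o).toFinset.image (fun y => 2 * y)).card =
      (A_fin hC k o).toFinset.card := Finset.card_image_of_injective _ (fun a b h => by
        omega)
  have c1 := Finset.card_le_card h1
  have c2 := (Finset.card_le_card h2).trans (Finset.card_union_le _ _)
  rw [hinj] at c1 c2
  rw [NN_card hC k o, abs_le]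
  have c1' : ((((A_fin hC (k + 1) o).toFinset.filter (fun x => x % 2 = 0)).card : ℕ) : ℝ) ≤
    (A_fin hC k o).toFinset.card := by exact_mod_cast c1
  have c2' : ((A_fin hC k o).toFinset.card : ℝ) ≤
    (((A_fin hC (k + 1) o).toFinset.filter (fun x => x % 2 = 0)).card : ℝ) + F.card := by
    exact_mod_cast c2
  constructor <;> linarith [(Nat.cast_nonneg F.card : (0 : ℝ) ≤ F.card)]

theorem odd_part (hd : Odd d) (k : ℕ) (o : ℤ) {X : ℝ} (hX : Yb C k (o - 1) < X) :
    |(((A_fin hC (k + 1) o).toFinset.filter (fun x => ¬ x % 2 = 0)).card : ℝ) -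
      (wc (SF d F f k (o - 1)) 1 X 3 (2 * d)).card| ≤ F.card + |d| + 1 := by
  classical
  set O := (A_fin hC (k + 1) o).toFinset.filter (fun x => ¬ x % 2 = 0) with hO
  set B := wc (SF d F f k (o - 1)) 1 X 3 (2 * d) with hB
  have hd2 : d % 2 = 1 := Int.odd_iff.1 hd
  have hmemB : ∀ y, y ∈ B ↔ (1 ≤ y ∧ y ∈ SF d F f k (o - 1) ∧ (3 : ℤ) ∣ y - 2 * d) := by
    intro y
    rw [hB, mem_wc]
    constructor
    · rintro ⟨⟨h1, _⟩, h2, h3⟩
      exact ⟨by exact_mod_cast h1, h2, h3⟩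
    · rintro ⟨h1, h2, h3⟩
      have := le_Yb hC (show y ∈ A d F f k (o - 1) from ⟨by omega, h2⟩)
      exact ⟨⟨by exact_mod_cast h1, by linarith⟩, h2, h3⟩
  have hmemO : ∀ x, x ∈ O ↔ (0 < x ∧ x ∉ F ∧ (3 * x + d) / 2 ∈ SF d F f k (o - 1) ∧ ¬ x % 2 = 0) := by
    intro x
    rw [hO, Finset.mem_filter, Set.Finite.mem_toFinset]
    constructor
    · rintro ⟨⟨h1, h2⟩, h3⟩
      rw [SF_succ, if_neg h3] at h2
      have hT : Td d x = (3 * x + d) / 2 := by unfold Td; rw [if_neg h3]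
      rw [hT] at h2
      exact ⟨h1, h2.1, h2.2, h3⟩
    · rintro ⟨h1, h2, h3, h4⟩
      refine ⟨⟨h1, ?_⟩, h4⟩
      rw [SF_succ, if_neg h4]
      have hT : Td d x = (3 * x + d) / 2 := by unfold Td; rw [if_neg h4]
      rw [hT]
      exact ⟨h2, h3⟩
  have h1 : O.image (fun x => (3 * x + d) / 2) ⊆ B ∪ Finset.Icc (-|d|) 0 := by
    intro y hy
    obtain ⟨x, hx, rfl⟩ := Finset.mem_image.1 hy
    rw [hmemO] at hx
    obtain ⟨g1, g2, g3, g4⟩ := hx
    by_cases hpos : 1 ≤ (3 * x + d) / 2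
    · apply Finset.mem_union_left
      rw [hmemB]
      exact ⟨hpos, g3, by omega⟩
    · apply Finset.mem_union_right
      rw [Finset.mem_Icc]
      have := neg_abs_le d
      omega
  have hinj : (O.image (fun x => (3 * x + d) / 2)).card = O.card := by
    apply Finset.card_image_of_injOn
    intro x hx y hy hxy
    have hx' := (hmemO x).1 (by exact_mod_cast hx)
    have hy' := (hmemO y).1 (by exact_mod_cast hy)
    have h3 := hx'.2.2.2
    have h4 := hy'.2.2.2
    simp only at hxy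
    omega
  have h2 : B ⊆ (O ∪ F).image (fun x => (3 * x + d) / 2) ∪ Finset.Icc 0 |d| := by
    intro y hy
    rw [hmemB] at hy
    obtain ⟨g1, g2, g3⟩ := hy
    by_cases hpos : 2 * y ≤ d
    · apply Finset.mem_union_right
      rw [Finset.mem_Icc]
      have := le_abs_self d
      omega
    · apply Finset.mem_union_left
      have e1 : (3 : ℤ) ∣ 2 * y - d := by omega
      obtain ⟨x, hx⟩ := e1
      have hyx : (3 * x + d) / 2 = y := by omega
      refine Finset.mem_image.2 ⟨x, ?_, hyx⟩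
      by_cases hF : x ∈ F
      · exact Finset.mem_union_right _ hF
      · apply Finset.mem_union_left
        rw [hmemO, hyx]
        exact ⟨by omega, hF, g2, by omega⟩
  have c1 := (Finset.card_le_card h1).trans (Finset.card_union_le _ _)
  have c2 := (Finset.card_le_card h2).trans (Finset.card_union_le _ _)
  rw [hinj, Int.card_Icc] at c1
  rw [Int.card_Icc] at c2
  have c3 : ((O ∪ F).image (fun x => (3 * x + d) / 2)).card ≤ O.card + F.card :=
    Finset.card_image_le.trans (Finset.card_union_le _ _)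
  have c1' : (O.card : ℤ) ≤ B.card + (|d| + 1) := by
    have := abs_nonneg d
    omega
  have c2' : (B.card : ℤ) ≤ O.card + F.card + (|d| + 1) := by
    have := abs_nonneg d
    omega
  have c1'' : (O.card : ℝ) ≤ B.card + (|d| + 1) := by exact_mod_cast c1'
  have c2'' : (B.card : ℝ) ≤ O.card + F.card + (|d| + 1) := by exact_mod_cast c2'
  have hF0 : (0 : ℝ) ≤ F.card := Nat.cast_nonneg _
  rw [abs_le]
  constructor <;> linarith

theorem NN_step (hd : Odd d) {K : ℝ}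
    (hE : ∀ X : ℝ, 2 ≤ X →
      ∀ k o c c' : ℤ, ((wc (SF d F f k o) 1 X 3 c).card : ℝ)
        ≤ (wc (SF d F f k o) 1 X 3 c').card + K / (Real.log X) ^ 2 * X)
    (k : ℕ) (o : ℤ) {X : ℝ} (hX : Yb C k (o - 1) < X) (hX2 : 2 ≤ X) :
    |NN d F f (k + 1) o - (NN d F f k o + NN d F f k (o - 1) / 3)| ≤
      2 * F.card + |d| + 1 + K / (Real.log X) ^ 2 * X := by
  classical
  have e0 : NN d F f (k + 1) o =
      (((A_fin hC (k + 1) o).toFinset.filter (fun x => x % 2 = 0)).card : ℝ) +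
      ((A_fin hC (k + 1) o).toFinset.filter (fun x => ¬ x % 2 = 0)).card := by
    rw [NN_card hC (k + 1) o]
    exact_mod_cast (Finset.card_filter_add_card_filter_not (s := (A_fin hC (k + 1) o).toFinset)
      (fun x => x % 2 = 0)).symm
  have e1 : NN d F f k (o - 1) = ((wc (SF d F f k (o - 1)) 1 X 3 (2 * d)).card : ℝ) +
      (wc (SF d F f k (o - 1)) 1 X 3 (2 * d + 1)).card +
      (wc (SF d F f k (o - 1)) 1 X 3 (2 * d + 2)).card := by
    rw [NN_card hC k (o - 1), A_wc hC k (o - 1) hX]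
    exact_mod_cast wc_three _ _ _ _
  have h1 := abs_le.1 (even_part hC k o)
  have h2 := abs_le.1 (odd_part hC hd k o hX)
  have i1 := hE X hX2 k (o - 1) (2 * d) (2 * d + 1)
  have i2 := hE X hX2 k (o - 1) (2 * d + 1) (2 * d)
  have i3 := hE X hX2 k (o - 1) (2 * d) (2 * d + 2)
  have i4 := hE X hX2 k (o - 1) (2 * d + 2) (2 * d)
  have hE0 : 0 ≤ K / (Real.log X) ^ 2 * X := by linarith
  rw [e0, e1, abs_le]
  constructor <;> linarith [h1.1, h1.2, h2.1, h2.2]

end

/-! ### analysis -/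

theorem log_ratio (k : ℕ) (o : ℤ) (ho : |2 * (o : ℝ) - k| ≤ (k : ℝ) / 10) :
    (k : ℝ) / 15 ≤ k * Real.log 2 - o * Real.log 3 := by
  have h1 := (abs_le.1 ho).2
  have hlog2 := Real.log_two_gt_d9
  have hlog3 : 0 < Real.log 3 := Real.log_pos (by norm_num)
  have h3 : 11 * Real.log 3 < 18 * Real.log 2 := by
    have : Real.log ((3 : ℝ) ^ 11) < Real.log ((2 : ℝ) ^ 18) :=
      Real.log_lt_log (by norm_num) (by norm_num)
    rw [Real.log_pow, Real.log_pow] at this
    push_cast at this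
    exact this
  have hk : (0 : ℝ) ≤ k := Nat.cast_nonneg k
  have h4 : (o : ℝ) ≤ 11 / 20 * k := by linarith
  have h5 := mul_le_mul_of_nonneg_right h4 hlog3.le
  have h6 : 11 / 20 * (k : ℝ) * Real.log 3 ≤ k * (18 / 20 * Real.log 2) := by nlinarith
  have h7 : (k : ℝ) / 15 ≤ k * (Real.log 2 / 10) := by nlinarith
  linarith

theorem final_est {C K G : ℝ} (hC : 0 ≤ C) (hK : 0 < K) (hG : 0 ≤ G) (k : ℕ) (o : ℤ) (hk : 1 ≤ k)
    (ho : |2 * (o : ℝ) - k| ≤ (k : ℝ) / 10) {n1 n2 n3 : ℝ}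
    (h : ∀ X : ℝ, Yb C k (o - 1) < X → 2 ≤ X → |n1 - (n2 + n3 / 3)| ≤ G + K / (Real.log X) ^ 2 * X) :
    |n1 * (3 : ℝ) ^ o / 2 ^ (k + 1) - (n2 * (3 : ℝ) ^ o / 2 ^ k + n3 * (3 : ℝ) ^ (o - 1) / 2 ^ k) / 2| ≤
      (450 * G + 225 * K * (3 * Real.exp C + 1)) / (k : ℝ) ^ 2 := by
  set r : ℝ := (2 : ℝ) ^ k / (3 : ℝ) ^ o with hr
  have hr0 : 0 < r := by rw [hr]; positivity
  have hk0 : (0 : ℝ) < k := by exact_mod_cast hk
  have hlr : (k : ℝ) / 15 ≤ Real.log r := by
    rw [hr, Real.log_div (by positivity) (by positivity), Real.log_pow, Real.log_zpow]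
    exact log_ratio k o ho
  have hr1 : Real.exp ((k : ℝ) / 15) ≤ r := (Real.le_log_iff_exp_le hr0).1 hlr
  have hr2 : (k : ℝ) ^ 2 / 450 ≤ r := by
    have := Real.quadratic_le_exp_of_nonneg (show 0 ≤ (k : ℝ) / 15 by positivity)
    have h2 : 0 ≤ (k : ℝ) / 15 := by positivity
    nlinarith
  have hr3 : 1 ≤ r := (Real.one_le_exp (by positivity)).trans hr1
  have hexp : 1 ≤ Real.exp C := Real.one_le_exp hC
  have hYb : Yb C k (o - 1) = 3 * Real.exp C * r := by
    unfold Yb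
    rw [hr, zpow_sub_one₀ (by norm_num : (3 : ℝ) ≠ 0)]
    field_simp
  set X : ℝ := 3 * Real.exp C * r + 1 with hX
  have h1 := h X (by rw [hYb, hX]; linarith) (by rw [hX]; nlinarith)
  have hXr : r ≤ X := by rw [hX]; nlinarith
  have hXl : (k : ℝ) / 15 ≤ Real.log X := hlr.trans (Real.log_le_log hr0 hXr)
  have hXu : X ≤ (3 * Real.exp C + 1) * r := by rw [hX]; nlinarith
  have hk15 : 0 < (k : ℝ) / 15 := by positivity
  have hlX : 0 < Real.log X := lt_of_lt_of_le hk15 hXl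
  have h2 : K / (Real.log X) ^ 2 * X ≤ K * 225 / (k : ℝ) ^ 2 * ((3 * Real.exp C + 1) * r) := by
    have h3 : K / (Real.log X) ^ 2 ≤ K * 225 / (k : ℝ) ^ 2 := by
      rw [div_le_div_iff₀ (by positivity) (by positivity)]
      have : ((k : ℝ) / 15) ^ 2 ≤ (Real.log X) ^ 2 := pow_le_pow_left₀ hk15.le hXl 2
      nlinarith
    exact mul_le_mul h3 hXu (by linarith) (by positivity)
  have h4 : G ≤ 450 * G / (k : ℝ) ^ 2 * r := by
    have : G * ((k : ℝ) ^ 2 / 450) ≤ G * r := mul_le_mul_of_nonneg_left hr2 hG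
    have e : 450 * G / (k : ℝ) ^ 2 * r = (G * r) * (450 / (k : ℝ) ^ 2) := by ring
    rw [e]
    calc G = (G * ((k : ℝ) ^ 2 / 450)) * (450 / (k : ℝ) ^ 2) := by field_simp
      _ ≤ _ := mul_le_mul_of_nonneg_right this (by positivity)
  have e1 : n1 * (3 : ℝ) ^ o / 2 ^ (k + 1) -
      (n2 * (3 : ℝ) ^ o / 2 ^ k + n3 * (3 : ℝ) ^ (o - 1) / 2 ^ k) / 2 =
      (n1 - (n2 + n3 / 3)) * (1 / (2 * r)) := by
    rw [hr, zpow_sub_one₀ (by norm_num : (3 : ℝ) ≠ 0), pow_succ]
    field_simp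
  rw [e1, abs_mul, abs_of_pos (show 0 < 1 / (2 * r) by positivity)]
  have h5 : |n1 - (n2 + n3 / 3)| ≤
      (450 * G + 225 * K * (3 * Real.exp C + 1)) / (k : ℝ) ^ 2 * r := by
    refine h1.trans ?_
    have e2 : (450 * G + 225 * K * (3 * Real.exp C + 1)) / (k : ℝ) ^ 2 * r =
      450 * G / (k : ℝ) ^ 2 * r + K * 225 / (k : ℝ) ^ 2 * ((3 * Real.exp C + 1) * r) := by ring
    rw [e2]
    linarith
  have hW : 0 ≤ (450 * G + 225 * K * (3 * Real.exp C + 1)) / (k : ℝ) ^ 2 := by positivity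
  calc |n1 - (n2 + n3 / 3)| * (1 / (2 * r)) ≤
      ((450 * G + 225 * K * (3 * Real.exp C + 1)) / (k : ℝ) ^ 2 * r) * (1 / (2 * r)) :=
        mul_le_mul_of_nonneg_right h5 (by positivity)
    _ = ((450 * G + 225 * K * (3 * Real.exp C + 1)) / (k : ℝ) ^ 2) / 2 := by field_simp
    _ ≤ _ := by linarith

end C2aux

open C2aux in
theorem MM_rec {d : ℤ} (hd : Odd d) (hd3 : IsCoprime d 3) (F : Finset ℤ) (f : ℤ) :
    ∃ C : ℝ, 0 < C ∧ Rec C (MM d F f) := by
  obtain ⟨C, hC0, hC⟩ := bres hd hd3 F f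
  obtain ⟨K, hK, hE⟩ := equi_sum hd hd3 (RF_FC d F) (RF_SpW hd hd3 F)
  have hE' := hE _ (GF_SF d F f)
  set G : ℝ := 2 * F.card + |d| + 1 with hG
  have hG0 : 0 ≤ G := by rw [hG]; positivity
  set C1 := Real.exp C with hC1
  set C2 := 450 * G + 225 * K * (3 * Real.exp C + 1) with hC2
  set C3 := Real.exp C * (4 * C + 4) with hC3
  have hC1' : 0 < C1 := Real.exp_pos C
  have hC2' : 0 ≤ C2 := by rw [hC2]; positivity
  have hC3' : 0 ≤ C3 := by rw [hC3]; positivity
  refine ⟨C1 + C2 + C3, by linarith, ?_, ?_, ?_⟩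
  · intro k o
    exact ⟨MM_nonneg d F f k o, (MM_le hC k o).trans (by linarith)⟩
  · intro k o hk ho
    have h1 := final_est hC0.le hK hG0 k o hk ho (n1 := NN d F f (k + 1) o) (n2 := NN d F f k o)
      (n3 := NN d F f k (o - 1)) (fun X hX hX2 => NN_step hC hd hE' k o hX hX2)
    refine h1.trans ?_
    have : (0 : ℝ) < (k : ℝ) ^ 2 := by positivity
    exact div_le_div_of_nonneg_right (by linarith) this.le
  · intro k1 H o1 L
    refine (block hC0.le hC k1 H o1 L).trans ?_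
    have : (0 : ℝ) ≤ (H : ℝ) + L + 1 := by positivity
    exact mul_le_mul_of_nonneg_right (by linarith) this

end Pool.Agent.H499R2.LT
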