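import Mathlib

/-! Task LT-D1: binomial coefficients. -/

set_option autoImplicit false

namespace Pool.Agent.H499R2.LT

open Finset Filter Topology

theorem cb_sq (p : ℕ) : ((Nat.centralBinom p : ℕ) : ℝ) ^ 2 * (2 * p + 1) ≤ 16 ^ p := by
  induction p with
  | zero => simp
  | succ p ih =>
    have h1 : ((p : ℝ) + 1) * (Nat.centralBinom (p + 1) : ℝ) = 2 * (2 * p + 1) * (Nat.centralBinom p : ℝ) := by
      exact_mod_cast Nat.succ_mul_centralBinom_succ p
    have hp : (0 : ℝ) ≤ p := Nat.cast_nonneg p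
    have h2 : ((p : ℝ) + 1) ^ 2 * ((Nat.centralBinom (p + 1) : ℝ) ^ 2 * (2 * ((p : ℝ) + 1) + 1)) ≤
        ((p : ℝ) + 1) ^ 2 * (16 ^ p * 16) := by
      calc ((p : ℝ) + 1) ^ 2 * ((Nat.centralBinom (p + 1) : ℝ) ^ 2 * (2 * ((p : ℝ) + 1) + 1))
          = (((p : ℝ) + 1) * (Nat.centralBinom (p + 1) : ℝ)) ^ 2 * (2 * ((p : ℝ) + 1) + 1) := by ring
        _ = ((Nat.centralBinom p : ℝ) ^ 2 * (2 * p + 1)) * (4 * (2 * p + 1) * (2 * p + 3)) := by
            rw [h1]; ring
        _ ≤ 16 ^ p * (4 * (2 * p + 1) * (2 * p + 3)) := by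
            apply mul_le_mul_of_nonneg_right ih; positivity
        _ ≤ 16 ^ p * (16 * ((p : ℝ) + 1) ^ 2) := by
            apply mul_le_mul_of_nonneg_left _ (by positivity)
            nlinarith
        _ = ((p : ℝ) + 1) ^ 2 * (16 ^ p * 16) := by ring
    have h3 := le_of_mul_le_mul_left h2 (by positivity)
    rw [pow_succ]
    push_cast
    exact h3

theorem cb_le (p : ℕ) : (Nat.centralBinom p : ℝ) / 2 ^ (2 * p) ≤ 1 / Real.sqrt (2 * p + 1) := by
  have hp : (0 : ℝ) ≤ p := Nat.cast_nonneg p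
  have hs : 0 < Real.sqrt (2 * p + 1) := Real.sqrt_pos.2 (by positivity)
  rw [div_le_div_iff₀ (by positivity) hs, one_mul]
  have h := cb_sq p
  have h1 : (2 : ℝ) ^ (2 * p) = Real.sqrt (16 ^ p) := by
    rw [show (16 : ℝ) ^ p = (2 ^ (2 * p)) ^ 2 by
      rw [← pow_mul, show (16 : ℝ) = 2 ^ 4 by norm_num, ← pow_mul]; congr 1; ring]
    rw [Real.sqrt_sq (by positivity)]
  rw [h1]
  apply Real.le_sqrt_of_sq_le
  rw [mul_pow, Real.sq_sqrt (by positivity)]
  exact h

theorem sup_aux (n j : ℕ) (hn : 1 ≤ n) : (n.choose j : ℝ) / 2 ^ n ≤ 1 / Real.sqrt n := by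
  obtain ⟨p, rfl | rfl⟩ := Nat.even_or_odd' n
  · have h1 : ((2 * p).choose j : ℝ) ≤ (Nat.centralBinom p : ℝ) := by
      exact_mod_cast Nat.choose_le_centralBinom j p
    have hp : 0 < Real.sqrt ((2 * p : ℕ) : ℝ) := Real.sqrt_pos.2 (by exact_mod_cast hn)
    calc ((2 * p).choose j : ℝ) / 2 ^ (2 * p) ≤ (Nat.centralBinom p : ℝ) / 2 ^ (2 * p) := by gcongr
      _ ≤ 1 / Real.sqrt (2 * p + 1) := cb_le p
      _ ≤ 1 / Real.sqrt ((2 * p : ℕ) : ℝ) := by
          apply one_div_le_one_div_of_le hp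
          apply Real.sqrt_le_sqrt; push_cast; linarith
  · have h1 : ((2 * p + 1).choose j : ℝ) ≤ 2 * (Nat.centralBinom p : ℝ) := by
      rcases j with _ | j
      · simp only [Nat.choose_zero_right, Nat.cast_one]
        have : (1 : ℝ) ≤ Nat.centralBinom p := by exact_mod_cast Nat.centralBinom_pos p
        linarith
      · rw [Nat.choose_succ_succ]
        have a : ((2 * p).choose j : ℝ) ≤ (Nat.centralBinom p : ℝ) := by
          exact_mod_cast Nat.choose_le_centralBinom j p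
        have b : ((2 * p).choose (j + 1) : ℝ) ≤ (Nat.centralBinom p : ℝ) := by
          exact_mod_cast Nat.choose_le_centralBinom (j + 1) p
        push_cast
        linarith
    calc ((2 * p + 1).choose j : ℝ) / 2 ^ (2 * p + 1) ≤ (2 * (Nat.centralBinom p : ℝ)) / 2 ^ (2 * p + 1) := by
          gcongr
      _ = (Nat.centralBinom p : ℝ) / 2 ^ (2 * p) := by
          rw [pow_succ]; field_simp
      _ ≤ 1 / Real.sqrt (2 * p + 1) := cb_le p
      _ = 1 / Real.sqrt ((2 * p + 1 : ℕ) : ℝ) := by push_cast; rfl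

theorem bin_sup : ∃ c : ℝ, 0 < c ∧ ∀ n : ℕ, 1 ≤ n → ∀ j : ℕ, (n.choose j : ℝ) / 2 ^ n ≤ c / Real.sqrt n :=
  ⟨1, one_pos, fun n hn j => sup_aux n j hn⟩

theorem gauss_aux (p : ℕ) (hp : 1 ≤ p) (u : ℕ) (hu : u ≤ p) :
    ((2 * p).choose (p + u) : ℝ) ≤ (Nat.centralBinom p : ℝ) * Real.exp (-(u : ℝ) ^ 2 / (2 * p)) := by
  have hp' : (0 : ℝ) < p := by exact_mod_cast hp
  induction u with
  | zero => simp [Nat.centralBinom]
  | succ u ih =>
    have ih := ih (by omega)
    have h1 : ((2 * p).choose (p + u + 1) : ℝ) * (p + u + 1) = ((2 * p).choose (p + u) : ℝ) * (p - u) := by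
      have h := Nat.choose_succ_right_eq (2 * p) (p + u)
      have h' : (((2 * p).choose (p + u + 1) * (p + u + 1) : ℕ) : ℝ) =
        (((2 * p).choose (p + u) * (2 * p - (p + u)) : ℕ) : ℝ) := by exact_mod_cast h
      rw [show 2 * p - (p + u) = p - u by omega] at h'
      push_cast [Nat.cast_sub (show u ≤ p by omega)] at h'
      exact h'
    have hu' : (u : ℝ) + 1 ≤ p := by exact_mod_cast hu
    have hu0 : (0 : ℝ) ≤ u := Nat.cast_nonneg u
    have h2 : ((2 * p).choose (p + u + 1) : ℝ) = ((2 * p).choose (p + u) : ℝ) * ((p - u) / (p + u + 1)) := by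
      have : (p : ℝ) + u + 1 ≠ 0 := by positivity
      field_simp
      exact h1
    have h3 : ((p : ℝ) - u) / (p + u + 1) ≤ Real.exp (-(2 * u + 1) / (2 * p)) := by
      have e : ((p : ℝ) - u) / (p + u + 1) = -(2 * u + 1) / (p + u + 1) + 1 := by
        have : (p : ℝ) + u + 1 ≠ 0 := by positivity
        field_simp
        ring
      rw [e]
      refine le_trans (Real.add_one_le_exp _) ?_
      apply Real.exp_le_exp.2
      rw [neg_div, neg_div, neg_le_neg_iff]
      apply div_le_div_of_nonneg_left (by positivity) (by positivity)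
      linarith
    have e2 : Real.exp (-((u + 1 : ℕ) : ℝ) ^ 2 / (2 * p)) =
        Real.exp (-(u : ℝ) ^ 2 / (2 * p)) * Real.exp (-(2 * u + 1) / (2 * p)) := by
      rw [← Real.exp_add]
      congr 1
      push_cast
      field_simp
      ring
    rw [← add_assoc, h2, e2, ← mul_assoc]
    have hnn : (0 : ℝ) ≤ ((p : ℝ) - u) / (p + u + 1) := by
      apply div_nonneg <;> linarith
    exact mul_le_mul ih h3 hnn (by positivity)

/-- Gaussian upper bound, for the numbers of steps `n = 2 p` -/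
theorem bin_gauss : ∃ c : ℝ, 0 < c ∧ ∀ p : ℕ, 1 ≤ p → ∀ j : ℕ,
    ((2 * p).choose j : ℝ) / 2 ^ (2 * p) ≤ c / Real.sqrt p * Real.exp (-((j : ℝ) - p) ^ 2 / (2 * p)) := by
  refine ⟨1, one_pos, fun p hp j => ?_⟩
  have hp' : (0 : ℝ) < p := by exact_mod_cast hp
  have hs : 0 < Real.sqrt p := Real.sqrt_pos.2 hp'
  have hc : (Nat.centralBinom p : ℝ) / 2 ^ (2 * p) ≤ 1 / Real.sqrt p := by
    refine (cb_le p).trans ?_
    apply one_div_le_one_div_of_le hs
    apply Real.sqrt_le_sqrt; linarith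
  by_cases hj : 2 * p < j
  · rw [Nat.choose_eq_zero_of_lt hj]
    simp only [Nat.cast_zero, zero_div]
    positivity
  · push Not at hj
    have key : ∃ u : ℕ, u ≤ p ∧ (2 * p).choose j = (2 * p).choose (p + u) ∧
        ((j : ℝ) - p) ^ 2 = (u : ℝ) ^ 2 := by
      rcases le_total p j with h | h
      · refine ⟨j - p, by omega, by rw [show p + (j - p) = j by omega], ?_⟩
        rw [Nat.cast_sub h]
      · refine ⟨p - j, by omega, ?_, ?_⟩
        · rw [← Nat.choose_symm hj]; congr 1; omega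
        · rw [Nat.cast_sub h]; ring
    obtain ⟨u, hu, e1, e2⟩ := key
    rw [e1, e2]
    calc ((2 * p).choose (p + u) : ℝ) / 2 ^ (2 * p) ≤
        (Nat.centralBinom p : ℝ) * Real.exp (-(u : ℝ) ^ 2 / (2 * p)) / 2 ^ (2 * p) := by
          gcongr
          exact gauss_aux p hp u hu
      _ = (Nat.centralBinom p : ℝ) / 2 ^ (2 * p) * Real.exp (-(u : ℝ) ^ 2 / (2 * p)) := by ring
      _ ≤ 1 / Real.sqrt p * Real.exp (-(u : ℝ) ^ 2 / (2 * p)) := by gcongr

/-- total variation of the binomial distribution -/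
theorem bin_var : ∃ c : ℝ, 0 < c ∧ ∀ n : ℕ, 1 ≤ n →
    ∑ j ∈ Finset.range (n + 2), |(n.choose j : ℝ) / 2 ^ n - (if j = 0 then 0 else (n.choose (j - 1) : ℝ) / 2 ^ n)|
      ≤ c / Real.sqrt n := by
  refine ⟨2, two_pos, fun n hn => ?_⟩
  set g : ℕ → ℝ := fun j => if j = 0 then 0 else (n.choose (j - 1) : ℝ) / 2 ^ n with hg
  have g1 : ∀ j, g (j + 1) = (n.choose j : ℝ) / 2 ^ n := fun j => by simp [hg]
  have g0 : g 0 = 0 := by simp [hg]
  have e1 : ∀ j, |(n.choose j : ℝ) / 2 ^ n - (if j = 0 then 0 else (n.choose (j - 1) : ℝ) / 2 ^ n)| =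
      |g (j + 1) - g j| := fun j => by rw [g1]
  simp only [e1]
  have up : ∀ j, j < n / 2 + 1 → |g (j + 1) - g j| = g (j + 1) - g j := by
    intro j hj
    apply abs_of_nonneg
    rcases j with _ | j
    · rw [g1, g0]; simp
    · rw [g1, g1]
      have h := Nat.choose_succ_right_eq n j
      have h2 : n.choose j ≤ n.choose (j + 1) := by
        have h3 : j + 1 ≤ n - j := by omega
        have h4 : n.choose j * (j + 1) ≤ n.choose (j + 1) * (j + 1) := by
          rw [h]; exact Nat.mul_le_mul_left _ h3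
        exact Nat.le_of_mul_le_mul_right h4 (by omega)
      have h5 : (n.choose j : ℝ) ≤ (n.choose (j + 1) : ℝ) := by exact_mod_cast h2
      rw [sub_nonneg]
      gcongr
  have dn : ∀ j, n / 2 + 1 ≤ j → |g (j + 1) - g j| = g j - g (j + 1) := by
    intro j hj
    rw [abs_sub_comm]
    apply abs_of_nonneg
    rcases j with _ | j
    · omega
    · rw [g1, g1]
      have h := Nat.choose_succ_right_eq n j
      have h2 : n.choose (j + 1) ≤ n.choose j := by
        have h3 : n - j ≤ j + 1 := by omega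
        have h4 : n.choose (j + 1) * (j + 1) ≤ n.choose j * (j + 1) := by
          rw [h]; exact Nat.mul_le_mul_left _ h3
        exact Nat.le_of_mul_le_mul_right h4 (by omega)
      have h5 : (n.choose (j + 1) : ℝ) ≤ (n.choose j : ℝ) := by exact_mod_cast h2
      rw [sub_nonneg]
      gcongr
  have hsplit := Finset.sum_range_add_sum_Ico (fun j => |g (j + 1) - g j|) (show n / 2 + 1 ≤ n + 2 by omega)
  rw [← hsplit, Finset.sum_congr rfl (fun j hj => up j (Finset.mem_range.1 hj)),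
    Finset.sum_congr rfl (fun j hj => dn j (Finset.mem_Ico.1 hj).1), Finset.sum_range_sub]
  have h6 : ∑ j ∈ Finset.Ico (n / 2 + 1) (n + 2), (g j - g (j + 1)) = g (n / 2 + 1) - g (n + 2) := by
    have := Finset.sum_Ico_sub g (show n / 2 + 1 ≤ n + 2 by omega)
    rw [← neg_inj, ← Finset.sum_neg_distrib]
    simp only [neg_sub]
    exact this
  rw [h6, g0, show g (n + 2) = 0 by rw [g1, Nat.choose_eq_zero_of_lt (by omega)]; simp, g1]
  have := sup_aux n (n / 2) hn
  have e3 : 2 / Real.sqrt n = 2 * (1 / Real.sqrt n) := by ring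
  rw [e3]
  linarith

end Pool.Agent.H499R2.LT
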