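import Pool.Agent.H33.G.R_seed8.H499R2.LT.Defs

/-! Project LT, task LT-D2. -/

set_option autoImplicit false

namespace Pool.Agent.H499R2.LT

open Pool.Agent.H320R2.PD Finset Filter Topology

open Pool.Agent.H499R2.ND hiding La Ea Me FC

open Pool.Agent.H499R2.CZ

open Pool.Agent.H319R2.Lln (mu)

namespace D2Aux

theorem pascal (i : ℕ) (a : ℕ → ℝ) :
    ∑ j ∈ Finset.range (i + 2), ((i + 1).choose j : ℝ) / 2 ^ (i + 1) * a j =
      ∑ j ∈ Finset.range (i + 1), (i.choose j : ℝ) / 2 ^ i * ((a j + a (j + 1)) / 2) := by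
  have h1 : ∑ j ∈ Finset.range (i + 2), ((i + 1).choose j : ℝ) * a j =
      ∑ j ∈ Finset.range (i + 1), (i.choose j : ℝ) * (a j + a (j + 1)) := by
    rw [Finset.sum_range_succ']
    have h2 : ∀ j, (((i + 1).choose (j + 1) : ℕ) : ℝ) * a (j + 1) =
        (i.choose j : ℝ) * a (j + 1) + (i.choose (j + 1) : ℝ) * a (j + 1) := by
      intro j
      rw [Nat.choose_succ_succ]
      push_cast
      ring
    rw [Finset.sum_congr rfl (fun j _ => h2 j), Finset.sum_add_distrib]
    have h3 : ∑ j ∈ Finset.range (i + 1), (i.choose (j + 1) : ℝ) * a (j + 1) +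
        (((i + 1).choose 0 : ℕ) : ℝ) * a 0 =
        ∑ j ∈ Finset.range (i + 1), (i.choose j : ℝ) * a j := by
      have h4 : ∑ j ∈ Finset.range (i + 2), (i.choose j : ℝ) * a j =
          ∑ j ∈ Finset.range (i + 1), (i.choose (j + 1) : ℝ) * a (j + 1) +
            (i.choose 0 : ℝ) * a 0 := Finset.sum_range_succ' _ _
      have h5 : ∑ j ∈ Finset.range (i + 2), (i.choose j : ℝ) * a j =
          ∑ j ∈ Finset.range (i + 1), (i.choose j : ℝ) * a j := by
        rw [Finset.sum_range_succ, Nat.choose_succ_self]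
        simp
      rw [← h5, h4]
      simp
    simp only [mul_add]
    rw [Finset.sum_add_distrib, add_assoc, h3]
    ring
  have h6 : ∀ j, ((i + 1).choose j : ℝ) / 2 ^ (i + 1) * a j =
      ((i + 1).choose j : ℝ) * a j * (1 / 2 ^ (i + 1)) := by
    intro j; ring
  have h7 : ∀ j, (i.choose j : ℝ) / 2 ^ i * ((a j + a (j + 1)) / 2) =
      (i.choose j : ℝ) * (a j + a (j + 1)) * (1 / 2 ^ (i + 1)) := by
    intro j
    rw [pow_succ]
    field_simp
  rw [Finset.sum_congr rfl (fun j _ => h6 j), Finset.sum_congr rfl (fun j _ => h7 j),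
    ← Finset.sum_mul, ← Finset.sum_mul, h1]

theorem weights (i : ℕ) : ∑ j ∈ Finset.range (i + 1), (i.choose j : ℝ) / 2 ^ i = 1 := by
  rw [← Finset.sum_div]
  have : ∑ j ∈ Finset.range (i + 1), (i.choose j : ℝ) = 2 ^ i := by
    exact_mod_cast Nat.sum_range_choose i
  rw [this]
  exact div_self (by positivity)

theorem step {C : ℝ} {M : ℕ → ℤ → ℝ} (hM : Rec C M) (k n : ℕ) (o : ℤ) (hk : 100 ≤ k)
    (hn : 100 * n ≤ k) (ho : |2 * (o : ℝ) - k| ≤ (k : ℝ) / 40) (i : ℕ) (hi : i ≤ n) :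
    |M k o - ∑ j ∈ Finset.range (i + 1), (i.choose j : ℝ) / 2 ^ i * M (k - i) (o - j)| ≤
      i * (C / ((k : ℝ) * (99 / 100)) ^ 2) := by
  have hC : 0 ≤ C := (hM.1 0 0).1.trans (hM.1 0 0).2
  have hkR : (100 : ℝ) ≤ k := by exact_mod_cast hk
  have hnR : 100 * (n : ℝ) ≤ k := by exact_mod_cast hn
  induction i with
  | zero => simp
  | succ i ih =>
    have ih' := ih (by omega)
    have hpas := pascal i (fun j => M (k - (i + 1)) (o - j))
    have hiR : ((i + 1 : ℕ) : ℝ) ≤ n := by exact_mod_cast hi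
    push_cast at hiR
    have hsub : ((k - (i + 1) : ℕ) : ℝ) = k - (i + 1) := by
      rw [Nat.cast_sub (by omega)]
      push_cast
      ring
    have hstep : ∀ j ∈ Finset.range (i + 1),
        |M (k - i) (o - j) - (M (k - (i + 1)) (o - j) + M (k - (i + 1)) (o - ((j + 1 : ℕ) : ℤ))) / 2|
          ≤ C / ((k : ℝ) * (99 / 100)) ^ 2 := by
      intro j hj
      have hji : j ≤ i := by
        have := Finset.mem_range.1 hj
        omega
      have hjR : (j : ℝ) ≤ i := by exact_mod_cast hji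
      have hj0 : (0 : ℝ) ≤ j := Nat.cast_nonneg j
      have hi0 : (0 : ℝ) ≤ i := Nat.cast_nonneg i
      have h := hM.2.1 (k - (i + 1)) (o - j) (by omega) (by
        rw [hsub]
        push_cast
        rw [abs_le] at ho ⊢
        constructor <;> linarith)
      have e1 : k - (i + 1) + 1 = k - i := by omega
      have e2 : o - (j : ℤ) - 1 = o - ((j + 1 : ℕ) : ℤ) := by push_cast; ring
      rw [e1, e2, hsub] at h
      refine h.trans ?_
      refine div_le_div_of_nonneg_left hC (by positivity) ?_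
      refine pow_le_pow_left₀ (by positivity) ?_ 2
      linarith
    have hsum : |∑ j ∈ Finset.range (i + 1), (i.choose j : ℝ) / 2 ^ i * M (k - i) (o - j) -
        ∑ j ∈ Finset.range (i + 1), (i.choose j : ℝ) / 2 ^ i *
          ((M (k - (i + 1)) (o - j) + M (k - (i + 1)) (o - ((j + 1 : ℕ) : ℤ))) / 2)| ≤
        C / ((k : ℝ) * (99 / 100)) ^ 2 := by
      rw [← Finset.sum_sub_distrib]
      refine (Finset.abs_sum_le_sum_abs _ _).trans ?_
      calc ∑ j ∈ Finset.range (i + 1), |(i.choose j : ℝ) / 2 ^ i * M (k - i) (o - j) -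
            (i.choose j : ℝ) / 2 ^ i *
              ((M (k - (i + 1)) (o - j) + M (k - (i + 1)) (o - ((j + 1 : ℕ) : ℤ))) / 2)|
          ≤ ∑ j ∈ Finset.range (i + 1), (i.choose j : ℝ) / 2 ^ i *
              (C / ((k : ℝ) * (99 / 100)) ^ 2) := by
            refine Finset.sum_le_sum fun j hj => ?_
            rw [← mul_sub, abs_mul, abs_of_nonneg (by positivity : (0 : ℝ) ≤ (i.choose j : ℝ) / 2 ^ i)]
            exact mul_le_mul_of_nonneg_left (hstep j hj) (by positivity)
        _ = C / ((k : ℝ) * (99 / 100)) ^ 2 := by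
            rw [← Finset.sum_mul, weights, one_mul]
    rw [hpas]
    have h3 := abs_sub_le (M k o)
      (∑ j ∈ Finset.range (i + 1), (i.choose j : ℝ) / 2 ^ i * M (k - i) (o - j))
      (∑ j ∈ Finset.range (i + 1), (i.choose j : ℝ) / 2 ^ i *
          ((M (k - (i + 1)) (o - j) + M (k - (i + 1)) (o - ((j + 1 : ℕ) : ℤ))) / 2))
    have h8 : ((i + 1 : ℕ) : ℝ) * (C / ((k : ℝ) * (99 / 100)) ^ 2) =
        i * (C / ((k : ℝ) * (99 / 100)) ^ 2) + C / ((k : ℝ) * (99 / 100)) ^ 2 := by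
      push_cast
      ring
    rw [h8]
    linarith

end D2Aux

theorem rec_iter {C : ℝ} {M : ℕ → ℤ → ℝ} (hM : Rec C M) (k n : ℕ) (o : ℤ) (hk : 100 ≤ k) (hn : 100 * n ≤ k)
    (ho : |2 * (o : ℝ) - k| ≤ (k : ℝ) / 40) :
    |M k o - ∑ j ∈ Finset.range (n + 1), (n.choose j : ℝ) / 2 ^ n * M (k - n) (o - j)| ≤ C / k := by
  have hC : 0 ≤ C := (hM.1 0 0).1.trans (hM.1 0 0).2
  have hkR : (100 : ℝ) ≤ k := by exact_mod_cast hk
  have hnR : 100 * (n : ℝ) ≤ k := by exact_mod_cast hn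
  refine (D2Aux.step hM k n o hk hn ho n le_rfl).trans ?_
  have hk0 : (0 : ℝ) < k := by linarith
  have h1 : (n : ℝ) ≤ k / 100 := by linarith
  calc (n : ℝ) * (C / ((k : ℝ) * (99 / 100)) ^ 2)
      ≤ (k / 100) * (C / ((k : ℝ) * (99 / 100)) ^ 2) :=
        mul_le_mul_of_nonneg_right h1 (by positivity)
    _ = (100 / 9801) * (C / k) := by field_simp; norm_num
    _ ≤ 1 * (C / k) := mul_le_mul_of_nonneg_right (by norm_num) (by positivity)
    _ = C / k := one_mul _

end Pool.Agent.H499R2.LT
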