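import Pool.Agent.H33.G.R_seed8.H499R2.LT.D1
import Pool.Agent.H33.G.R_seed8.H499R2.LT.D2
import Pool.Agent.H33.G.R_seed8.H499R2.LT.D3

/-! Project LT, task D4: differences. -/

set_option autoImplicit false

namespace Pool.Agent.H499R2.LT

open Pool.Agent.H320R2.PD Finset Filter Topology

open Pool.Agent.H499R2.ND hiding La Ea Me FC

open Pool.Agent.H499R2.CZ

open Pool.Agent.H319R2.Lln (mu)

theorem D4_shift (n : ℕ) (g : ℤ → ℝ) (o : ℤ) :
    ∑ j ∈ Finset.range (n + 1), (n.choose j : ℝ) / 2 ^ n * g (o - j)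
      - ∑ j ∈ Finset.range (n + 1), (n.choose j : ℝ) / 2 ^ n * g (o - 1 - j)
      = ∑ j ∈ Finset.range (n + 2), ((n.choose j : ℝ) / 2 ^ n
          - (if j = 0 then 0 else (n.choose (j - 1) : ℝ) / 2 ^ n)) * g (o - j) := by
  have h1 : ∑ j ∈ Finset.range (n + 1), (n.choose j : ℝ) / 2 ^ n * g (o - j)
      = ∑ j ∈ Finset.range (n + 2), (n.choose j : ℝ) / 2 ^ n * g (o - j) := by
    rw [Finset.sum_range_succ _ (n + 1)]
    simp
  have h2 : ∑ j ∈ Finset.range (n + 1), (n.choose j : ℝ) / 2 ^ n * g (o - 1 - j)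
      = ∑ j ∈ Finset.range (n + 2), (if j = 0 then 0 else (n.choose (j - 1) : ℝ) / 2 ^ n) * g (o - j) := by
    rw [Finset.sum_range_succ' _ (n + 1)]
    simp only [Nat.cast_add, Nat.cast_one, Nat.add_eq_zero_iff, one_ne_zero, and_false, if_false,
      Nat.add_sub_cancel, if_true, zero_mul, add_zero]
    refine Finset.sum_congr rfl fun j _ => ?_
    congr 2
    ring
  rw [h1, h2, ← Finset.sum_sub_distrib]
  refine Finset.sum_congr rfl fun j _ => ?_
  ring

theorem rec_diff {C : ℝ} {M : ℕ → ℤ → ℝ} (hM : Rec C M) : ∃ (C' : ℝ) (k0 : ℕ), 0 < C' ∧ ∀ (k : ℕ) (o : ℤ),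
    k0 ≤ k → |2 * (o : ℝ) - k| ≤ (k : ℝ) / 80 →
      |M k o - M k (o - 1)| ≤ C' / k ∧ |M (k + 1) o - M k o| ≤ C' / k := by
  obtain ⟨c, hc, hvar⟩ := bin_var
  obtain ⟨C1, k1, hC1, hsup⟩ := rec_sup hM
  have hC0 : 0 ≤ C := le_trans (hM.1 0 0).1 (hM.1 0 0).2
  refine ⟨2 * C + 40 * c * C1, max 1000 (2 * k1), by positivity, ?_⟩
  intro k o hk ho
  have hk1000 : 1000 ≤ k := le_trans (le_max_left _ _) hk
  have hk1 : 2 * k1 ≤ k := le_trans (le_max_right _ _) hk
  have hkR : (1000 : ℝ) ≤ k := by exact_mod_cast hk1000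
  have hkpos : (0 : ℝ) < k := by linarith
  set n : ℕ := k / 200 with hn
  have hn200 : 200 * n ≤ k := by omega
  have hn1 : 1 ≤ n := by omega
  have hnlow : k ≤ 400 * n := by omega
  have hn200R : 200 * (n : ℝ) ≤ k := by exact_mod_cast hn200
  have hnlowR : (k : ℝ) ≤ 400 * n := by exact_mod_cast hnlow
  have hnk : n ≤ k := by omega
  have hkn : ((k - n : ℕ) : ℝ) = (k : ℝ) - n := by rw [Nat.cast_sub hnk]
  have habs := abs_le.mp ho
  -- the two iterations
  have hI1 := rec_iter hM k n o (by omega) (by omega) (by linarith)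
  have hI2 := rec_iter hM k n (o - 1) (by omega) (by omega) (by
    push_cast
    rw [abs_le]
    constructor <;> linarith [habs.1, habs.2])
  -- the supremum bound
  have hbound : ∀ j ∈ Finset.range (n + 2), |M (k - n) (o - j)| ≤ C1 / Real.sqrt ((k - n : ℕ) : ℝ) := by
    intro j hj
    rw [Finset.mem_range] at hj
    have hjR : (j : ℝ) ≤ n + 1 := by
      have : j ≤ n + 1 := by omega
      exact_mod_cast this
    have hj0 : (0 : ℝ) ≤ j := Nat.cast_nonneg j
    have hpos := (hM.1 (k - n) (o - j)).1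
    rw [abs_of_nonneg hpos]
    refine hsup (k - n) (o - j) (by omega) ?_
    rw [hkn]
    push_cast
    rw [abs_le]
    constructor <;> linarith [habs.1, habs.2]
  have hsum : |∑ j ∈ Finset.range (n + 1), (n.choose j : ℝ) / 2 ^ n * M (k - n) (o - j)
      - ∑ j ∈ Finset.range (n + 1), (n.choose j : ℝ) / 2 ^ n * M (k - n) (o - 1 - j)|
      ≤ 40 * c * C1 / k := by
    rw [D4_shift n (fun x => M (k - n) x) o]
    refine le_trans (Finset.abs_sum_le_sum_abs _ _) ?_
    have hstep : ∑ j ∈ Finset.range (n + 2), |((n.choose j : ℝ) / 2 ^ n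
          - (if j = 0 then 0 else (n.choose (j - 1) : ℝ) / 2 ^ n)) * M (k - n) (o - j)|
        ≤ ∑ j ∈ Finset.range (n + 2), |(n.choose j : ℝ) / 2 ^ n
          - (if j = 0 then 0 else (n.choose (j - 1) : ℝ) / 2 ^ n)| * (C1 / Real.sqrt ((k - n : ℕ) : ℝ)) := by
      refine Finset.sum_le_sum fun j hj => ?_
      rw [abs_mul]
      exact mul_le_mul_of_nonneg_left (hbound j hj) (abs_nonneg _)
    refine le_trans hstep ?_
    rw [← Finset.sum_mul]
    have hv := hvar n hn1
    have hq : 0 ≤ C1 / Real.sqrt ((k - n : ℕ) : ℝ) := by positivity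
    refine le_trans (mul_le_mul_of_nonneg_right hv hq) ?_
    -- c / √n * (C1 / √(k-n)) ≤ 40 c C1 / k
    have hnpos : (0 : ℝ) < n := by exact_mod_cast hn1
    have hknpos : (0 : ℝ) < ((k - n : ℕ) : ℝ) := by rw [hkn]; linarith
    have hs : (k : ℝ) / 40 ≤ Real.sqrt n * Real.sqrt ((k - n : ℕ) : ℝ) := by
      rw [← Real.sqrt_mul hnpos.le]
      apply Real.le_sqrt_of_sq_le
      rw [hkn]
      nlinarith [hnlowR, hn200R, hkpos, hnpos]
    have hsp : 0 < Real.sqrt n * Real.sqrt ((k - n : ℕ) : ℝ) := by positivity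
    rw [div_mul_div_comm, div_le_div_iff₀ hsp hkpos]
    have hcc : 0 < c * C1 := by positivity
    nlinarith [mul_le_mul_of_nonneg_left hs hcc.le]
  have hfirst : |M k o - M k (o - 1)| ≤ (2 * C + 40 * c * C1) / k := by
    have e : M k o - M k (o - 1) = (M k o - ∑ j ∈ Finset.range (n + 1), (n.choose j : ℝ) / 2 ^ n * M (k - n) (o - j))
        + (∑ j ∈ Finset.range (n + 1), (n.choose j : ℝ) / 2 ^ n * M (k - n) (o - j)
          - ∑ j ∈ Finset.range (n + 1), (n.choose j : ℝ) / 2 ^ n * M (k - n) (o - 1 - j))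
        - (M k (o - 1) - ∑ j ∈ Finset.range (n + 1), (n.choose j : ℝ) / 2 ^ n * M (k - n) (o - 1 - j)) := by ring
    rw [e]
    refine le_trans (abs_sub _ _) ?_
    refine le_trans (add_le_add (abs_add_le _ _) le_rfl) ?_
    have : (2 * C + 40 * c * C1) / k = C / k + 40 * c * C1 / k + C / k := by ring
    rw [this]
    exact add_le_add (add_le_add hI1 hsum) hI2
  refine ⟨hfirst, ?_⟩
  have hrec := hM.2.1 k o (by omega) (by linarith)
  have e2 : M (k + 1) o - M k o = (M (k + 1) o - (M k o + M k (o - 1)) / 2) - (M k o - M k (o - 1)) / 2 := by ring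
  rw [e2]
  refine le_trans (abs_sub _ _) ?_
  rw [abs_div, abs_two]
  have h3 : C / (k : ℝ) ^ 2 ≤ C / k := by
    apply div_le_div_of_nonneg_left hC0 hkpos
    nlinarith
  have h4 : (2 * C + 40 * c * C1) / k / 2 = C / k + 20 * c * C1 / k := by ring
  have h5 : (2 * C + 40 * c * C1) / k = C / k + (C / k + 20 * c * C1 / k) + 20 * c * C1 / k := by ring
  have h6 : 0 ≤ 20 * c * C1 / k := by positivity
  have h7 : |M k o - M k (o - 1)| / 2 ≤ C / k + 20 * c * C1 / k := by
    rw [← h4]; linarith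
  linarith

end Pool.Agent.H499R2.LT
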