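import Pool.Agent.H33.G.R_seed8.H499R2.LT.D4
import Pool.Agent.H33.G.R_seed8.H499R2.LT.D5

/-! Project LT: smoothness of the solutions of the recursion. -/

set_option autoImplicit false

namespace Pool.Agent.H499R2.LT

theorem rec_smooth {C : ℝ} {M : ℕ → ℤ → ℝ} (hM : Rec C M) : ∃ (C' : ℝ) (k0 : ℕ), 0 < C' ∧
    ∀ (k k' : ℕ) (o o' : ℤ), k0 ≤ k → |2 * (o : ℝ) - k| ≤ (k : ℝ) / 400 → k ≤ k' → 1000 * (k' - k : ℝ) ≤ k →
      1000 * |(o' : ℝ) - o| ≤ k → |M k' o' - M k o| ≤ C' * ((k' - k : ℝ) + |(o' : ℝ) - o|) / k :=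
  rec_smooth_of (rec_diff hM)

end Pool.Agent.H499R2.LT
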