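import Pool.Agent.H33.G.R_seed8.H499R2.CZ.Defs
import Pool.Agent.H33.G.R_seed8.H499R2.NDLimit

/-! Project LT: local limit theorem for the first hitting times of the `3x+d` maps. Definitions. -/

set_option autoImplicit false

namespace Pool.Agent.H499R2.LT

open Pool.Agent.H320R2.PD Finset Filter Topology

open Pool.Agent.H499R2.ND hiding La Ea Me FC

open Pool.Agent.H499R2.CZ

open Pool.Agent.H319R2.Lln (mu)

/-- number of odd terms among the first `j` terms of the trajectory of `x` -/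
def od (d : ℤ) : ℕ → ℤ → ℤ
  | 0, _ => 0
  | j + 1, x => (if x % 2 = 0 then 0 else 1) + od d j (Td d x)

/-- the trajectory of `x` meets the finite set `F` for the first time at time `j`, in `f` -/
def Hit (d : ℤ) (F : Finset ℤ) (f x : ℤ) (j : ℕ) : Prop :=
  (Td d)^[j] x = f ∧ f ∈ F ∧ ∀ i < j, (Td d)^[i] x ∉ F

/-- integers whose trajectory meets `F` for the first time in `f` -/
def PF (d : ℤ) (F : Finset ℤ) (f : ℤ) : Set ℤ := {x : ℤ | ∃ j : ℕ, Hit d F f x j}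

/-- ... within `s` steps -/
def EF (d : ℤ) (F : Finset ℤ) (f : ℤ) (s : ℤ) : Set ℤ := {x : ℤ | ∃ j : ℕ, (j : ℤ) ≤ s ∧ Hit d F f x j}

/-- ... but not within `s` steps -/
def LF (d : ℤ) (F : Finset ℤ) (f : ℤ) (s : ℤ) : Set ℤ := {x : ℤ | x ∈ PF d F f ∧ x ∉ EF d F f s}

/-- ... after exactly `k` steps, with exactly `o` odd terms before -/
def SF (d : ℤ) (F : Finset ℤ) (f : ℤ) (k o : ℤ) : Set ℤ :=
  {x : ℤ | ∃ j : ℕ, (j : ℤ) = k ∧ Hit d F f x j ∧ od d j x = o}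

/-- the union of the trajectories of the elements of `F` -/
def RF (d : ℤ) (F : Finset ℤ) : Set ℤ := {y : ℤ | ∃ a ∈ F, ∃ j : ℕ, (Td d)^[j] a = y}

/-- graded families: outside `R` the step `x → Td d x` lowers the first index by one and the second
index by one if `x` is odd -/
def GF (d : ℤ) (R : Set ℤ) (S : ℤ → ℤ → Set ℤ) : Prop :=
  ∀ (k o x : ℤ), x ∉ R → (x ∈ S k o ↔ Td d x ∈ S (k - 1) (o - (if x % 2 = 0 then 0 else 1)))

/-- almost invariant sets -/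
def AI (d : ℤ) (R S : Set ℤ) : Prop := ∀ x : ℤ, x ∉ R → (x ∈ S ↔ Td d x ∈ S)

/-- very sparse sets -/
def SpW (R : Set ℤ) : Prop := ∀ B : ℕ, ∃ C : ℝ, 0 ≤ C ∧ ∀ A : ℝ, 0 < A → 1 ≤ Real.log A →
  (∀ m : ℕ, (m : ℝ) ^ 2 ≤ Real.log A → PB R A m (C / (Real.log A) ^ B)) ∧
  ((wc R A (2 * A) 1 0).card : ℝ) ≤ C / (Real.log A) ^ B * A

/-- number of positive integers with first hit `f` after `k` steps with `o` odd terms -/
noncomputable def NN (d : ℤ) (F : Finset ℤ) (f : ℤ) (k : ℕ) (o : ℤ) : ℝ :=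
  ({x : ℤ | 0 < x ∧ x ∈ SF d F f k o}.ncard : ℝ)

/-- normalised number -/
noncomputable def MM (d : ℤ) (F : Finset ℤ) (f : ℤ) (k : ℕ) (o : ℤ) : ℝ :=
  NN d F f k o * (3 : ℝ) ^ o / 2 ^ k

/-- the set of integers of absolute value at most `Y` -/
noncomputable def FY (Y : ℕ) : Finset ℤ := Finset.Icc (-(Y : ℤ)) (Y : ℤ)

/-- the analytic properties of the normalised numbers -/
def Rec (C : ℝ) (M : ℕ → ℤ → ℝ) : Prop :=
  (∀ k o, 0 ≤ M k o ∧ M k o ≤ C) ∧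
  (∀ (k : ℕ) (o : ℤ), 1 ≤ k → |2 * (o : ℝ) - k| ≤ (k : ℝ) / 10 →
    |M (k + 1) o - (M k o + M k (o - 1)) / 2| ≤ C / (k : ℝ) ^ 2) ∧
  (∀ (k1 H : ℕ) (o1 : ℤ) (L : ℕ),
    ∑ k ∈ Finset.Ico k1 (k1 + H), ∑ o ∈ Finset.Ico o1 (o1 + L), M k o ≤ C * (H + L + 1))

/-- the event: the first hit is `f`, within the given time -/
def evF (d : ℤ) (F : Finset ℤ) (f : ℤ) (x : ℝ) (n : ℕ) : Prop :=
  ∃ k : ℕ, (k : ℝ) ≤ Real.log n / mu + x * sg * Real.sqrt (Real.log n) ∧ Hit d F f (n : ℤ) k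

/-- logarithmic sum over the `n` of a window with a hit (`H n k`: hit at time `k`) at a time in
`[s1, s2)` -/
noncomputable def LS (H : ℕ → ℕ → Prop) (t L : ℝ) (s1 s2 : ℤ) : ℝ :=
  ∑' n : ℕ, Set.indicator {n : ℕ | 1 ≤ n ∧ t ≤ Real.log n ∧ Real.log n < t + L ∧
    ∃ k : ℕ, s1 ≤ (k : ℤ) ∧ (k : ℤ) < s2 ∧ H n k} (fun n => (1 : ℝ) / n) n

end Pool.Agent.H499R2.LT
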