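import Pool.Agent.H33.G.R_seed8.H499R2.LT.A
import Pool.Agent.H33.G.R_seed8.H499R2.LT.B0
import Pool.Agent.H33.G.R_seed8.H499R2.CL.G
import Pool.Agent.H33.G.R_seed8.H499R2.CZ.F

/-! Project LT, task E1: late tightness for exact hits. -/

set_option autoImplicit false

namespace Pool.Agent.H499R2.LT

open Pool.Agent.H320R2.PD Finset Filter Topology

open Pool.Agent.H499R2.ND hiding La Ea Me FC

open Pool.Agent.H499R2.CZ

open Pool.Agent.H319R2.Lln (mu)

namespace E1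

open Pool.Agent.H499R2.ND.TG

/-- the integers below `y` whose first hit is `f` have it within `W` steps -/
theorem exWF (d : ℤ) (F : Finset ℤ) (f : ℤ) (y : ℝ) : ∃ W : ℕ, ∀ x : ℤ, 0 < x → (x : ℝ) < y →
    x ∈ PF d F f → ∃ k ≤ W, Hit d F f x k := by
  classical
  have hM : ∀ a : ℕ, ∃ M : ℕ, (∃ k, Hit d F f (a : ℤ) k) → ∃ k ≤ M, Hit d F f (a : ℤ) k := by
    intro a
    by_cases h : ∃ k, Hit d F f (a : ℤ) k
    · obtain ⟨k, hk⟩ := h
      exact ⟨k, fun _ => ⟨k, le_rfl, hk⟩⟩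
    · exact ⟨0, fun h' => absurd h' h⟩
  choose M hM using hM
  refine ⟨(range (⌈y⌉₊ + 1)).sup M, fun x hx hxy hm => ?_⟩
  obtain ⟨a, rfl⟩ := Int.eq_ofNat_of_zero_le hx.le
  obtain ⟨k, hk, hR⟩ := hM a hm
  refine ⟨k, hk.trans (Finset.le_sup (f := M) (mem_range.2 ?_)), hR⟩
  have h1 : (a : ℝ) < y := by exact_mod_cast hxy
  have h2 : (a : ℝ) ≤ ⌈y⌉₊ := h1.le.trans (Nat.le_ceil _)
  have : a ≤ ⌈y⌉₊ := by exact_mod_cast h2
  omega

end E1

open E1 Pool.Agent.H499R2.ND.TG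

theorem late_tightF {d : ℤ} (hd : Odd d) (hd3 : IsCoprime d 3) (F : Finset ℤ) (f : ℤ)
    {η : ℝ} (hη : 0 < η) : ∃ K A0 : ℝ, 1 ≤ K ∧ 0 < A0 ∧
    ∀ A : ℝ, A0 ≤ A → ∀ s : ℤ, Real.log A / mu + K * Real.sqrt (Real.log A) ≤ s → ∀ m : ℕ,
      (m : ℝ) ^ 2 ≤ Real.log A → PB (LF d F f s) A m η := by
  classical
  obtain ⟨C, hC, hall⟩ := all_scalesW hd hd3
  obtain ⟨CR, hCR, hSp⟩ := RF_SpW hd hd3 F 1
  have hmu := mu_pos'
  obtain ⟨K, hK4, hKη⟩ := exK hC hη
  obtain ⟨y, hy, hy1000, hyη⟩ := exy (show 0 < C * (1 + CR) by positivity) hη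
  obtain ⟨W, hW⟩ := exWF d F f y
  refine ⟨160 * K, Real.exp (max 1000 ((W : ℝ) ^ 4)) + y, by linarith, by positivity, ?_⟩
  intro A hA s hs m hm
  have hA1 : Real.exp (max 1000 ((W : ℝ) ^ 4)) ≤ A := by linarith
  have hA0 : 0 < A := (Real.exp_pos _).trans_le hA1
  have hAy : y / 2 < A := by linarith [Real.exp_pos (max 1000 ((W : ℝ) ^ 4))]
  have hLA : max 1000 ((W : ℝ) ^ 4) ≤ Real.log A := (Real.le_log_iff_exp_le hA0).2 hA1
  have hL1 : 1000 ≤ Real.log A := (le_max_left _ _).trans hLA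
  have hL2 : (W : ℝ) ^ 4 ≤ Real.log A := (le_max_right _ _).trans hLA
  have key := hall K (Real.log A) y CR hK4 hCR hy hy1000 ℤ (fun s => LF d F f s) (RF d F)
    (fun s A' => 800 ≤ Real.log A' ∧
      Real.log A' / mu + 160 * K * Real.sqrt (Real.sqrt (Real.log A * Real.log A')) ≤ s)
    (fun s T => s - T) ?_ ?_ ?_ ?_ s A hAy ?_ le_rfl m hm
  · refine PB_mono' hA0 key ?_
    have h1 : Real.log A / Real.log A = 1 := div_self (by linarith)
    rw [h1]
    linarith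
  · -- base
    rintro τ A' hA' ⟨hok1, hok2⟩ hAy' m' u v hu
    have hemp : cls (LF d F f τ) A' (2 * A') m' u v = ∅ := by
      rw [Finset.eq_empty_iff_forall_notMem]
      intro x hx
      rw [mem_cls] at hx
      obtain ⟨⟨h1, h2⟩, _, h4, _⟩ := hx
      have hx0 : 0 < x := by
        have : (0 : ℝ) < x := hA'.trans_le h1
        exact_mod_cast this
      obtain ⟨k, hk, hkR⟩ := hW x hx0 (by linarith) h4.1
      apply h4.2
      refine ⟨k, ?_, hkR⟩
      have h5 : (W : ℝ) ≤ Real.sqrt (Real.sqrt (Real.log A * Real.log A')) := by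
        apply le_ss (Nat.cast_nonneg W)
        refine hL2.trans ?_
        nlinarith
      have h6 : 0 ≤ Real.log A' / mu := by
        apply div_nonneg _ hmu.le
        linarith
      have h7 : (k : ℝ) ≤ W := by exact_mod_cast hk
      have h8 : (W : ℝ) ≤ 160 * K * Real.sqrt (Real.sqrt (Real.log A * Real.log A')) := by
        have h9 := mul_le_mul_of_nonneg_left h5 (show 0 ≤ 160 * K by linarith)
        have h10 : (0 : ℝ) ≤ W := Nat.cast_nonneg W
        nlinarith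
      have h9 : (k : ℝ) ≤ (τ : ℝ) := by linarith
      exact_mod_cast h9
    rw [hemp]
    simp
  · -- Q
    intro A' hA' h800 m' hm'
    have := (hSp A' hA' (by linarith)).1 m' hm'
    rwa [pow_one] at this
  · -- step
    rintro τ A' hA' ⟨hok1, hok2⟩ hAy' hLL T hT
    have hL' : 1000 ≤ Real.log A' := hy1000.trans (Real.log_le_log (by positivity) hAy'.le)
    obtain ⟨h1, h2, h3⟩ := tight_next (by linarith) hA' hL' hLL hT
    refine ⟨h1, ?_⟩
    have h4 := (abs_le.1 h2).2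
    push_cast
    linarith
  · -- transition
    intro τ w hw M x hM hx hM0 hMS h
    exact LF_word hd hw hM hx hMS h
  · refine ⟨by linarith, ?_⟩
    rw [Real.sqrt_mul_self (by linarith)]
    exact hs

end Pool.Agent.H499R2.LT
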