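import Pool.Agent.H33.G.R_seed8.H499R2.LT.MDefs

/-! Project LT, task ME4 (helper101, after helper541): graded sets are equidistributed in the
classes mod `3^m`, with the right density. -/

set_option autoImplicit false

namespace Pool.Agent.H499R2.LT

open Pool.Agent.H320R2.PD Finset Filter Topology

open Pool.Agent.H499R2.ND hiding La Ea Me FC

open Pool.Agent.H499R2.CZ

open Pool.Agent.H319R2.Lln (mu)

namespace ME4

/-- the odd elements of a graded set in a window -/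
theorem odd_leG {d : ℤ} {R : Set ℤ} {S : ℤ → ℤ → Set ℤ} (hS : GF d R S) (k o : ℤ) {A : ℝ}
    (hA : 0 < A) :
    ((cls (S k o) A (2 * A) 0 1 0).card : ℝ) ≤ G (S k o) (2 * A) - G (S k o) A -
      G (S (k - 1) o) A + G (S (k - 1) o) (A / 2) + ((wc R A (2 * A) 1 0).card : ℝ) := by
  classical
  have h1 := G_win (S k o) hA (by linarith : A ≤ 2 * A)
  have h2 := G_win (S (k - 1) o) (by linarith : 0 < A / 2) (by linarith : A / 2 ≤ A)
  have hsub : cls (S k o) A (2 * A) 0 1 0 ∪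
      (wc (S (k - 1) o) (A / 2) A 1 0).image (fun x => 2 * x) ⊆
        wc (S k o) A (2 * A) 1 0 ∪ wc R A (2 * A) 1 0 := by
    intro x hx
    rw [mem_union, mem_cls, mem_image] at hx
    rw [mem_union, mem_wc, mem_wc]
    rcases hx with ⟨h, _, hxS, _⟩ | ⟨t, ht, rfl⟩
    · exact Or.inl ⟨h, hxS, one_dvd _⟩
    · rw [mem_wc] at ht
      push_cast
      have hw : A ≤ 2 * (t : ℝ) ∧ 2 * (t : ℝ) < 2 * A := ⟨by linarith [ht.1.1], by linarith [ht.1.2]⟩
      by_cases hR : 2 * t ∈ R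
      · exact Or.inr ⟨hw, hR, one_dvd _⟩
      · refine Or.inl ⟨hw, (hS k o _ hR).2 ?_, one_dvd _⟩
        rw [B4.Td_two, if_pos (by omega), sub_zero]
        exact ht.2.1
  have hdisj : Disjoint (cls (S k o) A (2 * A) 0 1 0)
      ((wc (S (k - 1) o) (A / 2) A 1 0).image (fun x => 2 * x)) := by
    rw [Finset.disjoint_left]
    intro x hx hx'
    rw [mem_cls] at hx
    rw [mem_image] at hx'
    obtain ⟨t, _, rfl⟩ := hx'
    have := hx.2.1
    rw [← Int.not_even_iff_odd] at this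
    exact this (even_two_mul t)
  have hcard : ((cls (S k o) A (2 * A) 0 1 0).card : ℝ) + (wc (S (k - 1) o) (A / 2) A 1 0).card ≤
      (wc (S k o) A (2 * A) 1 0).card + (wc R A (2 * A) 1 0).card := by
    have h3 := (card_le_card hsub).trans (card_union_le _ _)
    rw [card_union_of_disjoint hdisj, card_image_of_injective _ (fun x y h => by
      have : 2 * x = 2 * y := h
      omega)] at h3
    exact_mod_cast h3
  linarith

end ME4

open B4 ME4

theorem class_boundG {d : ℤ} (hd : Odd d) (hd3 : IsCoprime d 3) {R : Set ℤ} (hR : FC d R) (hRs : SpW R)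
    {S : ℤ → ℤ → Set ℤ} (hS : GF d R S) {k o : ℤ} {δ : ℝ}
    (hδ : Tendsto (fun X : ℝ => G (S k o) X / X) atTop (𝓝 δ))
    (hδ' : Tendsto (fun X : ℝ => G (S (k - 1) o) X / X) atTop (𝓝 δ)) {ε : ℝ} (hε : 0 < ε) :
    ∃ A0 : ℝ, 0 < A0 ∧ ∀ A : ℝ, A0 ≤ A → ∀ m : ℕ, (m : ℝ) ^ 2 ≤ Real.log A → PB (S k o) A m (δ + ε) := by
  obtain ⟨C, hC, hequi⟩ := equi_oddG 1 hd hd3 hR hRs
  obtain ⟨C', hC', hsp⟩ := hRs 1
  have hlim : Tendsto (fun A : ℝ => (G (S k o) (2 * A) - G (S k o) A - G (S (k - 1) o) A +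
      G (S (k - 1) o) (A / 2)) / A) atTop (𝓝 (2 * δ - δ - δ + δ / 2)) := by
    have t1 : Tendsto (fun A : ℝ => 2 * (G (S k o) (2 * A) / (2 * A))) atTop (𝓝 (2 * δ)) :=
      (hδ.comp (tendsto_id.const_mul_atTop (by norm_num : (0 : ℝ) < 2))).const_mul 2
    have t3 : Tendsto (fun A : ℝ => G (S (k - 1) o) (A / 2) / (A / 2) / 2) atTop (𝓝 (δ / 2)) :=
      (hδ'.comp (tendsto_id.atTop_div_const (by norm_num : (0 : ℝ) < 2))).div_const 2
    refine (((t1.sub hδ).sub hδ').add t3).congr' ?_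
    filter_upwards [eventually_gt_atTop 0] with A hA
    field_simp
  have e1 : ∀ᶠ A : ℝ in atTop, (G (S k o) (2 * A) - G (S k o) A - G (S (k - 1) o) A +
      G (S (k - 1) o) (A / 2)) / A < δ / 2 + ε / 8 := by
    refine (tendsto_order.1 hlim).2 _ ?_
    linarith
  have e2 : ∀ᶠ A : ℝ in atTop, max 1000 (max (2 * C / ε) (8 * C' / ε)) ≤ Real.log A :=
    Real.tendsto_log_atTop.eventually_ge_atTop _
  obtain ⟨A1, hA1⟩ := eventually_atTop.1 (e1.and e2)
  refine ⟨max A1 1, lt_of_lt_of_le zero_lt_one (le_max_right _ _), ?_⟩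
  intro A hA m hm u v hu
  have hA0 : 0 < A := lt_of_lt_of_le zero_lt_one ((le_max_right _ _).trans hA)
  obtain ⟨h1, h2⟩ := hA1 A ((le_max_left _ _).trans hA)
  have hlog : 1000 ≤ Real.log A := (le_max_left _ _).trans h2
  have hlog2 : 2 * C / ε ≤ Real.log A := (le_max_left _ _).trans ((le_max_right _ _).trans h2)
  have hlog3 : 8 * C' / ε ≤ Real.log A := (le_max_right _ _).trans ((le_max_right _ _).trans h2)
  obtain ⟨c, hc⟩ := cls_unit (S k o) A (2 * A) m hu v
  rw [hc]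
  have hq := fun c' : ℤ => hequi S hS A hA0 hlog m hm k o c c'
  have hsum : ∑ c' ∈ range (3 ^ m), ((cls (S k o) A (2 * A) m 1 c).card : ℝ) ≤
      ∑ c' ∈ range (3 ^ m), (((cls (S k o) A (2 * A) m 1 (c' : ℤ)).card : ℝ) +
        C / (Real.log A) ^ 1 * (A / (2 * 3 ^ m))) := sum_le_sum fun c' _ => hq c'
  rw [sum_add_distrib, clI_sum, sum_const, sum_const, card_range, nsmul_eq_mul,
    nsmul_eq_mul] at hsum
  have hodd := odd_leG hS k o hA0
  have hwR := (hsp A hA0 (by linarith)).2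
  rw [div_lt_iff₀ hA0] at h1
  push_cast at hsum
  have hCl : C / Real.log A ≤ ε / 2 := by
    rw [div_le_div_iff₀ (by linarith) (by norm_num)]
    rw [div_le_iff₀ hε] at hlog2
    linarith
  have hCl' : C' / Real.log A ≤ ε / 8 := by
    rw [div_le_div_iff₀ (by linarith) (by norm_num)]
    rw [div_le_iff₀ hε] at hlog3
    linarith
  rw [pow_one] at hwR
  have hwR' : ((wc R A (2 * A) 1 0).card : ℝ) ≤ ε / 8 * A :=
    hwR.trans (mul_le_mul_of_nonneg_right hCl' hA0.le)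
  set x : ℝ := ((cls (S k o) A (2 * A) m 1 c).card : ℝ) with hx
  have h3 : (0 : ℝ) < 3 ^ m := by positivity
  have h4 : (3 : ℝ) ^ m * (C / Real.log A ^ 1 * (A / (2 * 3 ^ m))) = C / Real.log A * (A / 2) := by
    rw [pow_one]
    field_simp
  rw [h4] at hsum
  have h5 : (δ + ε) * (A / (2 * 3 ^ m)) = ((δ + ε) * (A / 2)) / 3 ^ m := by
    field_simp
  rw [h5, le_div_iff₀ h3]
  have h6 : C / Real.log A * (A / 2) ≤ ε / 2 * (A / 2) :=
    mul_le_mul_of_nonneg_right hCl (by linarith)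
  nlinarith

end Pool.Agent.H499R2.LT
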