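import Pool.Agent.H33.G.R_seed8.H499R2.CZ.M
import Pool.Agent.H33.G.R_seed8.H499R2.LT.ME1
import Pool.Agent.H33.G.R_seed8.H499R2.LT.ME2
import Pool.Agent.H33.G.R_seed8.H499R2.LT.ME4
import Pool.Agent.H33.G.R_seed8.H499R2.LT.ME5
import Pool.Agent.H33.G.R_seed8.H499R2.LT.ME6
import Pool.Agent.H33.G.R_seed8.H499R2.LT.E2

/-! Project LT, part M: the central limit theorem jointly with residue classes. -/

set_option autoImplicit false

namespace Pool.Agent.H499R2.LT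

open Pool.Agent.H320R2.PD Finset Filter Topology

open Pool.Agent.H499R2.ND hiding La Ea Me FC Bg Ea_word La_word

open Pool.Agent.H499R2.CZ

open Pool.Agent.H319R2.Lln (mu)

open Classical in
/-- composition of the stages for a family of sets which is small for the good times and
bounded for all times -/
theorem M_core2 {d : ℤ} (hd : Odd d) (hd3 : IsCoprime d 3) {S : ℤ → ℤ → Set ℤ} {Q : Set ℤ} {CQ : ℝ} (hCQ : 0 ≤ CQ)
    (hQ : ∀ A, 0 < A → 800 ≤ Real.log A → ∀ m : ℕ, (m : ℝ) ^ 2 ≤ Real.log A → PB Q A m (CQ / Real.log A))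
    (htr : ∀ s b, ∀ w : List ℕ, (∀ a ∈ w, 1 ≤ a) → ∀ M x : ℤ, Odd M → Odd x → 0 < M → M ∈ S s b →
      Vw d w M x → x ∈ S (s - w.sum) (b - w.length) ∪ Q)
    {δ' η : ℝ} (hδ' : 0 ≤ δ') (hη : 0 ≤ η) (bad : ℝ → ℝ → Prop) {At : ℝ} (hAt : 0 < At)
    (hgood : ∀ A : ℝ, At ≤ A → ∀ (s b : ℤ) (m : ℕ), (m : ℝ) ^ 2 ≤ Real.log A → ∀ B : ℝ,
      Real.sqrt (Real.log A) ≤ B → ¬ bad B (s - Real.log A / mu) → PB (S s b) A m η)
    (hall : ∀ A : ℝ, At ≤ A → ∀ (s b : ℤ) (m : ℕ), (m : ℝ) ^ 2 ≤ Real.log A → PB (S s b) A m δ')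
    (J : ℕ) {ε : ℝ} (hε : 0 < ε) :
    ∃ L0 : ℝ, ∀ A : ℝ, 0 < A → L0 ≤ Real.log A → ∃ K cap : ℕ,
      |(K : ℝ) - (1 - (1 - 0.9 * mu) ^ J) * Real.log A / (2 * mu)| ≤ J ∧
      ∀ s b : ℤ, PB (S s b) A 0 (η + δ' * (∑ w ∈ (FW cap K).filter
        (fun w => bad (Real.sqrt (1.05 * ((1 - 0.9 * mu) ^ J * Real.log A)))
          (s - Real.log A / mu + c0 * ((w.sum : ℝ) - 2 * (K : ℝ)))), wwt w) + ε) := by
  have hmu := mu_pos'
  have hmb := mu_bounds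
  have hg0 : 0 < 1 - 0.9 * mu := by linarith [hmb.2]
  set g : ℝ := 1 - 0.9 * mu with hg
  obtain ⟨N, hN, hlen⟩ := lengths J
  obtain ⟨A1, hA1, hA1', hcomp⟩ := compose2 hd hd3 (N := N) hN (ε := ε / (J + 1)) (by positivity) hCQ
  obtain ⟨L1, hL1⟩ := hlen A1
  have hgJ : 0 < g ^ J := by positivity
  refine ⟨max (max L1 0) (|Real.log At| / (0.95 * g ^ J)), ?_⟩
  intro A hA hLA
  have hLA1 : L1 ≤ Real.log A := ((le_max_left _ _).trans (le_max_left _ _)).trans hLA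
  have hLA0 : 0 ≤ Real.log A := ((le_max_right _ _).trans (le_max_left _ _)).trans hLA
  have hLA2 : |Real.log At| / (0.95 * g ^ J) ≤ Real.log A := (le_max_right _ _).trans hLA
  obtain ⟨ks, hks, hGd, hK⟩ := hL1 A hA hLA1
  refine ⟨ks.sum, 3 * ks.sum, hK, ?_⟩
  intro s b
  set L := Real.log A with hL
  set B := Real.sqrt (1.05 * (g ^ J * L)) with hB
  have h := hcomp S Q (fun t => if bad B t then δ' else η)
    (fun A' => |Real.log A' - g ^ J * L| ≤ g ^ J * L / 20) hQ htr (by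
      intro t; split_ifs <;> assumption) (by
      intro A' hA' hP s' b' m hm
      have hP' := abs_le.1 hP
      have hAtA : At ≤ A' := by
        have h1 : Real.log At ≤ Real.log A' := by
          rw [div_le_iff₀ (by positivity)] at hLA2
          have := le_abs_self (Real.log At)
          nlinarith [hP'.1]
        exact (Real.log_le_log_iff hAt hA').1 h1
      split_ifs with hb
      · exact hall A' hAtA s' b' m hm
      · refine hgood A' hAtA s' b' m hm B ?_ hb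
        rw [hB]
        apply Real.sqrt_le_sqrt
        linarith [hP'.2])
    ks (3 * ks.sum) (by
      intro k hk
      have := List.single_le_sum (l := ks) (fun _ _ => Nat.zero_le _) k hk
      omega) A hA hGd s b 0 (by simpa using hLA0)
  refine PB_mono hA ?_ h
  have h1 : ∑ w ∈ FW (3 * ks.sum) ks.sum, wwt w *
        (if bad B (s - L / mu + c0 * ((w.sum : ℝ) - 2 * (ks.sum : ℝ))) then δ' else η)
      ≤ η + δ' * (∑ w ∈ (FW (3 * ks.sum) ks.sum).filter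
        (fun w => bad B (s - L / mu + c0 * ((w.sum : ℝ) - 2 * (ks.sum : ℝ)))), wwt w) := by
    rw [sum_filter, mul_sum]
    have h2 : ∑ w ∈ FW (3 * ks.sum) ks.sum, wwt w *
        (if bad B (s - L / mu + c0 * ((w.sum : ℝ) - 2 * (ks.sum : ℝ))) then δ' else η)
        ≤ ∑ w ∈ FW (3 * ks.sum) ks.sum, (η * wwt w + δ' *
          (if bad B (s - L / mu + c0 * ((w.sum : ℝ) - 2 * (ks.sum : ℝ))) then wwt w else 0)) := by
      apply sum_le_sum
      intro w _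
      have hw := wwt_nonneg w
      split_ifs
      · have : 0 ≤ η * wwt w := by positivity
        linarith
      · linarith
    refine h2.trans ?_
    rw [sum_add_distrib, ← mul_sum]
    have h3 := sum_wwt_le (3 * ks.sum) ks.sum
    have : η * ∑ w ∈ FW (3 * ks.sum) ks.sum, wwt w ≤ η * 1 := mul_le_mul_of_nonneg_left h3 hη
    linarith
  have h4 : (ks.length : ℝ) * (ε / (J + 1)) ≤ ε := by
    rw [hks]
    have : (J : ℝ) * (ε / (J + 1)) = ε * (J / (J + 1)) := by ring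
    rw [this]
    have h5 : (J : ℝ) / (J + 1) ≤ 1 := by
      rw [div_le_one (by positivity)]; linarith
    nlinarith
  linarith


/-! ### the classes -/

theorem CF_mod (d : ℤ) (F : Finset ℤ) (f : ℤ) {m : ℕ} {k k' o o' : ℤ} (hk : k ≡ k' [ZMOD m])
    (ho : o ≡ o' [ZMOD m]) : CF d F f m k o = CF d F f m k' o' := by
  ext x
  constructor
  · rintro ⟨j, h1, h2, h3⟩; exact ⟨j, h1, h2.trans hk, h3.trans ho⟩
  · rintro ⟨j, h1, h2, h3⟩; exact ⟨j, h1, h2.trans hk.symm, h3.trans ho.symm⟩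

theorem LC_mod (d : ℤ) (F : Finset ℤ) (f : ℤ) {m : ℕ} (s : ℤ) {k k' o o' : ℤ} (hk : k ≡ k' [ZMOD m])
    (ho : o ≡ o' [ZMOD m]) : LC d F f m s k o = LC d F f m s k' o' := by
  ext x
  constructor
  · rintro ⟨j, h0, h1, h2, h3⟩; exact ⟨j, h0, h1, h2.trans hk, h3.trans ho⟩
  · rintro ⟨j, h0, h1, h2, h3⟩; exact ⟨j, h0, h1, h2.trans hk.symm, h3.trans ho.symm⟩

theorem EC_mod (d : ℤ) (F : Finset ℤ) (f : ℤ) {m : ℕ} (s : ℤ) {k k' o o' : ℤ} (hk : k ≡ k' [ZMOD m])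
    (ho : o ≡ o' [ZMOD m]) : EC d F f m s k o = EC d F f m s k' o' := by
  ext x
  constructor
  · rintro ⟨j, h0, h1, h2, h3⟩; exact ⟨j, h0, h1, h2.trans hk, h3.trans ho⟩
  · rintro ⟨j, h0, h1, h2, h3⟩; exact ⟨j, h0, h1, h2.trans hk.symm, h3.trans ho.symm⟩

/-- EQUIDISTRIBUTION of the hitting time and of the number of odd terms modulo `m` -/
theorem CF_dens {d : ℤ} (hd : Odd d) (hd3 : IsCoprime d 3) (F : Finset ℤ) (f : ℤ) {δ : ℝ}
    (hδ : HD 1 (PF d F f) δ) {m : ℕ} (hm : 1 ≤ m) (k o : ℤ) :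
    Tendsto (fun X : ℝ => G (CF d F f m k o) X / X) atTop (𝓝 (δ / m ^ 2)) := by
  obtain ⟨K, hK, hharm⟩ := Fd_harmG hd hd3 (RF_FC d F) (RF_SpW hd hd3 F)
  have hδ' : Tendsto (fun X : ℝ => G (PF d F f) X / X) atTop (𝓝 δ) := by
    unfold HD at hδ
    simpa only [one_mul, Set.ofPred_mem_eq] using hδ
  have hself : ∀ a : ℤ, a + m ≡ a [ZMOD m] := fun a => by
    unfold Int.ModEq; simp
  have h1 := mod_limit hm (F := fun k o => Fd (CF d F f m k o))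
    (fun k o => congrArg Fd (CF_mod d F f (hself k) (Int.ModEq.refl o)))
    (fun k o => congrArg Fd (CF_mod d F f (Int.ModEq.refl k) (hself o)))
    (t0 := 1002) (L := 10) (C := K) (l := δ / 3) (fun k o t => Fd_nonneg _ t) (fun k o t => Fd_le_one _ t)
    (fun k o t s ht hs hs1 => Fd_lip _ t s (by linarith) hs hs1)
    (fun k o t ht => hharm _ (GF_CF d F f m) k o t ht)
    (by
      have h2 := Fd_of_dens hδ'
      refine h2.congr fun t => ?_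
      exact (CF_sum d F f hm t).symm)
    k o
  have h2 := dens_of_Fd h1
  have e : 3 * (δ / 3 / (m : ℝ) ^ 2) = δ / m ^ 2 := by ring
  rwa [e] at h2

/-- bounds in residue classes mod powers of 3, uniform in the classes mod `m` -/
theorem class_PBC {d : ℤ} (hd : Odd d) (hd3 : IsCoprime d 3) (F : Finset ℤ) (f : ℤ) {δ : ℝ}
    (hδ : HD 1 (PF d F f) δ) {m : ℕ} (hm : 1 ≤ m) : ∀ ε : ℝ, 0 < ε → ∃ A0 : ℝ, 0 < A0 ∧ ∀ A : ℝ,
    A0 ≤ A → ∀ (k o : ℤ) (m' : ℕ), (m' : ℝ) ^ 2 ≤ Real.log A → PB (CF d F f m k o) A m' (δ / m ^ 2 + ε) := by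
  intro ε hε
  have hm0 : (0 : ℤ) < m := by exact_mod_cast hm
  choose A0 hA0 hA0' using fun (k o : ℤ) => class_boundG hd hd3 (RF_FC d F) (RF_SpW hd hd3 F)
    (GF_CF d F f m) (k := k) (o := o) (CF_dens hd hd3 F f hδ hm k o) (CF_dens hd hd3 F f hδ hm (k - 1) o) hε
  obtain ⟨B, hB⟩ : ∃ B : ℝ, ∀ i ∈ range m, ∀ j ∈ range m, A0 i j ≤ B := by
    refine ⟨∑ i ∈ range m, ∑ j ∈ range m, A0 i j, fun i hi j hj => ?_⟩
    have h1 : A0 i j ≤ ∑ j ∈ range m, A0 i j := single_le_sum (f := fun j : ℕ => A0 i j) (fun j _ => (hA0 i j).le) hj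
    have h2 : ∑ j ∈ range m, A0 i j ≤ ∑ i ∈ range m, ∑ j ∈ range m, A0 i j :=
      single_le_sum (f := fun i : ℕ => ∑ j ∈ range m, A0 i j) (fun i _ => sum_nonneg fun j _ => (hA0 i j).le) hi
    exact h1.trans h2
  refine ⟨max B 1, lt_max_of_lt_right one_pos, fun A hA k o m' hm' => ?_⟩
  have e : ∀ a : ℤ, ∃ i ∈ range m, a ≡ (i : ℤ) [ZMOD m] := by
    intro a
    have h1 := Int.emod_nonneg a hm0.ne'
    have h2 := Int.emod_lt_of_pos a hm0
    refine ⟨(a % m).toNat, mem_range.2 (by omega), ?_⟩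
    rw [Int.toNat_of_nonneg h1]
    unfold Int.ModEq
    rw [Int.emod_emod_of_dvd _ dvd_rfl]
  obtain ⟨i, hi, hki⟩ := e k
  obtain ⟨j, hj, hoj⟩ := e o
  rw [CF_mod d F f hki hoj]
  exact hA0' i j A ((hB i hi j hj).trans ((le_max_left _ _).trans hA)) m' hm'

theorem LC_sub_LF {d : ℤ} {F : Finset ℤ} {f : ℤ} {m : ℕ} {s k o : ℤ} : LC d F f m s k o ⊆ LF d F f s := by
  rintro x ⟨j, h0, h1, _, _⟩
  refine ⟨⟨j, h1⟩, ?_⟩
  rintro ⟨j', hj', h'⟩
  have := (Hit_unique h1 h').2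
  omega

theorem LC_sub_CF {d : ℤ} {F : Finset ℤ} {f : ℤ} {m : ℕ} {s k o : ℤ} : LC d F f m s k o ⊆ CF d F f m k o := by
  rintro x ⟨j, _, h1, h2, h3⟩
  exact ⟨j, h1, h2, h3⟩

theorem EC_sub_EF {d : ℤ} {F : Finset ℤ} {f : ℤ} {m : ℕ} {s k o : ℤ} : EC d F f m s k o ⊆ EF d F f s := by
  rintro x ⟨j, h0, h1, _, _⟩
  exact ⟨j, h0, h1⟩

theorem EC_sub_CF {d : ℤ} {F : Finset ℤ} {f : ℤ} {m : ℕ} {s k o : ℤ} : EC d F f m s k o ⊆ CF d F f m k o := by
  rintro x ⟨j, _, h1, h2, h3⟩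
  exact ⟨j, h1, h2, h3⟩

theorem late_cltC {d : ℤ} (hd : Odd d) (hd3 : IsCoprime d 3) (F : Finset ℤ) (f : ℤ) {m : ℕ} {δ : ℝ} (hδ : 0 ≤ δ)
    (hM : ∀ ε : ℝ, 0 < ε → ∃ A0 : ℝ, 0 < A0 ∧ ∀ A : ℝ, A0 ≤ A → ∀ (k o : ℤ) (m' : ℕ), (m' : ℝ) ^ 2 ≤ Real.log A →
      PB (CF d F f m k o) A m' (δ + ε)) (c : ℤ) (z : ℝ) {ε : ℝ} (hε : 0 < ε) :
    ∃ A0 : ℝ, 0 < A0 ∧ ∀ A : ℝ, A0 ≤ A → ∀ s b : ℤ, Real.log A / mu + z * sg * Real.sqrt (Real.log A) ≤ s →
      PB (LC d F f m s (s + c) b) A 0 (δ * (1 - Phi z) + ε) := by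
  classical
  have hc0 := c0_pos
  have he : 0 < ε / (8 * (δ + 1)) := by positivity
  obtain ⟨θ, hθ, hθ'⟩ := M_Phi_near (-z) he
  have h2p : 0 < min 1 (ε / 8) := by apply lt_min <;> linarith
  obtain ⟨AM, hAM, hAM'⟩ := hM _ h2p
  obtain ⟨Kt, At, hKt, hAt, htight⟩ := late_tightF hd hd3 F f (show 0 < ε / 8 by positivity)
  obtain ⟨J, hJ1, L2, hL2⟩ := key_len z Kt hθ
  obtain ⟨K0, hK0⟩ := word_clt (-z + θ) he
  obtain ⟨L3, hL3⟩ := M_large J hJ1 K0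
  obtain ⟨CR, hCR, hCR'⟩ := RF_Sp hd hd3 F
  obtain ⟨L0, hL0⟩ := M_core2 hd hd3 (S := fun s b => LC d F f m s (s + c) b) (Q := RF d F) (CQ := CR) hCR
    (fun A hA h8 m hm => hCR' A hA (by linarith) m hm)
    (fun s b w hw M x hMo hx hM0 hMS h => by
      have h1 := LC_word hd hw hMo hx hMS h
      have e : s + c - (w.sum : ℤ) = s - w.sum + c := by ring
      rw [e] at h1
      exact h1)
    (δ' := δ + min 1 (ε / 8)) (η := ε / 8) (by positivity) (by positivity)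
    (fun B t => t < Kt * B) (At := max At AM) (lt_max_of_lt_left hAt)
    (by
      intro A hA s b m' hm B hB hb
      refine PB_sub (fun x _ _ hx => LC_sub_LF hx) (htight A ((le_max_left _ _).trans hA) s ?_ m' hm)
      have h1 : Kt * Real.sqrt (Real.log A) ≤ Kt * B := mul_le_mul_of_nonneg_left hB (by linarith)
      linarith [not_lt.1 hb])
    (by
      intro A hA s b m' hm
      exact PB_sub (fun x _ _ hx => LC_sub_CF hx) (hAM' A ((le_max_right _ _).trans hA) _ _ m' hm))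
    J (show 0 < ε / 8 by positivity)
  refine ⟨Real.exp (max (max L0 L2) L3), Real.exp_pos _, ?_⟩
  intro A hA s b hs
  have hA0 : 0 < A := lt_of_lt_of_le (Real.exp_pos _) hA
  have hLA : max (max L0 L2) L3 ≤ Real.log A := by
    rw [Real.le_log_iff_exp_le hA0]; exact hA
  obtain ⟨K, cap, hK, hPB⟩ := hL0 A hA0 (((le_max_left _ _).trans (le_max_left _ _)).trans hLA)
  have hkey := hL2 (Real.log A) (((le_max_right _ _).trans (le_max_left _ _)).trans hLA) K hK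
  have hKK := hL3 (Real.log A) ((le_max_right _ _).trans hLA) K hK
  refine PB_mono hA0 ?_ (hPB s b)
  refine M_arith hδ (by linarith [M_Phi_nonneg z]) hε rfl ?_ rfl rfl
  have hw := (hK0 K hKK cap).1
  rw [Phi_neg] at hθ'
  refine le_trans ?_ (hw.trans (by linarith))
  apply sum_le_sum_of_subset_of_nonneg
  · intro w hw
    rw [mem_filter] at hw ⊢
    refine ⟨hw.1, ?_⟩
    have h1 := hw.2
    have h2 : c0 * ((w.sum : ℝ) - 2 * (K : ℝ)) ≤ c0 * ((-z + θ) * Real.sqrt (2 * K)) := by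
      linarith
    have h3 := le_of_mul_le_mul_left h2 hc0
    linarith
  · intro w _ _
    exact wwt_nonneg w

theorem early_cltC {d : ℤ} (hd : Odd d) (hd3 : IsCoprime d 3) (F : Finset ℤ) (f : ℤ) {m : ℕ} {δ : ℝ} (hδ : 0 ≤ δ)
    (hM : ∀ ε : ℝ, 0 < ε → ∃ A0 : ℝ, 0 < A0 ∧ ∀ A : ℝ, A0 ≤ A → ∀ (k o : ℤ) (m' : ℕ), (m' : ℝ) ^ 2 ≤ Real.log A →
      PB (CF d F f m k o) A m' (δ + ε)) (c : ℤ) (z : ℝ) {ε : ℝ} (hε : 0 < ε) :
    ∃ A0 : ℝ, 0 < A0 ∧ ∀ A : ℝ, A0 ≤ A → ∀ s b : ℤ, (s : ℝ) ≤ Real.log A / mu + z * sg * Real.sqrt (Real.log A) →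
      PB (EC d F f m s (s + c) b) A 0 (δ * Phi z + ε) := by
  classical
  have hc0 := c0_pos
  have he : 0 < ε / (8 * (δ + 1)) := by positivity
  obtain ⟨θ, hθ, hθ'⟩ := M_Phi_near z he
  have h2p : 0 < min 1 (ε / 8) := by apply lt_min <;> linarith
  obtain ⟨AM, hAM, hAM'⟩ := hM _ h2p
  obtain ⟨Kt, At, hKt, hAt, htight⟩ := early_tight hd hd3 (RF_FC d F) (RF_Sp hd hd3 F) (show 0 < ε / 8 by positivity)
  obtain ⟨J, hJ1, L2, hL2⟩ := key_len (-z) Kt hθ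
  obtain ⟨K0, hK0⟩ := word_clt (-(z + θ)) he
  obtain ⟨L3, hL3⟩ := M_large J hJ1 K0
  obtain ⟨CR, hCR, hCR'⟩ := RF_Sp hd hd3 F
  obtain ⟨L0, hL0⟩ := M_core2 hd hd3 (S := fun s b => EC d F f m s (s + c) b) (Q := RF d F) (CQ := CR) hCR
    (fun A hA h8 m hm => hCR' A hA (by linarith) m hm)
    (fun s b w hw M x hMo hx hM0 hMS h => by
      have h1 := EC_word hd hw hMo hx hMS h
      have e : s + c - (w.sum : ℤ) = s - w.sum + c := by ring
      rw [e] at h1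
      exact h1)
    (δ' := δ + min 1 (ε / 8)) (η := ε / 8) (by positivity) (by positivity)
    (fun B t => -(Kt * B) < t) (At := max At AM) (lt_max_of_lt_left hAt)
    (by
      intro A hA s b m' hm B hB hb
      refine PB_sub (fun x _ _ hx => EF_sub_Ea d F f s (EC_sub_EF hx))
        (htight A ((le_max_left _ _).trans hA) s ?_ m' hm)
      have h1 : Kt * Real.sqrt (Real.log A) ≤ Kt * B := mul_le_mul_of_nonneg_left hB (by linarith)
      linarith [not_lt.1 hb])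
    (by
      intro A hA s b m' hm
      exact PB_sub (fun x _ _ hx => EC_sub_CF hx) (hAM' A ((le_max_right _ _).trans hA) _ _ m' hm))
    J (show 0 < ε / 8 by positivity)
  refine ⟨Real.exp (max (max L0 L2) L3), Real.exp_pos _, ?_⟩
  intro A hA s b hs
  have hA0 : 0 < A := lt_of_lt_of_le (Real.exp_pos _) hA
  have hLA : max (max L0 L2) L3 ≤ Real.log A := by
    rw [Real.le_log_iff_exp_le hA0]; exact hA
  obtain ⟨K, cap, hK, hPB⟩ := hL0 A hA0 (((le_max_left _ _).trans (le_max_left _ _)).trans hLA)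
  have hkey := hL2 (Real.log A) (((le_max_right _ _).trans (le_max_left _ _)).trans hLA) K hK
  have hKK := hL3 (Real.log A) ((le_max_right _ _).trans hLA) K hK
  refine PB_mono hA0 ?_ (hPB s b)
  refine M_arith hδ (M_Phi_le_one z) hε rfl ?_ rfl rfl
  have hw := (hK0 K hKK cap).2
  rw [Phi_neg] at hw
  refine le_trans ?_ (hw.trans (by linarith))
  apply sum_le_sum_of_subset_of_nonneg
  · intro w hw
    rw [mem_filter] at hw ⊢
    refine ⟨hw.1, ?_⟩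
    have h1 := hw.2
    have h2 : c0 * (-((z + θ) * Real.sqrt (2 * K))) ≤ c0 * ((w.sum : ℝ) - 2 * (K : ℝ)) := by
      rw [neg_neg] at hkey
      linarith
    have h3 := le_of_mul_le_mul_left h2 hc0
    linarith
  · intro w _ _
    exact wwt_nonneg w

theorem mod_rep {m : ℕ} (hm : 1 ≤ m) (a : ℤ) : ∃ i ∈ range m, a ≡ (i : ℤ) [ZMOD m] := by
  have hm0 : (0 : ℤ) < m := by exact_mod_cast hm
  have h1 := Int.emod_nonneg a hm0.ne'
  have h2 := Int.emod_lt_of_pos a hm0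
  refine ⟨(a % m).toNat, mem_range.2 (by omega), ?_⟩
  rw [Int.toNat_of_nonneg h1]
  unfold Int.ModEq
  rw [Int.emod_emod_of_dvd _ dvd_rfl]

theorem late_cltC' {d : ℤ} (hd : Odd d) (hd3 : IsCoprime d 3) (F : Finset ℤ) (f : ℤ) {m : ℕ} (hm : 1 ≤ m) {δ : ℝ}
    (hδ : 0 ≤ δ)
    (hM : ∀ ε : ℝ, 0 < ε → ∃ A0 : ℝ, 0 < A0 ∧ ∀ A : ℝ, A0 ≤ A → ∀ (k o : ℤ) (m' : ℕ), (m' : ℝ) ^ 2 ≤ Real.log A →
      PB (CF d F f m k o) A m' (δ + ε)) (z : ℝ) {ε : ℝ} (hε : 0 < ε) :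
    ∃ A0 : ℝ, 0 < A0 ∧ ∀ A : ℝ, A0 ≤ A → ∀ s k b : ℤ, Real.log A / mu + z * sg * Real.sqrt (Real.log A) ≤ s →
      PB (LC d F f m s k b) A 0 (δ * (1 - Phi z) + ε) := by
  choose A0 hA0 hA0' using fun c : ℤ => late_cltC hd hd3 F f hδ hM c z hε
  refine ⟨∑ i ∈ range m, A0 i, sum_pos (fun i _ => hA0 i) ⟨0, mem_range.2 hm⟩, fun A hA s k b hs => ?_⟩
  obtain ⟨i, hi, hki⟩ := mod_rep hm (k - s)
  have h1 : A0 i ≤ A := (single_le_sum (f := fun i : ℕ => A0 i) (fun i _ => (hA0 i).le) hi).trans hA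
  have h2 := hA0' i A h1 s b hs
  have e : k ≡ s + i [ZMOD m] := by
    have := hki.add_left s
    rwa [show s + (k - s) = k by ring] at this
  rwa [LC_mod d F f s e (Int.ModEq.refl b)]

theorem early_cltC' {d : ℤ} (hd : Odd d) (hd3 : IsCoprime d 3) (F : Finset ℤ) (f : ℤ) {m : ℕ} (hm : 1 ≤ m) {δ : ℝ}
    (hδ : 0 ≤ δ)
    (hM : ∀ ε : ℝ, 0 < ε → ∃ A0 : ℝ, 0 < A0 ∧ ∀ A : ℝ, A0 ≤ A → ∀ (k o : ℤ) (m' : ℕ), (m' : ℝ) ^ 2 ≤ Real.log A →
      PB (CF d F f m k o) A m' (δ + ε)) (z : ℝ) {ε : ℝ} (hε : 0 < ε) :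
    ∃ A0 : ℝ, 0 < A0 ∧ ∀ A : ℝ, A0 ≤ A → ∀ s k b : ℤ, (s : ℝ) ≤ Real.log A / mu + z * sg * Real.sqrt (Real.log A) →
      PB (EC d F f m s k b) A 0 (δ * Phi z + ε) := by
  choose A0 hA0 hA0' using fun c : ℤ => early_cltC hd hd3 F f hδ hM c z hε
  refine ⟨∑ i ∈ range m, A0 i, sum_pos (fun i _ => hA0 i) ⟨0, mem_range.2 hm⟩, fun A hA s k b hs => ?_⟩
  obtain ⟨i, hi, hki⟩ := mod_rep hm (k - s)
  have h1 : A0 i ≤ A := (single_le_sum (f := fun i : ℕ => A0 i) (fun i _ => (hA0 i).le) hi).trans hA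
  have h2 := hA0' i A h1 s b hs
  have e : k ≡ s + i [ZMOD m] := by
    have := hki.add_left s
    rwa [show s + (k - s) = k by ring] at this
  rwa [EC_mod d F f s e (Int.ModEq.refl b)]

end Pool.Agent.H499R2.LT
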