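import Pool.Agent.H33.G.R_seed8.H499R2.LT.E3

/-! Project LT, part M: the joint law, positive side. -/

set_option autoImplicit false

namespace Pool.Agent.H499R2.LT

open Pool.Agent.H320R2.PD Finset Filter Topology

open Pool.Agent.H499R2.ND hiding La Ea Me FC Bg Ea_word La_word

open Pool.Agent.H499R2.CZ

open Pool.Agent.H319R2.Lln (mu)

/-- the event: the first hit is `f`, within the given time, in the given classes -/
def evC (d : ℤ) (F : Finset ℤ) (f : ℤ) (m : ℕ) (k o : ℤ) (x : ℝ) (n : ℕ) : Prop :=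
  ∃ j : ℕ, (j : ℝ) ≤ Real.log n / mu + x * sg * Real.sqrt (Real.log n) ∧ Hit d F f (n : ℤ) j ∧
    (j : ℤ) ≡ k [ZMOD m] ∧ od d j n ≡ o [ZMOD m]

theorem od_two_pow (d : ℤ) (b : ℕ) (x : ℤ) : od d b (2 ^ b * x) = 0 := lta_od_two_pow d b x

theorem od_two_pow_add (d : ℤ) (b k : ℕ) (x : ℤ) : od d (b + k) (2 ^ b * x) = od d k x := by
  rw [od_add, od_two_pow, Td_two_pow', zero_add]

/-- upper bound of the early event -/
theorem C_upper {d : ℤ} (hd : Odd d) (hd3 : IsCoprime d 3) (F : Finset ℤ) (f : ℤ)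
    {δ : ℝ} (hδ : HD 1 (PF d F f) δ) {m : ℕ} (hm : 1 ≤ m) (κ ω : ℤ) (x : ℝ) {ε : ℝ} (hε : 0 < ε) :
    ∀ᶠ N : ℕ in atTop, cnt (evC d F f m κ ω x) N ≤ (δ / m ^ 2 * Phi x + ε) * N := by
  have hδ0' := dn_nonneg (dn_of_HD' hδ)
  have hm0 : (0 : ℝ) < m := by exact_mod_cast hm
  set D := δ / (m : ℝ) ^ 2 with hD
  have hδ0 : 0 ≤ D := by positivity
  have he : 0 < ε / (2 * (D + 1)) := by positivity
  obtain ⟨θ, hθ, hθ'⟩ := M_Phi_near x he
  have h := dens_of_windows (Q := evC d F f m κ ω x) (ρ := D * Phi (x + θ)) (mul_nonneg hδ0 (M_Phi_nonneg _))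
    (by
      intro b ε' hε'
      obtain ⟨A1, hA1, hA1'⟩ := early_cltC' hd hd3 F f hm hδ0 (class_PBC hd hd3 F f hδ hm) (x + θ)
        (show 0 < ε' / 2 by positivity)
      obtain ⟨A2, hA2, hA2'⟩ := O_win x hθ (E := (b + 1) * Real.log 2) (D := 0)
        (by have := Real.log_pos (by norm_num : (1 : ℝ) < 2); positivity) le_rfl
      obtain ⟨CR, hCR, hCR'⟩ := RF_Sp hd hd3 F
      refine ⟨max (max A1 A2) (Real.exp (max 1 (CR / (ε' / 2)))), lt_max_of_lt_left (lt_max_of_lt_left hA1), ?_⟩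
      intro A hA
      have hA0 : 0 < A := hA1.trans_le (((le_max_left _ _).trans (le_max_left _ _)).trans hA)
      obtain ⟨hL1, hw⟩ := hA2' A (((le_max_right _ _).trans (le_max_left _ _)).trans hA)
      have hLA : max 1 (CR / (ε' / 2)) ≤ Real.log A := by
        rw [Real.le_log_iff_exp_le hA0]; exact (le_max_right _ _).trans hA
      have hL1' : 1 ≤ Real.log A := (le_max_left _ _).trans hLA
      have hL2 : CR / (ε' / 2) ≤ Real.log A := (le_max_right _ _).trans hLA
      have hP2 : PB (RF d F) A 0 (CR / Real.log A) := hCR' A hA0 hL1' 0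
        (by simpa using (by linarith : (0 : ℝ) ≤ Real.log A))
      have hPB := hA1' A (((le_max_left _ _).trans (le_max_left _ _)).trans hA)
        ⌊Real.log A / mu + (x + θ) * sg * Real.sqrt (Real.log A)⌋ (κ - b) ω (Int.floor_le _)
      have hle : D * Phi (x + θ) + ε' / 2 + CR / Real.log A ≤ D * Phi (x + θ) + ε' := by
        have : CR / Real.log A ≤ ε' / 2 := by
          rw [div_le_iff₀ (by linarith)]
          rw [div_le_iff₀ (by positivity)] at hL2
          linarith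
        linarith
      refine PB_sub (fun y hy1 hy2 hy => ?_) (PB_mono hA0 hle (PB_union hPB hP2))
      obtain ⟨hy0, k, hk, hj, hkκ, hoω⟩ := hy
      obtain ⟨hl1, hl2⟩ := O_log hA0 (e := b) hy1 hy2
      have hk2 := (hw _ hl1 hl2).1
      rw [add_zero] at hk2
      have hk3 : (k : ℤ) ≤ ⌊Real.log A / mu + (x + θ) * sg * Real.sqrt (Real.log A)⌋ := by
        rw [Int.le_floor]
        exact_mod_cast hk.trans hk2
      obtain ⟨n, rfl⟩ : ∃ n : ℕ, y = n := ⟨y.toNat, (Int.toNat_of_nonneg (by omega)).symm⟩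
      rw [Int.toNat_natCast, cast_pow'] at hj hoω
      rcases Hit_two_pow hj with ⟨hbk, h⟩ | h
      · refine Or.inl ⟨k - b, by omega, h, ?_, ?_⟩
        · have h1 := hkκ.sub_right (b : ℤ)
          rwa [show ((k : ℤ) - b) = ((k - b : ℕ) : ℤ) by omega] at h1
        · have h1 := od_two_pow_add d b (k - b) (n : ℤ)
          rw [show b + (k - b) = k by omega] at h1
          rwa [← h1]
      · exact Or.inr h)
    (show 0 < ε / 2 by positivity)
  filter_upwards [h] with N hN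
  refine hN.trans ?_
  apply mul_le_mul_of_nonneg_right _ (Nat.cast_nonneg N)
  have h1 : D * Phi (x + θ) ≤ D * (Phi x + ε / (2 * (D + 1))) := mul_le_mul_of_nonneg_left hθ' hδ0
  have h2 : D * (ε / (2 * (D + 1))) ≤ ε / 2 := by
    have : D * (ε / (2 * (D + 1))) = ε / 2 * (D / (D + 1)) := by field_simp
    rw [this]
    have h3 : D / (D + 1) ≤ 1 := by rw [div_le_one (by positivity)]; linarith
    nlinarith
  linarith

/-- upper bound of the late event -/
theorem C_lower {d : ℤ} (hd : Odd d) (hd3 : IsCoprime d 3) (F : Finset ℤ) (f : ℤ)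
    {δ : ℝ} (hδ : HD 1 (PF d F f) δ) {m : ℕ} (hm : 1 ≤ m) (κ ω : ℤ) (x : ℝ) {ε : ℝ} (hε : 0 < ε) :
    ∀ᶠ N : ℕ in atTop, cnt (fun n => (n : ℤ) ∈ CF d F f m κ ω ∧ ¬ evC d F f m κ ω x n) N
      ≤ (δ / m ^ 2 * (1 - Phi x) + ε) * N := by
  have hδ0' := dn_nonneg (dn_of_HD' hδ)
  have hm0 : (0 : ℝ) < m := by exact_mod_cast hm
  set D := δ / (m : ℝ) ^ 2 with hD
  have hδ0 : 0 ≤ D := by positivity
  have he : 0 < ε / (2 * (D + 1)) := by positivity
  obtain ⟨θ, hθ, hθ'⟩ := M_Phi_near (-x) he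
  have hq : 1 - Phi (x - θ) ≤ 1 - Phi x + ε / (2 * (D + 1)) := by
    have e1 : Phi (-x + θ) = 1 - Phi (x - θ) := by
      rw [← Phi_neg]; congr 1; ring
    rw [e1, Phi_neg] at hθ'
    exact hθ'
  have h := dens_of_windows (Q := fun n => (n : ℤ) ∈ CF d F f m κ ω ∧ ¬ evC d F f m κ ω x n)
    (ρ := D * (1 - Phi (x - θ)))
    (mul_nonneg hδ0 (by linarith [M_Phi_le_one (x - θ)]))
    (by
      intro b ε' hε'
      obtain ⟨A1, hA1, hA1'⟩ := late_cltC' hd hd3 F f hm hδ0 (class_PBC hd hd3 F f hδ hm) (x - θ)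
        (show 0 < ε' / 2 by positivity)
      obtain ⟨A2, hA2, hA2'⟩ := O_win x hθ (E := (b + 1) * Real.log 2) (D := b + 1)
        (by have := Real.log_pos (by norm_num : (1 : ℝ) < 2); positivity) (by positivity)
      obtain ⟨CR, hCR, hCR'⟩ := RF_Sp hd hd3 F
      refine ⟨max (max A1 A2) (Real.exp (max 1 (CR / (ε' / 2)))), lt_max_of_lt_left (lt_max_of_lt_left hA1), ?_⟩
      intro A hA
      have hA0 : 0 < A := hA1.trans_le (((le_max_left _ _).trans (le_max_left _ _)).trans hA)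
      obtain ⟨hL1, hw⟩ := hA2' A (((le_max_right _ _).trans (le_max_left _ _)).trans hA)
      have hLA : max 1 (CR / (ε' / 2)) ≤ Real.log A := by
        rw [Real.le_log_iff_exp_le hA0]; exact (le_max_right _ _).trans hA
      have hL1' : 1 ≤ Real.log A := (le_max_left _ _).trans hLA
      have hL2 : CR / (ε' / 2) ≤ Real.log A := (le_max_right _ _).trans hLA
      have hP2 : PB (RF d F) A 0 (CR / Real.log A) := hCR' A hA0 hL1' 0
        (by simpa using (by linarith : (0 : ℝ) ≤ Real.log A))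
      have hPB := hA1' A (((le_max_left _ _).trans (le_max_left _ _)).trans hA)
        ⌈Real.log A / mu + (x - θ) * sg * Real.sqrt (Real.log A)⌉ (κ - b) ω (Int.le_ceil _)
      have hle : D * (1 - Phi (x - θ)) + ε' / 2 + CR / Real.log A ≤ D * (1 - Phi (x - θ)) + ε' := by
        have : CR / Real.log A ≤ ε' / 2 := by
          rw [div_le_iff₀ (by linarith)]
          rw [div_le_iff₀ (by positivity)] at hL2
          linarith
        linarith
      refine PB_sub (fun y hy1 hy2 hy => ?_) (PB_mono hA0 hle (PB_union hPB hP2))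
      obtain ⟨hy0, hC, hE⟩ := hy
      obtain ⟨hl1, hl2⟩ := O_log hA0 (e := b) hy1 hy2
      have hk2 := (hw _ hl1 hl2).2
      obtain ⟨n, rfl⟩ : ∃ n : ℕ, y = n := ⟨y.toNat, (Int.toNat_of_nonneg (by omega)).symm⟩
      rw [Int.toNat_natCast] at hC hE hk2
      by_cases hnR : (n : ℤ) ∈ RF d F
      · exact Or.inr hnR
      left
      obtain ⟨k, hk, hkκ, hoω⟩ := hC
      rw [cast_pow'] at hk hoω
      rcases Hit_two_pow hk with ⟨hbk, h⟩ | h
      swap
      · exact absurd h hnR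
      refine ⟨k - b, ?_, h, ?_, ?_⟩
      · by_contra hcon
        push Not at hcon
        apply hE
        refine ⟨k, ?_, by rw [cast_pow']; exact hk, hkκ, by rw [cast_pow']; exact hoω⟩
        refine le_trans ?_ hk2
        have h1 := Int.ceil_lt_add_one (Real.log A / mu + (x - θ) * sg * Real.sqrt (Real.log A))
        have h2 : ((k - b : ℕ) : ℝ) ≤ (⌈Real.log A / mu + (x - θ) * sg * Real.sqrt (Real.log A)⌉ : ℝ) := by
          exact_mod_cast hcon
        rw [Nat.cast_sub hbk] at h2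
        linarith
      · have h1 := hkκ.sub_right (b : ℤ)
        rwa [show ((k : ℤ) - b) = ((k - b : ℕ) : ℤ) by omega] at h1
      · have h1 := od_two_pow_add d b (k - b) (n : ℤ)
        rw [show b + (k - b) = k by omega] at h1
        rwa [← h1])
    (show 0 < ε / 2 by positivity)
  filter_upwards [h] with N hN
  refine hN.trans ?_
  apply mul_le_mul_of_nonneg_right _ (Nat.cast_nonneg N)
  have h1 : D * (1 - Phi (x - θ)) ≤ D * (1 - Phi x + ε / (2 * (D + 1))) := mul_le_mul_of_nonneg_left hq hδ0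
  have h2 : D * (ε / (2 * (D + 1))) ≤ ε / 2 := by
    have : D * (ε / (2 * (D + 1))) = ε / 2 * (D / (D + 1)) := by field_simp
    rw [this]
    have h3 : D / (D + 1) ≤ 1 := by rw [div_le_one (by positivity)]; linarith
    nlinarith
  linarith

theorem dn_of_G {S : Set ℤ} {l : ℝ} (h : Tendsto (fun X : ℝ => G S X / X) atTop (𝓝 l)) :
    Dn (fun n : ℕ => (n : ℤ) ∈ S) l := by
  apply dn_of_HD'
  unfold HD
  simpa only [one_mul, Set.ofPred_mem_eq] using h

/-- JOINT LAW of the hitting time and of the classes, for exact hits -/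
theorem cltC {d : ℤ} (hd : Odd d) (hd3 : IsCoprime d 3) (F : Finset ℤ) (f : ℤ)
    {δ : ℝ} (hδ : HD 1 (PF d F f) δ) {m : ℕ} (hm : 1 ≤ m) (κ ω : ℤ) (x : ℝ) :
    Dn (evC d F f m κ ω x) (δ / m ^ 2 * Phi x) := by
  unfold Dn
  rw [Metric.tendsto_atTop']
  intro ε hε
  have h1 := C_upper hd hd3 F f hδ hm κ ω x (show 0 < ε / 4 by positivity)
  have h2 := C_lower hd hd3 F f hδ hm κ ω x (show 0 < ε / 4 by positivity)
  have hdn := dn_of_G (CF_dens hd hd3 F f hδ hm κ ω)
  set D := δ / (m : ℝ) ^ 2 with hD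
  have h3 : ∀ᶠ N : ℕ in atTop, D - ε / 4 < cnt (fun n : ℕ => (n : ℤ) ∈ CF d F f m κ ω) N / N :=
    (Tendsto.eventually hdn (lt_mem_nhds (by linarith)))
  obtain ⟨N0, hN0⟩ := eventually_atTop.1 (h1.and (h2.and (h3.and (eventually_gt_atTop 0))))
  refine ⟨N0, fun N hN => ?_⟩
  obtain ⟨h1, h2, h3, h4⟩ := hN0 N hN.le
  have hN' : (0 : ℝ) < N := by exact_mod_cast h4
  rw [lt_div_iff₀ hN'] at h3
  have h5 : cnt (fun n : ℕ => (n : ℤ) ∈ CF d F f m κ ω) N ≤ cnt (evC d F f m κ ω x) N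
      + cnt (fun n => (n : ℤ) ∈ CF d F f m κ ω ∧ ¬ evC d F f m κ ω x n) N := by
    apply cnt_or
    intro n _ _ hn
    by_cases h : evC d F f m κ ω x n
    · exact Or.inl h
    · exact Or.inr ⟨hn, h⟩
  rw [Real.dist_eq, abs_lt]
  constructor
  · rw [neg_lt_sub_iff_lt_add, ← sub_lt_iff_lt_add', lt_div_iff₀ hN']
    nlinarith
  · rw [sub_lt_iff_lt_add', div_lt_iff₀ hN']
    nlinarith

end Pool.Agent.H499R2.LT
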