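import Mathlib

/-! Project LT, task F3, part 1 (helper662): from natural density to logarithmic density in windows. -/

set_option autoImplicit false

namespace Pool.Agent.H499R2.LT.F3

open Finset Filter Topology

/-- Abel summation with an error term -/
theorem abel (f D : ℕ → ℝ) (hD : ∀ n, D (n + 1) = D n + f (n + 1)) {ε : ℝ} {a : ℕ} (ha : 1 ≤ a)
    (hε : ∀ n, a ≤ n → |D n| ≤ ε * n) (b : ℕ) (hab : a ≤ b) :
    |∑ n ∈ Ioc a b, f n / n| ≤ ε * (2 + ∑ n ∈ Ioc a b, (1 : ℝ) / n) := by
  have h1 : ∀ b, a ≤ b → |∑ n ∈ Ioc a b, f n / n - (D b / b - D a / a)| ≤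
      ε * ∑ n ∈ Ioc a b, (1 : ℝ) / n := by
    intro b hab
    induction b, hab using Nat.le_induction with
    | base => simp
    | succ b hab ih =>
      have e1 : Ioc a (b + 1) = insert (b + 1) (Ioc a b) := by
        ext x
        simp only [mem_Ioc, mem_insert]
        omega
      have e2 : b + 1 ∉ Ioc a b := by simp
      rw [e1, sum_insert e2, sum_insert e2]
      have hb : (0 : ℝ) < b := by
        have : 1 ≤ b := le_trans ha hab
        exact_mod_cast this
      have hb1 : ((b + 1 : ℕ) : ℝ) = b + 1 := by push_cast; ring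
      rw [hb1]
      have e3 : f (b + 1) / ((b : ℝ) + 1) + ∑ n ∈ Ioc a b, f n / n -
          (D (b + 1) / ((b : ℝ) + 1) - D a / a) =
          (∑ n ∈ Ioc a b, f n / n - (D b / b - D a / a)) + D b * (1 / b - 1 / ((b : ℝ) + 1)) := by
        have : f (b + 1) = D (b + 1) - D b := by rw [hD b]; ring
        rw [this]
        field_simp
        ring
      rw [e3]
      refine (abs_add_le _ _).trans ?_
      have e4 : |D b * (1 / b - 1 / ((b : ℝ) + 1))| ≤ ε * (1 / ((b : ℝ) + 1)) := by
        have e5 : (1 : ℝ) / b - 1 / ((b : ℝ) + 1) = 1 / (b * (b + 1)) := by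
          field_simp
          ring
        rw [e5, abs_mul, abs_of_pos (by positivity : (0 : ℝ) < 1 / (b * (b + 1)))]
        calc |D b| * (1 / (b * ((b : ℝ) + 1))) ≤ (ε * b) * (1 / (b * ((b : ℝ) + 1))) :=
              mul_le_mul_of_nonneg_right (hε b hab) (by positivity)
          _ = ε * (1 / ((b : ℝ) + 1)) := by field_simp
      linarith [ih]
  have ha0 : (0 : ℝ) < a := by exact_mod_cast ha
  have hb0 : (0 : ℝ) < b := by exact_mod_cast (le_trans ha hab)
  have h2 := h1 b hab
  have h3 : |D b / b| ≤ ε := by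
    rw [abs_div, abs_of_pos hb0, div_le_iff₀ hb0]
    exact hε b hab
  have h4 : |D a / a| ≤ ε := by
    rw [abs_div, abs_of_pos ha0, div_le_iff₀ ha0]
    exact hε a le_rfl
  have h5 := abs_le.1 h2
  have h6 := abs_le.1 h3
  have h7 := abs_le.1 h4
  rw [abs_le]
  constructor <;> nlinarith

/-- the last integer before the window -/
noncomputable def wa (t : ℝ) : ℕ := ⌈Real.exp t⌉₊ - 1

theorem ceil_pos (t : ℝ) : 1 ≤ ⌈Real.exp t⌉₊ := Nat.one_le_ceil_iff.2 (Real.exp_pos t)

theorem mem_window {t L : ℝ} (n : ℕ) :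
    n ∈ Ioc (wa t) (wa (t + L)) ↔ 1 ≤ n ∧ t ≤ Real.log n ∧ Real.log n < t + L := by
  have h1 := ceil_pos t
  have h2 := ceil_pos (t + L)
  rw [mem_Ioc]
  unfold wa
  constructor
  · rintro ⟨h3, h4⟩
    have h5 : 1 ≤ n := by omega
    have hn : (0 : ℝ) < n := by exact_mod_cast h5
    refine ⟨h5, ?_, ?_⟩
    · rw [Real.le_log_iff_exp_le hn]
      have : ⌈Real.exp t⌉₊ ≤ n := by omega
      exact Nat.ceil_le.1 this
    · rw [Real.log_lt_iff_lt_exp hn]
      have : n < ⌈Real.exp (t + L)⌉₊ := by omega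
      exact Nat.lt_ceil.1 this
  · rintro ⟨h5, h6, h7⟩
    have hn : (0 : ℝ) < n := by exact_mod_cast h5
    rw [Real.le_log_iff_exp_le hn] at h6
    rw [Real.log_lt_iff_lt_exp hn] at h7
    have h8 : ⌈Real.exp t⌉₊ ≤ n := Nat.ceil_le.2 h6
    have h9 : n < ⌈Real.exp (t + L)⌉₊ := Nat.lt_ceil.2 h7
    omega

theorem wa_mono {s t : ℝ} (h : s ≤ t) : wa s ≤ wa t := by
  unfold wa
  exact Nat.sub_le_sub_right (Nat.ceil_mono (Real.exp_le_exp.2 h)) 1

theorem tendsto_wa : Tendsto wa atTop atTop := by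
  unfold wa
  exact (tendsto_sub_atTop_nat 1).comp (tendsto_nat_ceil_atTop.comp Real.tendsto_exp_atTop)

theorem tendsto_log_wa : Tendsto (fun t : ℝ => Real.log (wa t) - t) atTop (𝓝 0) := by
  have h1 : Tendsto (fun t : ℝ => (wa t : ℝ) / Real.exp t) atTop (𝓝 1) := by
    have l1 : Tendsto (fun t : ℝ => 1 - (Real.exp t)⁻¹) atTop (𝓝 1) := by
      have := (tendsto_inv_atTop_zero.comp Real.tendsto_exp_atTop).const_sub (1 : ℝ)
      rw [sub_zero] at this
      exact this
    refine tendsto_of_tendsto_of_tendsto_of_le_of_le l1 tendsto_const_nhds ?_ ?_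
    · intro t
      have he := Real.exp_pos t
      show 1 - (Real.exp t)⁻¹ ≤ (wa t : ℝ) / Real.exp t
      rw [le_div_iff₀ he, sub_mul, inv_mul_cancel₀ he.ne', one_mul]
      unfold wa
      rw [Nat.cast_sub (ceil_pos t)]
      have := Nat.le_ceil (Real.exp t)
      push_cast
      linarith
    · intro t
      have he := Real.exp_pos t
      show (wa t : ℝ) / Real.exp t ≤ 1
      rw [div_le_one he]
      unfold wa
      rw [Nat.cast_sub (ceil_pos t)]
      have := Nat.ceil_lt_add_one he.le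
      push_cast
      linarith
  have h2 : Tendsto (fun t : ℝ => Real.log ((wa t : ℝ) / Real.exp t)) atTop (𝓝 0) := by
    have := (Real.continuousAt_log (one_ne_zero)).tendsto.comp h1
    rw [Real.log_one] at this
    exact this
  refine h2.congr' ?_
  filter_upwards [tendsto_wa.eventually_ge_atTop 1] with t ht
  have h3 : (0 : ℝ) < wa t := by exact_mod_cast ht
  rw [Real.log_div h3.ne' (Real.exp_pos t).ne', Real.log_exp]

theorem harmonic_window (L : ℝ) (hL : 0 < L) :
    Tendsto (fun t : ℝ => ∑ n ∈ Ioc (wa t) (wa (t + L)), (1 : ℝ) / n) atTop (𝓝 L) := by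
  have hsum : ∀ t : ℝ, ∑ n ∈ Ioc (wa t) (wa (t + L)), (1 : ℝ) / n =
      ((harmonic (wa (t + L)) : ℚ) : ℝ) - ((harmonic (wa t) : ℚ) : ℝ) := by
    intro t
    have hm := wa_mono (by linarith : t ≤ t + L)
    have hh : ∀ N : ℕ, ((harmonic N : ℚ) : ℝ) = ∑ n ∈ Ioc 0 N, (1 : ℝ) / n := by
      intro N
      induction N with
      | zero => simp
      | succ N ih =>
        have e1 : Ioc 0 (N + 1) = insert (N + 1) (Ioc 0 N) := by
          ext x
          simp only [mem_Ioc, mem_insert]
          omega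
        rw [e1, sum_insert (by simp), ← ih, harmonic_succ]
        push_cast
        ring
    rw [hh, hh, ← Finset.sum_Ioc_consecutive _ (Nat.zero_le (wa t)) hm]
    ring
  have h1 := Real.tendsto_harmonic_sub_log
  have hshift : Tendsto (fun t : ℝ => t + L) atTop atTop := tendsto_atTop_add_const_right _ _ tendsto_id
  have h2 := h1.comp (tendsto_wa.comp hshift)
  have h3 := h1.comp tendsto_wa
  have h4 := tendsto_log_wa.comp hshift
  have h5 := tendsto_log_wa
  have h6 := ((h2.sub h3).add (h4.sub h5)).add_const L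
  rw [sub_self, sub_self, zero_add, zero_add] at h6
  refine h6.congr fun t => ?_
  rw [hsum]
  simp only [Function.comp_apply]
  ring

open Classical in
/-- logarithmic sum over a window -/
noncomputable def WS (P : ℕ → Prop) (L t : ℝ) : ℝ :=
  ∑ n ∈ Ioc (wa t) (wa (t + L)), if P n then (1 : ℝ) / n else 0

open Classical in
theorem WS_tendsto (P : ℕ → Prop) (l : ℝ)
    (hP : Tendsto (fun N : ℕ => (((Icc 1 N).filter P).card : ℝ) / N) atTop (𝓝 l)) (L : ℝ)
    (hL : 0 < L) : Tendsto (WS P L) atTop (𝓝 (l * L)) := by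
  obtain ⟨f, hf⟩ : ∃ f : ℕ → ℝ, f = fun n => (if P n then 1 else 0) - l := ⟨_, rfl⟩
  obtain ⟨D, hDd⟩ : ∃ D : ℕ → ℝ, D = fun N => (((Icc 1 N).filter P).card : ℝ) - l * N := ⟨_, rfl⟩
  have hD : ∀ n, D (n + 1) = D n + f (n + 1) := by
    intro n
    rw [hDd, hf]
    have e1 : Icc 1 (n + 1) = insert (n + 1) (Icc 1 n) := by
      ext x
      simp only [mem_Icc, mem_insert]
      omega
    dsimp only
    rw [e1, filter_insert]
    by_cases h : P (n + 1)
    · rw [if_pos h, if_pos h, card_insert_of_notMem (by simp)]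
      push_cast
      ring
    · rw [if_neg h, if_neg h]
      push_cast
      ring
  have hW : ∀ t, WS P L t = l * ∑ n ∈ Ioc (wa t) (wa (t + L)), (1 : ℝ) / n +
      ∑ n ∈ Ioc (wa t) (wa (t + L)), f n / n := by
    intro t
    unfold WS
    rw [mul_sum, ← sum_add_distrib]
    refine sum_congr rfl fun n _ => ?_
    rw [hf]
    dsimp only
    split_ifs <;> ring
  have hH := harmonic_window L hL
  have hzero : Tendsto (fun t => ∑ n ∈ Ioc (wa t) (wa (t + L)), f n / n) atTop (𝓝 0) := by
    rw [Metric.tendsto_nhds]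
    intro ε hε
    obtain ⟨e, he0, he⟩ : ∃ e : ℝ, 0 < e ∧ e * (2 + (L + 1)) < ε := by
      refine ⟨ε / (2 * (2 + (L + 1))), by positivity, ?_⟩
      have : ε / (2 * (2 + (L + 1))) * (2 + (L + 1)) = ε / 2 := by
        field_simp
      rw [this]
      linarith
    have h1 : ∀ᶠ N : ℕ in atTop, |D N| ≤ e * N := by
      have := Metric.tendsto_nhds.1 hP e he0
      filter_upwards [this, eventually_ge_atTop 1] with N hN hN1
      have hN0 : (0 : ℝ) < N := by exact_mod_cast hN1
      rw [Real.dist_eq] at hN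
      rw [hDd]
      dsimp only
      have e1 : (((Icc 1 N).filter P).card : ℝ) - l * N =
          ((((Icc 1 N).filter P).card : ℝ) / N - l) * N := by
        field_simp
      rw [e1, abs_mul, abs_of_pos hN0]
      exact mul_le_mul_of_nonneg_right hN.le hN0.le
    obtain ⟨N0, hN0⟩ := eventually_atTop.1 h1
    filter_upwards [tendsto_wa.eventually_ge_atTop (max N0 1),
      hH.eventually (gt_mem_nhds (by linarith : L < L + 1))] with t ht1 ht2
    rw [dist_zero_right, Real.norm_eq_abs]
    have h2 := abel f D hD (le_trans (le_max_right _ _) ht1)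
      (fun n hn => hN0 n (le_trans (le_trans (le_max_left _ _) ht1) hn)) (wa (t + L))
      (wa_mono (by linarith))
    have h3 : e * (2 + ∑ n ∈ Ioc (wa t) (wa (t + L)), (1 : ℝ) / n) ≤ e * (2 + (L + 1)) :=
      mul_le_mul_of_nonneg_left (by linarith) he0.le
    linarith
  have h2 := (hH.const_mul l).add hzero
  rw [add_zero] at h2
  exact h2.congr fun t => (hW t).symm

theorem WS_mono {P Q : ℕ → Prop} {L t : ℝ}
    (h : ∀ n, n ∈ Ioc (wa t) (wa (t + L)) → P n → Q n) : WS P L t ≤ WS Q L t := by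
  classical
  unfold WS
  refine sum_le_sum fun n hn => ?_
  by_cases hp : P n
  · rw [if_pos hp, if_pos (h n hn hp)]
  · rw [if_neg hp]
    split_ifs
    · positivity
    · exact le_rfl

end Pool.Agent.H499R2.LT.F3
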