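import Pool.Agent.H33.G.R_seed8.H499R2.LT.Defs
import Pool.Agent.H33.G.R_seed8.H499R2.LT.F3a
import Pool.Agent.H33.G.R_seed8.H499R2.CL.J

/-! Project LT, task F3 (helper662): logarithmic sums. -/

set_option autoImplicit false

namespace Pool.Agent.H499R2.LT

open Pool.Agent.H320R2.PD Finset Filter Topology

open Pool.Agent.H499R2.ND hiding La Ea Me FC

open Pool.Agent.H499R2.CZ

open Pool.Agent.H319R2.Lln (mu)

namespace F3

theorem f3_mu_pos : 0 < mu := by
  unfold mu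
  have : 0 < Real.log (4 / 3) := Real.log_pos (by norm_num)
  linarith

theorem f3_sg_pos : 0 < sg := by
  unfold sg c0
  have h1 := f3_mu_pos
  have h2 : 0 < Real.log 3 := Real.log_pos (by norm_num)
  have h3 := Real.sqrt_pos.2 h1
  positivity

theorem sqrt_diff {t L x : ℝ} (ht : 0 ≤ t) (hL : 0 ≤ L) (h1 : t ≤ x) (h2 : x < t + L) :
    Real.sqrt t ≤ Real.sqrt x ∧ Real.sqrt x ≤ Real.sqrt t + Real.sqrt L := by
  refine ⟨Real.sqrt_le_sqrt h1, ?_⟩
  rw [Real.sqrt_le_left (by positivity)]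
  have e1 := Real.sq_sqrt ht
  have e2 := Real.sq_sqrt hL
  nlinarith [Real.sqrt_nonneg t, Real.sqrt_nonneg L,
    mul_nonneg (Real.sqrt_nonneg t) (Real.sqrt_nonneg L)]

/-- comparison of the thresholds -/
theorem thresh {L : ℝ} (hL : 0 < L) {t : ℕ → ℝ} (ht : Tendsto t atTop atTop) {s : ℕ → ℤ} {z : ℝ}
    (h1 : Tendsto (fun i => ((s i : ℝ) - t i / mu) / (sg * Real.sqrt (t i))) atTop (𝓝 z))
    {ε : ℝ} (hε : 0 < ε) : ∀ᶠ i in atTop, ∀ x : ℝ, t i ≤ x → x < t i + L →
      (s i : ℝ) ≤ x / mu + (z + ε) * sg * Real.sqrt x ∧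
      x / mu + (z - ε) * sg * Real.sqrt x < s i := by
  have hmu := f3_mu_pos
  have hsg := f3_sg_pos
  have hs := (Real.tendsto_sqrt_atTop.comp ht).eventually_ge_atTop
    (2 / ε * (|z + ε| * Real.sqrt L + |z - ε| * Real.sqrt L + L / (mu * sg)) + 1)
  have hz := Metric.tendsto_nhds.1 h1 (ε / 2) (by positivity)
  filter_upwards [hs, hz, ht.eventually_ge_atTop 1] with i hs hz ht1 x hx1 hx2
  have hsq : 0 < Real.sqrt (t i) := Real.sqrt_pos.2 (by linarith)
  have hq : 0 < sg * Real.sqrt (t i) := mul_pos hsg hsq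
  rw [Real.dist_eq, abs_lt] at hz
  simp only [Function.comp_apply] at hs
  obtain ⟨r, hr⟩ : ∃ r : ℝ, r = ((s i : ℝ) - t i / mu) / (sg * Real.sqrt (t i)) := ⟨_, rfl⟩
  have hsi : (s i : ℝ) = t i / mu + r * (sg * Real.sqrt (t i)) := by
    rw [hr]
    field_simp
    ring
  rw [← hr] at hz
  obtain ⟨hd1, hd2⟩ := sqrt_diff (by linarith) hL.le hx1 hx2
  have hLq : 0 ≤ Real.sqrt L := Real.sqrt_nonneg L
  have hkey : |z + ε| * Real.sqrt L + |z - ε| * Real.sqrt L + L / (mu * sg) <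
      ε / 2 * Real.sqrt (t i) := by
    have e1 : ε / 2 * (2 / ε * (|z + ε| * Real.sqrt L + |z - ε| * Real.sqrt L +
        L / (mu * sg)) + 1) = |z + ε| * Real.sqrt L + |z - ε| * Real.sqrt L +
        L / (mu * sg) + ε / 2 := by
      field_simp
    have e2 := mul_le_mul_of_nonneg_left hs (by positivity : 0 ≤ ε / 2)
    rw [e1] at e2
    linarith
  have a1 : 0 ≤ |z + ε| * Real.sqrt L := by positivity
  have a2 : 0 ≤ |z - ε| * Real.sqrt L := by positivity
  have a3 : 0 ≤ L / (mu * sg) := by positivity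
  have hxmu : t i / mu ≤ x / mu := div_le_div_of_nonneg_right hx1 hmu.le
  have hxmu2 : x / mu ≤ t i / mu + L / mu := by
    rw [← add_div]
    exact div_le_div_of_nonneg_right hx2.le hmu.le
  constructor
  · -- upper bound
    have b1 : (z + ε / 2) * Real.sqrt (t i) ≤ (z + ε) * Real.sqrt x := by
      have c1 : -(|z + ε| * Real.sqrt L) ≤ (z + ε) * (Real.sqrt x - Real.sqrt (t i)) := by
        have d1 : |(z + ε) * (Real.sqrt x - Real.sqrt (t i))| ≤ |z + ε| * Real.sqrt L := by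
          rw [abs_mul, abs_of_nonneg (by linarith : 0 ≤ Real.sqrt x - Real.sqrt (t i))]
          exact mul_le_mul_of_nonneg_left (by linarith) (abs_nonneg _)
        exact (abs_le.1 d1).1
      nlinarith
    have b2 : r * (sg * Real.sqrt (t i)) ≤ (z + ε / 2) * (sg * Real.sqrt (t i)) :=
      mul_le_mul_of_nonneg_right (by linarith) hq.le
    have b3 : sg * ((z + ε / 2) * Real.sqrt (t i)) ≤ sg * ((z + ε) * Real.sqrt x) :=
      mul_le_mul_of_nonneg_left b1 hsg.le
    rw [hsi]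
    nlinarith
  · have b1 : (z - ε) * Real.sqrt x + L / (mu * sg) < (z - ε / 2) * Real.sqrt (t i) := by
      have c1 : (z - ε) * (Real.sqrt x - Real.sqrt (t i)) ≤ |z - ε| * Real.sqrt L := by
        have d1 : |(z - ε) * (Real.sqrt x - Real.sqrt (t i))| ≤ |z - ε| * Real.sqrt L := by
          rw [abs_mul, abs_of_nonneg (by linarith : 0 ≤ Real.sqrt x - Real.sqrt (t i))]
          exact mul_le_mul_of_nonneg_left (by linarith) (abs_nonneg _)
        exact (abs_le.1 d1).2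
      nlinarith
    have b2 : (z - ε / 2) * (sg * Real.sqrt (t i)) ≤ r * (sg * Real.sqrt (t i)) :=
      mul_le_mul_of_nonneg_right (by linarith) hq.le
    have b3 : sg * ((z - ε) * Real.sqrt x + L / (mu * sg)) <
        sg * ((z - ε / 2) * Real.sqrt (t i)) := mul_lt_mul_of_pos_left b1 hsg
    have b4 : sg * (L / (mu * sg)) = L / mu := by
      field_simp
    rw [hsi]
    nlinarith

/-- hit before time `s` -/
def QS (H : ℕ → ℕ → Prop) (s : ℤ) (n : ℕ) : Prop := ∃ k : ℕ, (k : ℤ) < s ∧ H n k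

theorem one_side {H : ℕ → ℕ → Prop} {δ : ℝ}
    (hH : ∀ z : ℝ, Dn (fun n => ∃ k : ℕ, (k : ℝ) ≤ Real.log n / mu + z * sg * Real.sqrt (Real.log n) ∧ H n k)
      (δ * Phi z)) {L : ℝ} (hL : 0 < L) {t : ℕ → ℝ} (ht : Tendsto t atTop atTop) {s : ℕ → ℤ}
    {z : ℝ} (h1 : Tendsto (fun i => ((s i : ℝ) - t i / mu) / (sg * Real.sqrt (t i))) atTop (𝓝 z)) :
    Tendsto (fun i => WS (QS H (s i)) L (t i)) atTop (𝓝 (δ * Phi z * L)) := by
  classical
  have hW : ∀ y : ℝ, Tendsto (fun i => WS (fun n => ∃ k : ℕ, (k : ℝ) ≤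
      Real.log n / mu + y * sg * Real.sqrt (Real.log n) ∧ H n k) L (t i)) atTop
      (𝓝 (δ * Phi y * L)) := by
    intro y
    refine (WS_tendsto _ _ ?_ L hL).comp ht
    have := hH y
    unfold Dn at this
    refine this.congr fun N => ?_
    rw [Pool.Agent.H499R2.ND.cnt_eq]
  have hcont : Continuous fun y : ℝ => δ * Phi y * L :=
    (continuous_const.mul Phi_continuous).mul continuous_const
  rw [Metric.tendsto_nhds]
  intro ε hε
  obtain ⟨r, hr, hr'⟩ := Metric.continuousAt_iff.1 (hcont.continuousAt (x := z)) (ε / 2)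
    (by positivity)
  have e1 := hr' (x := z + r / 2) (by
    rw [Real.dist_eq, add_sub_cancel_left, abs_of_pos (by positivity)]; linarith)
  have e2 := hr' (x := z - r / 2) (by
    rw [Real.dist_eq, sub_sub_cancel_left, abs_neg, abs_of_pos (by positivity)]; linarith)
  rw [Real.dist_eq, abs_lt] at e1 e2
  have w1 := Metric.tendsto_nhds.1 (hW (z + r / 2)) (ε / 2) (by positivity)
  have w2 := Metric.tendsto_nhds.1 (hW (z - r / 2)) (ε / 2) (by positivity)
  filter_upwards [w1, w2, thresh hL ht h1 (by positivity : 0 < r / 2)] with i w1 w2 hth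
  rw [Real.dist_eq, abs_lt] at w1 w2
  have u1 : WS (QS H (s i)) L (t i) ≤ WS (fun n => ∃ k : ℕ, (k : ℝ) ≤
      Real.log n / mu + (z + r / 2) * sg * Real.sqrt (Real.log n) ∧ H n k) L (t i) := by
    refine WS_mono fun n hn => ?_
    rintro ⟨k, hk, hHk⟩
    rw [mem_window] at hn
    have := (hth (Real.log n) hn.2.1 hn.2.2).1
    refine ⟨k, ?_, hHk⟩
    have hk' : (k : ℝ) < s i := by exact_mod_cast hk
    linarith
  have u2 : WS (fun n => ∃ k : ℕ, (k : ℝ) ≤
      Real.log n / mu + (z - r / 2) * sg * Real.sqrt (Real.log n) ∧ H n k) L (t i) ≤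
      WS (QS H (s i)) L (t i) := by
    refine WS_mono fun n hn => ?_
    rintro ⟨k, hk, hHk⟩
    rw [mem_window] at hn
    have := (hth (Real.log n) hn.2.1 hn.2.2).2
    refine ⟨k, ?_, hHk⟩
    have hk' : (k : ℝ) < s i := by linarith
    exact_mod_cast hk'
  rw [Real.dist_eq, abs_lt]
  constructor <;> linarith

theorem LS_eq {H : ℕ → ℕ → Prop} (hu : ∀ n k k', H n k → H n k' → k = k') (t L : ℝ)
    {s1 s2 : ℤ} (hs : s1 ≤ s2) : LS H t L s1 s2 = WS (QS H s2) L t - WS (QS H s1) L t := by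
  classical
  unfold LS WS
  rw [tsum_eq_sum (s := Ioc (wa t) (wa (t + L)))]
  · rw [← sum_sub_distrib]
    refine sum_congr rfl fun n hn => ?_
    rw [mem_window] at hn
    by_cases h2 : QS H s2 n
    · by_cases h1 : QS H s1 n
      · rw [if_pos h2, if_pos h1, sub_self, Set.indicator_of_notMem]
        rintro ⟨-, -, -, k, hk1, -, hHk⟩
        obtain ⟨k', hk', hHk'⟩ := h1
        have := hu n k k' hHk hHk'
        subst this
        omega
      · rw [if_pos h2, if_neg h1, sub_zero, Set.indicator_of_mem]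
        obtain ⟨k, hk, hHk⟩ := h2
        refine ⟨hn.1, hn.2.1, hn.2.2, k, ?_, hk, hHk⟩
        by_contra hcon
        exact h1 ⟨k, by omega, hHk⟩
    · have h1 : ¬ QS H s1 n := by
        rintro ⟨k, hk, hHk⟩
        exact h2 ⟨k, by omega, hHk⟩
      rw [if_neg h2, if_neg h1, sub_self, Set.indicator_of_notMem]
      rintro ⟨-, -, -, k, -, hk2, hHk⟩
      exact h2 ⟨k, hk2, hHk⟩
  · intro n hn
    rw [Set.indicator_of_notMem]
    rintro ⟨h1, h2, h3, -⟩
    exact hn (mem_window n |>.2 ⟨h1, h2, h3⟩)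

end F3

open F3

theorem log_sums {H : ℕ → ℕ → Prop} (hu : ∀ n k k', H n k → H n k' → k = k') {δ : ℝ}
    (hH : ∀ z : ℝ, Dn (fun n => ∃ k : ℕ, (k : ℝ) ≤ Real.log n / mu + z * sg * Real.sqrt (Real.log n) ∧ H n k)
      (δ * Phi z)) {L : ℝ} (hL : 0 < L) {t : ℕ → ℝ} (ht : Tendsto t atTop atTop) {s1 s2 : ℕ → ℤ}
    {z1 z2 : ℝ} (hs : ∀ i, s1 i ≤ s2 i)
    (h1 : Tendsto (fun i => ((s1 i : ℝ) - t i / mu) / (sg * Real.sqrt (t i))) atTop (𝓝 z1))
    (h2 : Tendsto (fun i => ((s2 i : ℝ) - t i / mu) / (sg * Real.sqrt (t i))) atTop (𝓝 z2)) :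
    Tendsto (fun i => LS H (t i) L (s1 i) (s2 i)) atTop (𝓝 (δ * L * (Phi z2 - Phi z1))) := by
  have e1 := one_side hH hL ht h1
  have e2 := one_side hH hL ht h2
  have e3 := e2.sub e1
  have e4 : δ * Phi z2 * L - δ * Phi z1 * L = δ * L * (Phi z2 - Phi z1) := by ring
  rw [e4] at e3
  exact e3.congr fun i => (LS_eq hu (t i) L (hs i)).symm

end Pool.Agent.H499R2.LT
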