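import Pool.Agent.H33.G.R_seed8.H499R2.LT.C1

/-! Project LT, task F4: block sums of the normalised numbers in terms of logarithmic sums. -/

set_option autoImplicit false

namespace Pool.Agent.H499R2.LT

open Pool.Agent.H320R2.PD Finset Filter Topology

open Pool.Agent.H499R2.ND hiding La Ea Me FC

open Pool.Agent.H499R2.CZ

open Pool.Agent.H319R2.Lln (mu)

open Classical in
/-- hitting time of `F` in `f`, from `g` -/
noncomputable def hi (d : ℤ) (F : Finset ℤ) (f g : ℤ) : ℕ :=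
  if h : ∃ i, Hit d F f g i then Nat.find h else 0

theorem hi_spec {d : ℤ} {F : Finset ℤ} {f g : ℤ} {i : ℕ} (h : Hit d F f g i) : hi d F f g = i := by
  classical
  unfold hi
  have hex : ∃ i, Hit d F f g i := ⟨i, h⟩
  rw [dif_pos hex]
  exact (Hit_unique (Nat.find_spec hex) h).2

/-- the logarithmic shift of `g` -/
noncomputable def kap (d : ℤ) (F : Finset ℤ) (f g : ℤ) : ℝ :=
  hi d F f g * Real.log 2 - od d (hi d F f g) g * Real.log 3 - Real.log (g : ℝ)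

open Classical in
/-- the good elements of `[-Y, Y]` -/
noncomputable def GS (d : ℤ) (F : Finset ℤ) (f : ℤ) (Y : ℕ) : Finset ℤ :=
  (FY Y).filter (fun g => g ≠ 0 ∧ g ∈ PF d F f)

theorem mem_GS {d : ℤ} {F : Finset ℤ} {f g : ℤ} {Y : ℕ} : g ∈ GS d F f Y ↔ g ∈ FY Y ∧ g ≠ 0 ∧ g ∈ PF d F f := by
  classical
  unfold GS
  rw [mem_filter]

/-- the second index of the strip of width `log 3` above `t` -/
noncomputable def ob (t : ℝ) (k : ℕ) : ℤ := ⌊((k : ℝ) * Real.log 2 - t) / Real.log 3⌋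

theorem log3_pos : 0 < Real.log 3 := Real.log_pos (by norm_num)

theorem ob_iff (t : ℝ) (k : ℕ) (o : ℤ) :
    o = ob t k ↔ t ≤ k * Real.log 2 - o * Real.log 3 ∧ k * Real.log 2 - o * Real.log 3 < t + Real.log 3 := by
  unfold ob
  have h3 := log3_pos
  rw [eq_comm, Int.floor_eq_iff, le_div_iff₀ h3, div_lt_iff₀ h3]
  constructor
  · rintro ⟨h1, h2⟩
    exact ⟨by linarith, by linarith⟩
  · rintro ⟨h1, h2⟩
    exact ⟨by linarith, by linarith⟩

theorem ob_bounds (t : ℝ) (k : ℕ) : t ≤ k * Real.log 2 - ob t k * Real.log 3 ∧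
    k * Real.log 2 - ob t k * Real.log 3 < t + Real.log 3 := (ob_iff t k _).1 rfl

theorem weight_eq (k : ℕ) (o : ℤ) :
    (3 : ℝ) ^ o / 2 ^ k = Real.exp (-(k * Real.log 2 - o * Real.log 3)) := by
  have h2 : (0 : ℝ) < 2 ^ k := by positivity
  have h3 : (0 : ℝ) < (3 : ℝ) ^ o := by positivity
  rw [← Real.exp_log (div_pos h3 h2), Real.log_div h3.ne' h2.ne', Real.log_zpow, Real.log_pow]
  congr 1; ring

open Classical in
/-- `NN` as a sum of indicators -/
theorem NN_sum {d : ℤ} {F : Finset ℤ} {f : ℤ} {k : ℕ} {o : ℤ} {N : ℕ}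
    (hN : ∀ x : ℤ, 0 < x → x ∈ SF d F f k o → x < N) :
    NN d F f k o = ∑ n ∈ Finset.range N, if 0 < n ∧ (n : ℤ) ∈ SF d F f k o then (1 : ℝ) else 0 := by
  unfold NN
  have : {x : ℤ | 0 < x ∧ x ∈ SF d F f k o}
      = (((Finset.range N).filter (fun n : ℕ => 0 < n ∧ (n : ℤ) ∈ SF d F f k o)).image
          (fun n : ℕ => (n : ℤ)) : Finset ℤ) := by
    ext x
    rw [mem_coe, mem_image]
    constructor
    · rintro ⟨h1, h2⟩
      refine ⟨x.toNat, ?_, by omega⟩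
      have h3 := hN x h1 h2
      have h4 : ((x.toNat : ℕ) : ℤ) = x := by omega
      rw [mem_filter, mem_range, h4]
      exact ⟨by omega, by omega, h2⟩
    · rintro ⟨n, hn, rfl⟩
      rw [mem_filter] at hn
      exact ⟨by exact_mod_cast hn.2.1, hn.2.2⟩
  rw [this, Set.ncard_coe_finset, card_image_of_injective _ Nat.cast_injective, card_filter]
  push_cast
  rfl

open Classical in
/-- `LS` as a finite sum -/
theorem LS_sum {H : ℕ → ℕ → Prop} {t L : ℝ} {s1 s2 : ℤ} {N : ℕ} (hN : Real.exp (t + L) ≤ N) :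
    LS H t L s1 s2 = ∑ n ∈ Finset.range N, if (1 ≤ n ∧ t ≤ Real.log n ∧ Real.log n < t + L ∧
      ∃ k : ℕ, s1 ≤ (k : ℤ) ∧ (k : ℤ) < s2 ∧ H n k) then (1 : ℝ) / n else 0 := by
  unfold LS
  rw [tsum_eq_sum (s := Finset.range N)]
  · apply sum_congr rfl
    intro n _
    rw [Set.indicator_apply]
    rfl
  · intro n hn
    rw [mem_range, not_lt] at hn
    rw [Set.indicator_of_notMem]
    rintro ⟨h1, h2, h3, h4⟩
    have hn0 : (0 : ℝ) < n := by exact_mod_cast h1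
    have h5 : (n : ℝ) < Real.exp (t + L) := (Real.log_lt_iff_lt_exp hn0).1 h3
    have h6 : (N : ℝ) ≤ n := by exact_mod_cast hn
    linarith

/-- the structure of the elements of `SF` outside `[-Y, Y]` -/
theorem SF_split {d : ℤ} {F : Finset ℤ} {f : ℤ} {Y : ℕ} (hFY : F ⊆ FY Y) {x k o : ℤ}
    (hx : x ∈ SF d F f k o) : ∃ (j : ℕ) (g : ℤ), Hit d (FY Y) g x j ∧ g ∈ PF d F f ∧
      k = j + hi d F f g ∧ o = od d j x + od d (hi d F f g) g := by
  obtain ⟨m, hm, hh, ho⟩ := hx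
  obtain ⟨i, him, g, hg, h1, h2⟩ := hit_split hFY hh
  refine ⟨i, g, h1, ⟨_, h2⟩, ?_, ?_⟩
  · rw [hi_spec h2]; omega
  · rw [hi_spec h2, ← ho]
    have : m = i + (m - i) := by omega
    rw [this, od_add, h1.1]
    congr 2
    omega

theorem SF_join {d : ℤ} {F : Finset ℤ} {f : ℤ} {Y : ℕ} (hFY : F ⊆ FY Y) {x g : ℤ} {j : ℕ}
    (h : Hit d (FY Y) g x j) (hg : g ∈ PF d F f) :
    x ∈ SF d F f (j + hi d F f g) (od d j x + od d (hi d F f g) g) := by
  obtain ⟨i, hi'⟩ := hg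
  rw [hi_spec hi']
  refine ⟨j + i, by push_cast; ring, hit_join hFY h hi', ?_⟩
  rw [od_add, h.1]

/-- indices are unique -/
theorem SF_unique {d : ℤ} {F : Finset ℤ} {f x k o k' o' : ℤ} (h : x ∈ SF d F f k o)
    (h' : x ∈ SF d F f k' o') : k = k' ∧ o = o' := by
  obtain ⟨j, hj, hh, ho⟩ := h
  obtain ⟨j', hj', hh', ho'⟩ := h'
  obtain ⟨_, rfl⟩ := Hit_unique hh hh'
  exact ⟨by omega, by omega⟩

open Classical in
/-- the block sums as a sum over `n` -/
theorem block_eq {d : ℤ} (hd : Odd d) (hd3 : IsCoprime d 3) (F : Finset ℤ) (f : ℤ) (k H : ℕ) (t : ℝ) :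
    ∃ N0 : ℕ, ∀ N : ℕ, N0 ≤ N → ∑ k' ∈ Finset.Ico k (k + H), MM d F f k' (ob t k')
      = ∑ n ∈ Finset.range N, ∑ k' ∈ Finset.Ico k (k + H),
        if 0 < n ∧ (n : ℤ) ∈ SF d F f k' (ob t k') then
          Real.exp (-(k' * Real.log 2 - ob t k' * Real.log 3)) else 0 := by
  obtain ⟨C, hC, hb⟩ := bres hd hd3 F f
  refine ⟨⌈Real.exp (t + Real.log 3 + C)⌉₊ + 1, fun N hN => ?_⟩
  rw [sum_comm]
  apply sum_congr rfl
  intro k' _
  unfold MM
  rw [NN_sum (N := N), mul_div_assoc, weight_eq, sum_mul]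
  · apply sum_congr rfl
    intro n _
    split_ifs <;> simp
  · intro x hx hxS
    obtain ⟨j, hj, hh, ho⟩ := hxS
    have h1 := hb x j (by omega) hh
    have h2 := (ob_bounds t k').2
    have hj' : j = k' := by omega
    rw [ho, hj'] at h1
    have h3 := (abs_le.1 h1).2
    have h4 : Real.log (x : ℝ) ≤ t + Real.log 3 + C := by linarith
    have hx0 : (0 : ℝ) < x := by exact_mod_cast hx
    have h5 : (x : ℝ) ≤ Real.exp (t + Real.log 3 + C) := (Real.log_le_iff_le_exp hx0).1 h4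
    have h6 := Nat.le_ceil (Real.exp (t + Real.log 3 + C))
    have h7 : ((⌈Real.exp (t + Real.log 3 + C)⌉₊ : ℕ) : ℝ) < N := by
      exact_mod_cast (by omega : ⌈Real.exp (t + Real.log 3 + C)⌉₊ < N)
    have : (x : ℝ) < ((N : ℤ) : ℝ) := by push_cast; linarith
    exact_mod_cast this

/-- UPPER BOUND for the block sums -/
theorem block_upper {d : ℤ} (hd : Odd d) (hd3 : IsCoprime d 3) (F : Finset ℤ) (f : ℤ) {Y : ℕ} (hFY : F ⊆ FY Y)
    {ε : ℝ} (hε : ∀ (x g : ℤ) (j : ℕ), x ≠ 0 → Hit d (FY Y) g x j →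
      g ≠ 0 ∧ |Real.log (x : ℝ) + od d j x * Real.log 3 - j * Real.log 2 - Real.log (g : ℝ)| ≤ ε) :
    ∀ (k H : ℕ) (t : ℝ), ∑ k' ∈ Finset.Ico k (k + H), MM d F f k' (ob t k')
      ≤ ∑ g ∈ GS d F f Y, Real.exp (-kap d F f g + ε) *
        LS (fun n j => Hit d (FY Y) g (n : ℤ) j) (t - kap d F f g - ε) (Real.log 3 + 2 * ε)
          ((k : ℤ) - hi d F f g) ((k : ℤ) + H - hi d F f g) := by
  classical
  intro k H t
  obtain ⟨N0, hN0⟩ := block_eq hd hd3 F f k H t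
  obtain ⟨N, hN⟩ : ∃ N : ℕ, N0 ≤ N ∧ ∀ g ∈ GS d F f Y, Real.exp (t - kap d F f g - ε + (Real.log 3 + 2 * ε)) ≤ N := by
    refine ⟨max N0 ((GS d F f Y).sup (fun g => ⌈Real.exp (t - kap d F f g - ε + (Real.log 3 + 2 * ε))⌉₊)),
      le_max_left _ _, fun g hg => ?_⟩
    refine (Nat.le_ceil _).trans ?_
    have := Finset.le_sup (f := fun g => ⌈Real.exp (t - kap d F f g - ε + (Real.log 3 + 2 * ε))⌉₊) hg
    exact_mod_cast this.trans (le_max_right _ _)
  rw [hN0 N hN.1]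
  have hR : ∑ g ∈ GS d F f Y, Real.exp (-kap d F f g + ε) *
        LS (fun n j => Hit d (FY Y) g (n : ℤ) j) (t - kap d F f g - ε) (Real.log 3 + 2 * ε)
          ((k : ℤ) - hi d F f g) ((k : ℤ) + H - hi d F f g)
      = ∑ n ∈ Finset.range N, ∑ g ∈ GS d F f Y, Real.exp (-kap d F f g + ε) *
        (if (1 ≤ n ∧ t - kap d F f g - ε ≤ Real.log n ∧ Real.log n < t - kap d F f g - ε + (Real.log 3 + 2 * ε) ∧
      ∃ j : ℕ, (k : ℤ) - hi d F f g ≤ (j : ℤ) ∧ (j : ℤ) < (k : ℤ) + H - hi d F f g ∧ Hit d (FY Y) g (n : ℤ) j)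
        then (1 : ℝ) / n else 0) := by
    rw [sum_comm]
    apply sum_congr rfl
    intro g hg
    rw [LS_sum (hN.2 g hg), mul_sum]
  rw [hR]
  apply sum_le_sum
  intro n _
  have hnn : ∀ g ∈ GS d F f Y, 0 ≤ Real.exp (-kap d F f g + ε) *
        (if (1 ≤ n ∧ t - kap d F f g - ε ≤ Real.log n ∧ Real.log n < t - kap d F f g - ε + (Real.log 3 + 2 * ε) ∧
      ∃ j : ℕ, (k : ℤ) - hi d F f g ≤ (j : ℤ) ∧ (j : ℤ) < (k : ℤ) + H - hi d F f g ∧ Hit d (FY Y) g (n : ℤ) j)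
        then (1 : ℝ) / n else 0) := by
    intro g _
    apply mul_nonneg (Real.exp_pos _).le
    split_ifs
    · positivity
    · exact le_rfl
  by_cases hex : ∃ k' ∈ Finset.Ico k (k + H), 0 < n ∧ (n : ℤ) ∈ SF d F f k' (ob t k')
  · obtain ⟨k', hk', hn, hS⟩ := hex
    rw [sum_eq_single_of_mem k' hk']
    · rw [if_pos ⟨hn, hS⟩]
      obtain ⟨j, g, hh, hgP, hkj, hoj⟩ := SF_split hFY hS
      obtain ⟨hg0, hr⟩ := hε n g j (by exact_mod_cast hn.ne') hh
      have hgG : g ∈ GS d F f Y := mem_GS.2 ⟨hh.2.1, hg0, hgP⟩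
      refine le_trans ?_ (single_le_sum hnn hgG)
      rw [mem_Ico] at hk'
      have hτ : (k' : ℝ) * Real.log 2 - ob t k' * Real.log 3
          = (j * Real.log 2 - od d j n * Real.log 3) + (kap d F f g + Real.log (g : ℝ)) := by
        unfold kap
        have e1 : (k' : ℝ) = j + hi d F f g := by exact_mod_cast hkj
        rw [e1, hoj]
        push_cast
        ring
      have hob := ob_bounds t k'
      rw [hτ] at hob ⊢
      have hr' := abs_le.1 hr
      have hn0 : (0 : ℝ) < n := by exact_mod_cast hn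
      simp only [Int.cast_natCast] at hr'
      rw [if_pos ⟨hn, by linarith [hob.1, hr'.1], by linarith [hob.2, hr'.2], j, by omega, by omega, hh⟩]
      rw [one_div, ← Real.exp_log hn0, ← Real.exp_neg, ← Real.exp_add]
      apply Real.exp_le_exp.2
      linarith [hr'.1]
    · intro k'' _ hne
      rw [if_neg]
      rintro ⟨_, hS'⟩
      exact hne (by exact_mod_cast (SF_unique hS' hS).1)
  · rw [sum_eq_zero]
    · exact sum_nonneg hnn
    · intro k' hk'
      rw [if_neg]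
      intro h
      exact hex ⟨k', hk', h⟩

/-- LOWER BOUND for the block sums -/
theorem block_lower {d : ℤ} (hd : Odd d) (hd3 : IsCoprime d 3) (F : Finset ℤ) (f : ℤ) {Y : ℕ} (hFY : F ⊆ FY Y)
    {ε : ℝ} (hε : ∀ (x g : ℤ) (j : ℕ), x ≠ 0 → Hit d (FY Y) g x j →
      g ≠ 0 ∧ |Real.log (x : ℝ) + od d j x * Real.log 3 - j * Real.log 2 - Real.log (g : ℝ)| ≤ ε)
    (k H : ℕ) (t : ℝ) :
    ∑ g ∈ GS d F f Y, Real.exp (-kap d F f g - ε) *
        LS (fun n j => Hit d (FY Y) g (n : ℤ) j) (t - kap d F f g + ε) (Real.log 3 - 2 * ε)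
          ((k : ℤ) - hi d F f g) ((k : ℤ) + H - hi d F f g)
      ≤ ∑ k' ∈ Finset.Ico k (k + H), MM d F f k' (ob t k') := by
  classical
  obtain ⟨N0, hN0⟩ := block_eq hd hd3 F f k H t
  obtain ⟨N, hN⟩ : ∃ N : ℕ, N0 ≤ N ∧ ∀ g ∈ GS d F f Y, Real.exp (t - kap d F f g + ε + (Real.log 3 - 2 * ε)) ≤ N := by
    refine ⟨max N0 ((GS d F f Y).sup (fun g => ⌈Real.exp (t - kap d F f g + ε + (Real.log 3 - 2 * ε))⌉₊)),
      le_max_left _ _, fun g hg => ?_⟩
    refine (Nat.le_ceil _).trans ?_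
    have := Finset.le_sup (f := fun g => ⌈Real.exp (t - kap d F f g + ε + (Real.log 3 - 2 * ε))⌉₊) hg
    exact_mod_cast this.trans (le_max_right _ _)
  rw [hN0 N hN.1]
  have hR : ∑ g ∈ GS d F f Y, Real.exp (-kap d F f g - ε) *
        LS (fun n j => Hit d (FY Y) g (n : ℤ) j) (t - kap d F f g + ε) (Real.log 3 - 2 * ε)
          ((k : ℤ) - hi d F f g) ((k : ℤ) + H - hi d F f g)
      = ∑ n ∈ Finset.range N, ∑ g ∈ GS d F f Y, Real.exp (-kap d F f g - ε) *
        (if (1 ≤ n ∧ t - kap d F f g + ε ≤ Real.log n ∧ Real.log n < t - kap d F f g + ε + (Real.log 3 - 2 * ε) ∧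
      ∃ j : ℕ, (k : ℤ) - hi d F f g ≤ (j : ℤ) ∧ (j : ℤ) < (k : ℤ) + H - hi d F f g ∧ Hit d (FY Y) g (n : ℤ) j)
        then (1 : ℝ) / n else 0) := by
    rw [sum_comm]
    apply sum_congr rfl
    intro g hg
    rw [LS_sum (hN.2 g hg), mul_sum]
  rw [hR]
  apply sum_le_sum
  intro n _
  have hnn : ∀ k' ∈ Finset.Ico k (k + H), 0 ≤ (if 0 < n ∧ (n : ℤ) ∈ SF d F f k' (ob t k') then
          Real.exp (-(k' * Real.log 2 - ob t k' * Real.log 3)) else 0) := by
    intro k' _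
    split_ifs
    · exact (Real.exp_pos _).le
    · exact le_rfl
  by_cases hex : ∃ g ∈ GS d F f Y, (1 ≤ n ∧ t - kap d F f g + ε ≤ Real.log n ∧
      Real.log n < t - kap d F f g + ε + (Real.log 3 - 2 * ε) ∧
      ∃ j : ℕ, (k : ℤ) - hi d F f g ≤ (j : ℤ) ∧ (j : ℤ) < (k : ℤ) + H - hi d F f g ∧ Hit d (FY Y) g (n : ℤ) j)
  · obtain ⟨g, hg, hn⟩ := hex
    rw [sum_eq_single_of_mem g hg]
    · rw [if_pos hn]
      obtain ⟨hn1, hl1, hl2, j, hj1, hj2, hh⟩ := hn
      obtain ⟨hg1, hg0, hgP⟩ := mem_GS.1 hg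
      obtain ⟨_, hr⟩ := hε n g j (by exact_mod_cast (by omega : n ≠ 0)) hh
      have hr' := abs_le.1 hr
      have hn0 : (0 : ℝ) < n := by exact_mod_cast hn1
      simp only [Int.cast_natCast] at hr'
      have hS := SF_join hFY hh hgP
      have hτ : ((j + hi d F f g : ℕ) : ℝ) * Real.log 2 - ((od d j n + od d (hi d F f g) g : ℤ) : ℝ) * Real.log 3
          = (j * Real.log 2 - od d j n * Real.log 3) + (kap d F f g + Real.log (g : ℝ)) := by
        unfold kap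
        push_cast
        ring
      have hob : (od d j n + od d (hi d F f g) g : ℤ) = ob t (j + hi d F f g) := by
        rw [ob_iff, hτ]
        exact ⟨by linarith [hr'.2], by linarith [hr'.1]⟩
      have hk' : j + hi d F f g ∈ Finset.Ico k (k + H) := by
        rw [mem_Ico]; omega
      refine le_trans ?_ (single_le_sum hnn hk')
      rw [if_pos ⟨hn1, by
        rw [← hob]
        push_cast
        exact hS⟩, ← hob, hτ]
      rw [one_div, ← Real.exp_log hn0, ← Real.exp_neg, ← Real.exp_add]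
      apply Real.exp_le_exp.2
      linarith [hr'.2]
    · intro g' _ hne
      rw [if_neg, mul_zero]
      rintro ⟨_, _, _, j', _, _, hh'⟩
      obtain ⟨_, _, _, j, _, _, hh⟩ := hn
      exact hne (Hit_unique hh' hh).1
  · rw [sum_eq_zero]
    · exact sum_nonneg hnn
    · intro g hg
      rw [if_neg, mul_zero]
      intro h
      exact hex ⟨g, hg, h⟩

end Pool.Agent.H499R2.LT
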