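import Pool.Agent.H33.G.R_seed8.H499R2.LT.Defs
import Pool.Agent.H33.G.R_seed8.H499R2.NDK

/-! Project LT, task LT-G: positivity. -/

set_option autoImplicit false

namespace Pool.Agent.H499R2.LT

open Pool.Agent.H320R2.PD Finset Filter Topology

open Pool.Agent.H499R2.ND hiding La Ea Me FC

open Pool.Agent.H499R2.CZ

open Pool.Agent.H319R2.Lln (mu)

/-- an integer whose trajectory meets `a` meets it a first time -/
theorem mem_PF_of_iter {d a z : ℤ} {j : ℕ} (hj : (Td d)^[j] z = a) : z ∈ PF d {a} a := by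
  classical
  have hex : ∃ j : ℕ, (Td d)^[j] z = a := ⟨j, hj⟩
  refine ⟨Nat.find hex, Nat.find_spec hex, Finset.mem_singleton_self a, ?_⟩
  intro i hi hmem
  exact Nat.find_min hex hi (Finset.mem_singleton.1 hmem)

theorem PF_pos {d : ℤ} (hd : Odd d) (hd3 : ¬ (3 : ℤ) ∣ d) {a : ℤ} (ha : 0 < a) (ha3 : ¬ (3 : ℤ) ∣ a) {l : ℝ}
    (hl : HD 1 (PF d {a} a) l) : 0 < l := by
  obtain ⟨c, C, X0, hc, _, hX⟩ := Pool.Agent.H366R2.PDK.dens_k_log Pool.Agent.H366R2.PDK.decay
    d (Int.odd_iff.1 hd) hd3 a ha3
  have hlow : ∀ X : ℝ, max X0 1 ≤ X → c / 2 ≤ G {x | (1 : ℤ) * x ∈ PF d {a} a} (2 * X) / (2 * X) := by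
    intro X hXX
    have hX1 : 1 ≤ X := (le_max_right _ _).trans hXX
    obtain ⟨A, hA, hcard⟩ := hX X ((le_max_left _ _).trans hXX)
    rw [le_div_iff₀ (by linarith)]
    have hinj : (A.card : ℝ) ≤ G {x | (1 : ℤ) * x ∈ PF d {a} a} (2 * X) := by
      unfold G
      have : A.card ≤ (pos {x | (1 : ℤ) * x ∈ PF d {a} a} (2 * X)).card := by
        apply card_le_card_of_injOn (fun z => z)
        · intro z hz
          obtain ⟨h1, h2, j, _, hj⟩ := hA z hz
          have hzs : 0 < z := by
            have := (mul_pos_iff_of_pos_right ha).1 h2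
            omega
          rw [mem_coe, mem_pos]
          beta_reduce
          refine ⟨⟨by omega, ?_⟩, ?_⟩
          · have h4 : z = |z| := (abs_of_pos hzs).symm
            rw [h4]
            linarith
          · change (1 : ℤ) * z ∈ PF d {a} a
            rw [one_mul]
            have hj' : (Td d)^[j] z = a := hj
            exact mem_PF_of_iter hj'
        · intro z _ z' _ h
          exact h
      exact_mod_cast this
    linarith
  have hge : c / 2 ≤ l := by
    apply ge_of_tendsto (hl.comp (tendsto_id.const_mul_atTop (by norm_num : (0 : ℝ) < 2)))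
    filter_upwards [eventually_ge_atTop (max X0 1)] with X hX
    exact hlow X hX
  linarith

end Pool.Agent.H499R2.LT
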