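import Pool.Agent.H33.G.R_seed8.H499R2.LT.H1

/-! Project LT, task H2: bounds for the normalised numbers along sequences. -/

set_option autoImplicit false

namespace Pool.Agent.H499R2.LT

open Pool.Agent.H320R2.PD Finset Filter Topology

open Pool.Agent.H499R2.ND hiding La Ea Me FC

open Pool.Agent.H499R2.CZ

open Pool.Agent.H319R2.Lln (mu)

/-- the main constant at level `Y` -/
noncomputable def cY (d : ℤ) (F : Finset ℤ) (f : ℤ) (Y : ℕ) (δ : ℤ → ℝ) : ℝ :=
  ∑ g ∈ GS d F f Y, Real.exp (-kap d F f g) * δ g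

theorem ob_near {k k' : ℕ} (h : k ≤ k') (o : ℤ) : o ≤ ob (tt k o) k' ∧ ob (tt k o) k' ≤ o + (k' - k : ℕ) := by
  have hb := ob_bounds (tt k o) k'
  have h3 := log3_pos
  have h2 : 0 < Real.log 2 := Real.log_pos (by norm_num)
  have h23 : Real.log 2 < Real.log 3 := Real.log_lt_log (by norm_num) (by norm_num)
  have hk : (k : ℝ) ≤ k' := by exact_mod_cast h
  unfold tt at hb
  constructor
  · by_contra hcon
    push Not at hcon
    have h1 : ((ob (tt k o) k' : ℤ) : ℝ) + 1 ≤ o := by exact_mod_cast hcon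
    unfold tt at h1
    nlinarith [hb.2]
  · by_contra hcon
    push Not at hcon
    have h1 : (o : ℝ) + ((k' - k : ℕ) : ℝ) + 1 ≤ ((ob (tt k o) k' : ℤ) : ℝ) := by exact_mod_cast hcon
    rw [Nat.cast_sub h] at h1
    unfold tt at h1
    nlinarith [hb.1]

/-- the block sums are close to multiples of the central value -/
theorem block_smooth {C : ℝ} {M : ℕ → ℤ → ℝ} (hM : Rec C M) : ∃ C' : ℝ, 0 < C' ∧
    ∀ {k : ℕ → ℕ} {o : ℕ → ℤ} {z : ℝ} (_ : Sq k o z) {e : ℝ} (_ : 0 < e), ∀ᶠ i in atTop,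
      |(Hb e (k i) : ℝ) * M (k i) (o i)
        - ∑ k' ∈ Finset.Ico (k i) (k i + Hb e (k i)), M k' (ob (tt (k i) (o i)) k')|
        ≤ (Hb e (k i) : ℝ) * (C' * (2 * Hb e (k i)) / k i) := by
  obtain ⟨C', k0, hC', hs⟩ := rec_smooth hM
  refine ⟨C', hC', fun {k o z} h {e} he => ?_⟩
  have e1 : ∀ᶠ i in atTop, (k0 : ℝ) ≤ k i := h.k_top.eventually (eventually_ge_atTop _)
  have e2 : ∀ᶠ i in atTop, |(2 * (o i : ℝ) - k i) / Real.sqrt (k i)| < |z| + 1 :=
    (h.lim.abs).eventually (gt_mem_nhds (by linarith))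
  have e3 : ∀ᶠ i in atTop, 400 * (|z| + 1) ≤ Real.sqrt (k i) := h.sqrt_top.eventually (eventually_ge_atTop _)
  have e4 : ∀ᶠ i in atTop, (Hb e (k i) : ℝ) / Real.sqrt (k i) < e + 1 :=
    (Hb_lim h.sqrt_top he).eventually (gt_mem_nhds (by linarith))
  have e5 : ∀ᶠ i in atTop, 1000 * (e + 1) ≤ Real.sqrt (k i) := h.sqrt_top.eventually (eventually_ge_atTop _)
  filter_upwards [e1, e2, e3, e4, e5, h.k_pos] with i h1 h2 h3 h4 h5 h6
  have hsq := Real.sqrt_pos.2 h6
  have hss := Real.mul_self_sqrt h6.le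
  have hz : |2 * (o i : ℝ) - k i| ≤ (k i : ℝ) / 400 := by
    rw [abs_div, abs_of_pos hsq, div_lt_iff₀ hsq] at h2
    nlinarith
  have hH : 1000 * (Hb e (k i) : ℝ) ≤ k i := by
    rw [div_lt_iff₀ hsq] at h4
    nlinarith
  have hk0 : k0 ≤ k i := by exact_mod_cast h1
  have hcard : (Hb e (k i) : ℝ) = ((Finset.Ico (k i) (k i + Hb e (k i))).card : ℝ) := by
    rw [Nat.card_Ico]; simp
  have h7 : (Hb e (k i) : ℝ) * M (k i) (o i)
      - ∑ k' ∈ Finset.Ico (k i) (k i + Hb e (k i)), M k' (ob (tt (k i) (o i)) k')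
      = ∑ k' ∈ Finset.Ico (k i) (k i + Hb e (k i)), (M (k i) (o i) - M k' (ob (tt (k i) (o i)) k')) := by
    rw [sum_sub_distrib, sum_const, nsmul_eq_mul, ← hcard]
  rw [h7]
  refine (abs_sum_le_sum_abs _ _).trans ?_
  have h8 : ∀ k' ∈ Finset.Ico (k i) (k i + Hb e (k i)),
      |M (k i) (o i) - M k' (ob (tt (k i) (o i)) k')| ≤ C' * (2 * Hb e (k i)) / k i := by
    intro k' hk'
    rw [mem_Ico] at hk'
    obtain ⟨n1, n2⟩ := ob_near hk'.1 (o i)
    have m1 : ((k' : ℝ) - k i) ≤ Hb e (k i) := by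
      have : (k' : ℝ) ≤ k i + Hb e (k i) := by exact_mod_cast hk'.2.le
      linarith
    have m0 : (0 : ℝ) ≤ (k' : ℝ) - k i := by
      have : (k i : ℝ) ≤ k' := by exact_mod_cast hk'.1
      linarith
    have m2 : |((ob (tt (k i) (o i)) k' : ℤ) : ℝ) - o i| ≤ Hb e (k i) := by
      rw [abs_le]
      have n1' : ((o i : ℤ) : ℝ) ≤ ((ob (tt (k i) (o i)) k' : ℤ) : ℝ) := by exact_mod_cast n1
      have n2' : ((ob (tt (k i) (o i)) k' : ℤ) : ℝ) ≤ (o i : ℝ) + ((k' - k i : ℕ) : ℝ) := by exact_mod_cast n2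
      rw [Nat.cast_sub hk'.1] at n2'
      constructor
      · have : (0 : ℝ) ≤ Hb e (k i) := Nat.cast_nonneg _
        linarith
      · linarith
    have h9 := hs (k i) k' (o i) (ob (tt (k i) (o i)) k') hk0 hz hk'.1 (by linarith) (by linarith)
    rw [abs_sub_comm]
    refine h9.trans ?_
    apply div_le_div_of_nonneg_right _ h6.le
    apply mul_le_mul_of_nonneg_left _ hC'.le
    linarith
  refine (sum_le_sum h8).trans ?_
  rw [sum_const, nsmul_eq_mul, ← hcard]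

/-- difference quotient of `Phi` -/
theorem Phi_quot (z : ℝ) : Tendsto (fun e : ℝ => (1 / e) * (Phi (z + e / c0) - Phi z)) (𝓝[>] 0)
    (𝓝 (Real.exp (-z ^ 2 / 2) / Real.sqrt (2 * Real.pi) / c0)) := by
  have hc0 := c0_pos
  have h1 := (Phi_deriv z).tendsto_slope_zero_right
  have h2 : Tendsto (fun e : ℝ => e / c0) (𝓝[>] 0) (𝓝[>] 0) := by
    apply tendsto_nhdsWithin_of_tendsto_nhds_of_eventually_within
    · have : Tendsto (fun e : ℝ => e / c0) (𝓝 0) (𝓝 (0 / c0)) := tendsto_id.div_const _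
      rw [zero_div] at this
      exact this.mono_left nhdsWithin_le_nhds
    · filter_upwards [self_mem_nhdsWithin] with e he
      exact div_pos he hc0
  have h3 := (h1.comp h2).div_const c0
  refine h3.congr' ?_
  filter_upwards [self_mem_nhdsWithin] with e he
  have he' : (0 : ℝ) < e := he
  simp only [Function.comp, smul_eq_mul]
  field_simp

/-- MAIN BOUNDS along sequences -/
theorem seq_bounds {d : ℤ} (hd : Odd d) (hd3 : IsCoprime d 3) (F : Finset ℤ) (f : ℤ) {Y : ℕ} (hFY : F ⊆ FY Y)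
    {ε : ℝ} (hε0 : 0 < ε) (hε1 : 2 * ε < Real.log 3)
    (hε : ∀ (x g : ℤ) (j : ℕ), x ≠ 0 → Hit d (FY Y) g x j →
      g ≠ 0 ∧ |Real.log (x : ℝ) + od d j x * Real.log 3 - j * Real.log 2 - Real.log (g : ℝ)| ≤ ε)
    {δ : ℤ → ℝ} (hδ : ∀ g, HD 1 (PF d (FY Y) g) (δ g))
    {k : ℕ → ℕ} {o : ℕ → ℤ} {z : ℝ} (h : Sq k o z) {η : ℝ} (hη : 0 < η) :
    ∀ᶠ i in atTop,
      Real.sqrt (k i) * MM d F f (k i) (o i) < Real.exp ε * (Real.log 3 + 2 * ε) * cY d F f Y δ *
        (Real.exp (-z ^ 2 / 2) / Real.sqrt (2 * Real.pi) / c0) + η ∧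
      Real.exp (-ε) * (Real.log 3 - 2 * ε) * cY d F f Y δ *
        (Real.exp (-z ^ 2 / 2) / Real.sqrt (2 * Real.pi) / c0) - η < Real.sqrt (k i) * MM d F f (k i) (o i) := by
  obtain ⟨C, hC, hrec⟩ := MM_rec hd hd3 F f
  obtain ⟨C', hC', hsm⟩ := block_smooth hrec
  have h3 := log3_pos
  set ph : ℝ := Real.exp (-z ^ 2 / 2) / Real.sqrt (2 * Real.pi) / c0 with hph
  set U : ℝ := Real.exp ε * (Real.log 3 + 2 * ε) * cY d F f Y δ with hU
  set V : ℝ := Real.exp (-ε) * (Real.log 3 - 2 * ε) * cY d F f Y δ with hV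
  -- choice of `e`
  have hq := Phi_quot z
  have q1 : Tendsto (fun e : ℝ => U * ((1 / e) * (Phi (z + e / c0) - Phi z)) + 2 * C' * e) (𝓝[>] 0)
      (𝓝 (U * ph + 2 * C' * 0)) := (hq.const_mul U).add
    ((tendsto_id.mono_left nhdsWithin_le_nhds).const_mul (2 * C'))
  have q2 : Tendsto (fun e : ℝ => V * ((1 / e) * (Phi (z + e / c0) - Phi z)) - 2 * C' * e) (𝓝[>] 0)
      (𝓝 (V * ph - 2 * C' * 0)) := (hq.const_mul V).sub
    ((tendsto_id.mono_left nhdsWithin_le_nhds).const_mul (2 * C'))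
  rw [mul_zero, add_zero] at q1
  rw [mul_zero, sub_zero] at q2
  obtain ⟨e, ⟨he1, he2⟩, he⟩ := (((q1.eventually (gt_mem_nhds (show U * ph < U * ph + η / 2 by linarith))).and
    (q2.eventually (lt_mem_nhds (show V * ph - η / 2 < V * ph by linarith)))).and
    (self_mem_nhdsWithin)).exists
  have he' : (0 : ℝ) < e := he
  -- block
  have hup := block_upper hd hd3 F f hFY hε
  have hlo := block_lower hd hd3 F f hFY hε
  set Δ : ℝ := Phi (z + e / c0) - Phi z with hΔ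
  have l1 : Tendsto (fun i => ∑ g ∈ GS d F f Y, Real.exp (-kap d F f g + ε) *
        LS (fun n j => Hit d (FY Y) g (n : ℤ) j) (tt (k i) (o i) + (-kap d F f g - ε)) (Real.log 3 + 2 * ε)
          ((k i : ℤ) - hi d F f g) ((k i : ℤ) + Hb e (k i) - hi d F f g)) atTop
      (𝓝 (∑ g ∈ GS d F f Y, Real.exp (-kap d F f g + ε) * (δ g * (Real.log 3 + 2 * ε) * Δ))) := by
    apply tendsto_finsetSum
    intro g _
    exact (LS_lim hd hd3 (hδ g) h (-kap d F f g - ε) (hi d F f g) he' (by linarith)).const_mul _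
  have l2 : Tendsto (fun i => ∑ g ∈ GS d F f Y, Real.exp (-kap d F f g - ε) *
        LS (fun n j => Hit d (FY Y) g (n : ℤ) j) (tt (k i) (o i) + (-kap d F f g + ε)) (Real.log 3 - 2 * ε)
          ((k i : ℤ) - hi d F f g) ((k i : ℤ) + Hb e (k i) - hi d F f g)) atTop
      (𝓝 (∑ g ∈ GS d F f Y, Real.exp (-kap d F f g - ε) * (δ g * (Real.log 3 - 2 * ε) * Δ))) := by
    apply tendsto_finsetSum
    intro g _
    exact (LS_lim hd hd3 (hδ g) h (-kap d F f g + ε) (hi d F f g) he' (by linarith)).const_mul _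
  have s1 : ∑ g ∈ GS d F f Y, Real.exp (-kap d F f g + ε) * (δ g * (Real.log 3 + 2 * ε) * Δ) = U * Δ := by
    rw [hU]; unfold cY
    rw [mul_sum, sum_mul]
    apply sum_congr rfl
    intro g _
    rw [Real.exp_add]; ring
  have s2 : ∑ g ∈ GS d F f Y, Real.exp (-kap d F f g - ε) * (δ g * (Real.log 3 - 2 * ε) * Δ) = V * Δ := by
    rw [hV]; unfold cY
    rw [mul_sum, sum_mul]
    apply sum_congr rfl
    intro g _
    rw [sub_eq_add_neg, Real.exp_add]; ring
  rw [s1] at l1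
  rw [s2] at l2
  have hHl := Hb_lim h.sqrt_top he'
  have hHi : Tendsto (fun i => ((Hb e (k i) : ℝ) / Real.sqrt (k i))⁻¹) atTop (𝓝 e⁻¹) := hHl.inv₀ he'.ne'
  have f1 := ((hHi.mul l1).add (hHl.const_mul (2 * C')))
  have f2 := ((hHi.mul l2).sub (hHl.const_mul (2 * C')))
  have g1 : e⁻¹ * (U * Δ) + 2 * C' * e < U * ph + η / 2 := by
    have : e⁻¹ * (U * Δ) = U * ((1 / e) * Δ) := by rw [one_div]; ring
    rw [this]; exact he1
  have g2 : V * ph - η / 2 < e⁻¹ * (V * Δ) - 2 * C' * e := by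
    have : e⁻¹ * (V * Δ) = V * ((1 / e) * Δ) := by rw [one_div]; ring
    rw [this]; exact he2
  filter_upwards [f1.eventually (gt_mem_nhds (show _ < U * ph + η / 2 from g1)),
    f2.eventually (lt_mem_nhds (show V * ph - η / 2 < _ from g2)), hsm h he', h.k_pos,
    hHl.eventually (lt_mem_nhds he')] with i a1 a2 a3 a4 a5
  have hsq := Real.sqrt_pos.2 a4
  have hss := Real.mul_self_sqrt a4.le
  have hH0 : (0 : ℝ) < Hb e (k i) := by
    by_contra hcon
    have : (Hb e (k i) : ℝ) / Real.sqrt (k i) ≤ 0 := div_nonpos_of_nonpos_of_nonneg (not_lt.1 hcon) hsq.le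
    linarith
  have hu := hup (k i) (Hb e (k i)) (tt (k i) (o i))
  have hl := hlo (k i) (Hb e (k i)) (tt (k i) (o i))
  set B := ∑ k' ∈ Finset.Ico (k i) (k i + Hb e (k i)), MM d F f k' (ob (tt (k i) (o i)) k') with hB
  set m := MM d F f (k i) (o i) with hm
  set Hh : ℝ := (Hb e (k i) : ℝ) with hHh
  set r := Real.sqrt (k i : ℝ) with hr
  have hu' : B ≤ ∑ g ∈ GS d F f Y, Real.exp (-kap d F f g + ε) *
        LS (fun n j => Hit d (FY Y) g (n : ℤ) j) (tt (k i) (o i) + (-kap d F f g - ε)) (Real.log 3 + 2 * ε)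
          ((k i : ℤ) - hi d F f g) ((k i : ℤ) + Hb e (k i) - hi d F f g) := by
    refine hu.trans (le_of_eq ?_)
    apply sum_congr rfl
    intro g _
    rw [show tt (k i) (o i) + (-kap d F f g - ε) = tt (k i) (o i) - kap d F f g - ε by ring]
  have hl' : ∑ g ∈ GS d F f Y, Real.exp (-kap d F f g - ε) *
        LS (fun n j => Hit d (FY Y) g (n : ℤ) j) (tt (k i) (o i) + (-kap d F f g + ε)) (Real.log 3 - 2 * ε)
          ((k i : ℤ) - hi d F f g) ((k i : ℤ) + Hb e (k i) - hi d F f g) ≤ B := by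
    refine (le_of_eq ?_).trans hl
    apply sum_congr rfl
    intro g _
    rw [show tt (k i) (o i) + (-kap d F f g + ε) = tt (k i) (o i) - kap d F f g + ε by ring]
  have hinv : (Hh / r)⁻¹ = r / Hh := by rw [inv_div]
  rw [hinv] at a1 a2
  have key : r * m = (r / Hh) * (Hh * m) := by field_simp
  have herr : (r / Hh) * (Hh * (C' * (2 * Hh) / k i)) = 2 * C' * (Hh / r) := by
    rw [← hss]; field_simp
  have hrH : 0 < r / Hh := div_pos hsq hH0
  have a3' := abs_le.1 a3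
  constructor
  · rw [key]
    have b1 : (r / Hh) * (Hh * m) ≤ (r / Hh) * (B + Hh * (C' * (2 * Hh) / k i)) :=
      mul_le_mul_of_nonneg_left (by linarith [a3'.2]) hrH.le
    rw [mul_add, herr] at b1
    have b2 := mul_le_mul_of_nonneg_left hu' hrH.le
    linarith
  · rw [key]
    have b1 : (r / Hh) * (B - Hh * (C' * (2 * Hh) / k i)) ≤ (r / Hh) * (Hh * m) :=
      mul_le_mul_of_nonneg_left (by linarith [a3'.1]) hrH.le
    rw [mul_sub, herr] at b1
    have b2 := mul_le_mul_of_nonneg_left hl' hrH.le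
    linarith

end Pool.Agent.H499R2.LT
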