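import Pool.Agent.H33.G.R_seed8.H499R2.LT.H2

/-! Project LT, task H3: the local limit theorem. -/

set_option autoImplicit false

namespace Pool.Agent.H499R2.LT

open Pool.Agent.H320R2.PD Finset Filter Topology

open Pool.Agent.H499R2.ND hiding La Ea Me FC

open Pool.Agent.H499R2.CZ

open Pool.Agent.H319R2.Lln (mu)

theorem FY_sub (F : Finset ℤ) : ∃ Y1 : ℕ, ∀ Y : ℕ, Y1 ≤ Y → F ⊆ FY Y := by
  refine ⟨F.sup Int.natAbs, fun Y hY x hx => ?_⟩
  have h1 : x.natAbs ≤ F.sup Int.natAbs := Finset.le_sup (f := Int.natAbs) hx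
  unfold FY
  rw [mem_Icc]
  omega

theorem hd_exists {d : ℤ} (hd : Odd d) (hd3 : IsCoprime d 3) (F : Finset ℤ) (g : ℤ) :
    ∃ l : ℝ, HD 1 (PF d F g) l := by
  obtain ⟨l, hl⟩ := density_AI hd hd3 (RF_FC d F) (RF_SpW hd hd3 F) (AI_PF d F g)
  refine ⟨l, ?_⟩
  unfold HD
  simpa only [one_mul, Set.ofPred_mem_eq] using hl

/-- the data at a level `Y` with error at most `e` -/
theorem level {d : ℤ} (hd : Odd d) (hd3 : IsCoprime d 3) (F : Finset ℤ) {e : ℝ} (he : 0 < e) (Y2 : ℕ) :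
    ∃ (Y : ℕ) (δ : ℤ → ℝ), Y2 ≤ Y ∧ F ⊆ FY Y ∧ (∀ g, HD 1 (PF d (FY Y) g) (δ g)) ∧
    ∀ (x g : ℤ) (j : ℕ), x ≠ 0 → Hit d (FY Y) g x j →
      g ≠ 0 ∧ |Real.log (x : ℝ) + od d j x * Real.log 3 - j * Real.log 2 - Real.log (g : ℝ)| ≤ e := by
  obtain ⟨C, Y0, hC, hY0, hp⟩ := path_log hd hd3
  obtain ⟨Y1, hY1⟩ := FY_sub F
  have hlim : Tendsto (fun Y : ℕ => C / (Y : ℝ) ^ (1 / 25 : ℝ)) atTop (𝓝 0) :=
    Tendsto.div_atTop tendsto_const_nhds ((tendsto_rpow_atTop (by norm_num)).comp tendsto_natCast_atTop_atTop)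
  obtain ⟨Y, h1, h2⟩ := ((hlim.eventually (gt_mem_nhds he)).and
    (eventually_ge_atTop (max (max Y0 Y1) Y2))).exists
  choose δ hδ using fun g => hd_exists hd hd3 (FY Y) g
  have h3 : Y0 ≤ Y := ((le_max_left _ _).trans (le_max_left _ _)).trans h2
  have h4 : Y1 ≤ Y := ((le_max_right _ _).trans (le_max_left _ _)).trans h2
  refine ⟨Y, δ, (le_max_right _ _).trans h2, hY1 Y h4, hδ, fun x g j hx hh => ?_⟩
  obtain ⟨a, b⟩ := hp Y h3 x g j hx hh
  exact ⟨a, b.trans h1.le⟩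

theorem Sq.M_nonneg {d : ℤ} (hd : Odd d) (hd3 : IsCoprime d 3) (F : Finset ℤ) (f : ℤ) (k : ℕ) (o : ℤ) :
    0 ≤ MM d F f k o := by
  obtain ⟨C, hC, hrec⟩ := MM_rec hd hd3 F f
  exact (hrec.1 k o).1

/-- the special sequence -/
theorem Sq.special : Sq (fun i => 2 * i) (fun i => (i : ℤ)) 0 := by
  constructor
  · have : Tendsto (fun i : ℕ => (i : ℝ)) atTop atTop := tendsto_natCast_atTop_atTop
    refine tendsto_atTop_mono (fun i => ?_) this
    push_cast
    have : (0 : ℝ) ≤ i := Nat.cast_nonneg i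
    linarith
  · refine tendsto_const_nhds.congr fun i => ?_
    push_cast
    simp

/-- normal density, up to the factor -/
noncomputable def gz (z : ℝ) : ℝ := Real.exp (-z ^ 2 / 2) / Real.sqrt (2 * Real.pi) / c0

theorem gz_pos (z : ℝ) : 0 < gz z := by
  have := c0_pos
  unfold gz
  positivity

theorem gz_eq (z : ℝ) : gz z = gz 0 * Real.exp (-z ^ 2 / 2) := by
  unfold gz
  norm_num
  ring

/-- uniform bound of the central values -/
theorem central_bdd {d : ℤ} (hd : Odd d) (hd3 : IsCoprime d 3) (F : Finset ℤ) (f : ℤ) : ∃ B : ℝ, 0 < B ∧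
    ∀ {k : ℕ → ℕ} {o : ℕ → ℤ} {z : ℝ} (_ : Sq k o z), ∀ᶠ i in atTop,
      Real.sqrt (k i) * MM d F f (k i) (o i) ≤ B := by
  obtain ⟨C, hC, hrec⟩ := MM_rec hd hd3 F f
  obtain ⟨C', k0, hC', hs⟩ := rec_sup hrec
  refine ⟨C', hC', fun {k o z} h => ?_⟩
  have e1 : ∀ᶠ i in atTop, (k0 : ℝ) ≤ k i := h.k_top.eventually (eventually_ge_atTop _)
  have e2 : ∀ᶠ i in atTop, |(2 * (o i : ℝ) - k i) / Real.sqrt (k i)| < |z| + 1 :=
    (h.lim.abs).eventually (gt_mem_nhds (by linarith))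
  have e3 : ∀ᶠ i in atTop, 40 * (|z| + 1) ≤ Real.sqrt (k i) := h.sqrt_top.eventually (eventually_ge_atTop _)
  filter_upwards [e1, e2, e3, h.k_pos] with i h1 h2 h3 h6
  have hsq := Real.sqrt_pos.2 h6
  have hss := Real.mul_self_sqrt h6.le
  have hz : |2 * (o i : ℝ) - k i| ≤ (k i : ℝ) / 40 := by
    rw [abs_div, abs_of_pos hsq, div_lt_iff₀ hsq] at h2
    nlinarith
  have h7 := hs (k i) (o i) (by exact_mod_cast h1) hz
  rw [le_div_iff₀ hsq] at h7
  linarith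

/-- arithmetic of the two constants at a level -/
theorem level_arith {ε c a B : ℝ} (hε0 : 0 < ε) (hε1 : ε ≤ 1 / 10) (hc : 0 ≤ c) (ha : 0 < a)
    (hlow : Real.exp (-ε) * (Real.log 3 - 2 * ε) * c * a ≤ B) :
    Real.exp ε * (Real.log 3 + 2 * ε) * c * a - Real.exp (-ε) * (Real.log 3 - 2 * ε) * c * a ≤ 40 * ε * B := by
  have hl1 : 1 ≤ Real.log 3 := by
    rw [Real.le_log_iff_exp_le (by norm_num)]
    linarith [Real.exp_one_lt_d9]
  have hl2 : Real.log 3 ≤ 1.12 := by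
    have h1 := log3_le
    have h2 := Real.log_two_lt_d9
    linarith
  have e1 : 1 - ε ≤ Real.exp (-ε) := by linarith [Real.add_one_le_exp (-ε)]
  have e2 : Real.exp ε ≤ 1 + 2 * ε := by
    have h1 := Real.exp_bound' (x := ε) hε0.le (by linarith) (n := 1) (by norm_num)
    simp at h1
    linarith
  have hca : 0 ≤ c * a := by positivity
  have h1 : 0.9 * 0.8 * (c * a) ≤ B := by
    refine le_trans ?_ hlow
    have : 0.9 * 0.8 ≤ Real.exp (-ε) * (Real.log 3 - 2 * ε) :=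
      mul_le_mul (by linarith) (by linarith) (by norm_num) (Real.exp_pos _).le
    calc 0.9 * 0.8 * (c * a) ≤ (Real.exp (-ε) * (Real.log 3 - 2 * ε)) * (c * a) :=
          mul_le_mul_of_nonneg_right this hca
      _ = _ := by ring
  have h2 : Real.exp ε * (Real.log 3 + 2 * ε) ≤ (1 + 2 * ε) * (Real.log 3 + 2 * ε) :=
    mul_le_mul_of_nonneg_right e2 (by linarith)
  have h3 : (1 - ε) * (Real.log 3 - 2 * ε) ≤ Real.exp (-ε) * (Real.log 3 - 2 * ε) :=
    mul_le_mul_of_nonneg_right e1 (by linarith)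
  have h4 : Real.exp ε * (Real.log 3 + 2 * ε) - Real.exp (-ε) * (Real.log 3 - 2 * ε) ≤ 20 * ε := by
    nlinarith
  calc Real.exp ε * (Real.log 3 + 2 * ε) * c * a - Real.exp (-ε) * (Real.log 3 - 2 * ε) * c * a
      = (Real.exp ε * (Real.log 3 + 2 * ε) - Real.exp (-ε) * (Real.log 3 - 2 * ε)) * (c * a) := by ring
    _ ≤ 20 * ε * (c * a) := mul_le_mul_of_nonneg_right h4 hca
    _ ≤ 40 * ε * B := by nlinarith

theorem cY_nonneg {d : ℤ} (F : Finset ℤ) (f : ℤ) {Y : ℕ} {δ : ℤ → ℝ} (hδ : ∀ g, HD 1 (PF d (FY Y) g) (δ g)) :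
    0 ≤ cY d F f Y δ := by
  unfold cY
  apply sum_nonneg
  intro g _
  refine mul_nonneg (Real.exp_pos _).le ?_
  refine ge_of_tendsto (hδ g) ?_
  filter_upwards [eventually_gt_atTop (0 : ℝ)] with X hX
  exact div_nonneg (G_nonneg _ _) hX.le

/-- THE LIMIT along sequences -/
theorem seq_limit {d : ℤ} (hd : Odd d) (hd3 : IsCoprime d 3) (F : Finset ℤ) (f : ℤ) :
    ∃ u : ℝ, 0 ≤ u ∧
      (∀ {k : ℕ → ℕ} {o : ℕ → ℤ} {z : ℝ} (_ : Sq k o z),
        Tendsto (fun i => Real.sqrt (k i) * MM d F f (k i) (o i)) atTop (𝓝 (u * Real.exp (-z ^ 2 / 2)))) ∧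
      (∀ {Y : ℕ} (_ : F ⊆ FY Y) {ε : ℝ} (_ : 0 < ε) (_ : 2 * ε < Real.log 3)
        (_ : ∀ (x g : ℤ) (j : ℕ), x ≠ 0 → Hit d (FY Y) g x j →
          g ≠ 0 ∧ |Real.log (x : ℝ) + od d j x * Real.log 3 - j * Real.log 2 - Real.log (g : ℝ)| ≤ ε)
        {δ : ℤ → ℝ} (_ : ∀ g, HD 1 (PF d (FY Y) g) (δ g)),
        Real.exp (-ε) * (Real.log 3 - 2 * ε) * cY d F f Y δ * gz 0 ≤ u ∧
        u ≤ Real.exp ε * (Real.log 3 + 2 * ε) * cY d F f Y δ * gz 0) := by
  obtain ⟨B, hB, hbd⟩ := central_bdd hd hd3 F f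
  have hl1 : 1 ≤ Real.log 3 := by
    rw [Real.le_log_iff_exp_le (by norm_num)]
    linarith [Real.exp_one_lt_d9]
  have hsp := Sq.special
  -- the special sequence is Cauchy
  have hcau : CauchySeq (fun i : ℕ => Real.sqrt ((2 * i : ℕ) : ℝ) * MM d F f (2 * i) (i : ℤ)) := by
    rw [Metric.cauchySeq_iff']
    intro η hη
    set e : ℝ := min (1 / 10) (η / (160 * (B + 1))) with he
    have he0 : 0 < e := by rw [he]; positivity
    have he1 : e ≤ 1 / 10 := min_le_left _ _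
    have he2 : e * (160 * (B + 1)) ≤ η := by
      have := min_le_right (1 / 10 : ℝ) (η / (160 * (B + 1)))
      rw [← he, le_div_iff₀ (by positivity)] at this
      exact this
    obtain ⟨Y, δ, _, hFY, hδ, hε⟩ := level hd hd3 F he0 0
    have hb := seq_bounds hd hd3 F f hFY he0 (by linarith) hε hδ hsp (show 0 < η / 8 by positivity)
    have hc := cY_nonneg F f (d := d) hδ
    have hga := gz_pos 0
    have hlow : Real.exp (-e) * (Real.log 3 - 2 * e) * cY d F f Y δ * gz 0 ≤ B + η / 8 := by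
      obtain ⟨i, h1, h2⟩ := (hb.and (hbd hsp)).exists
      have h3 := h1.2
      change _ * gz 0 - _ < _ at h3
      linarith
    -- a sharper bound
    have hlow' : Real.exp (-e) * (Real.log 3 - 2 * e) * cY d F f Y δ * gz 0 ≤ B + 1 := by
      by_contra hcon
      push Not at hcon
      have hb' := seq_bounds hd hd3 F f hFY he0 (by linarith) hε hδ hsp (show (0 : ℝ) < 1 by norm_num)
      obtain ⟨i, h1, h2⟩ := (hb'.and (hbd hsp)).exists
      have h3 := h1.2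
      change _ * gz 0 - _ < _ at h3
      linarith
    have har := level_arith he0 he1 hc hga hlow'
    obtain ⟨N, hN⟩ := eventually_atTop.1 hb
    refine ⟨N, fun n hn => ?_⟩
    have p1 := hN n hn
    have p2 := hN N le_rfl
    change _ < _ * gz 0 + _ ∧ _ * gz 0 - _ < _ at p1 p2
    rw [Real.dist_eq, abs_lt]
    constructor
    · linarith [p1.2, p2.1]
    · linarith [p1.1, p2.2]
  obtain ⟨u, hu⟩ := cauchySeq_tendsto_of_complete hcau
  have hlevel : ∀ {Y : ℕ} (_ : F ⊆ FY Y) {ε : ℝ} (_ : 0 < ε) (_ : 2 * ε < Real.log 3)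
        (_ : ∀ (x g : ℤ) (j : ℕ), x ≠ 0 → Hit d (FY Y) g x j →
          g ≠ 0 ∧ |Real.log (x : ℝ) + od d j x * Real.log 3 - j * Real.log 2 - Real.log (g : ℝ)| ≤ ε)
        {δ : ℤ → ℝ} (_ : ∀ g, HD 1 (PF d (FY Y) g) (δ g)),
        Real.exp (-ε) * (Real.log 3 - 2 * ε) * cY d F f Y δ * gz 0 ≤ u ∧
        u ≤ Real.exp ε * (Real.log 3 + 2 * ε) * cY d F f Y δ * gz 0 := by
    intro Y hFY ε h0 h1 hε δ hδ
    constructor
    · apply le_of_forall_pos_le_add
      intro η hη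
      have hb := seq_bounds hd hd3 F f hFY h0 h1 hε hδ hsp hη
      have : ∀ᶠ i : ℕ in atTop, Real.exp (-ε) * (Real.log 3 - 2 * ε) * cY d F f Y δ * gz 0 - η
          ≤ Real.sqrt ((2 * i : ℕ) : ℝ) * MM d F f (2 * i) (i : ℤ) := by
        filter_upwards [hb] with i hi
        exact hi.2.le
      have := ge_of_tendsto hu this
      linarith
    · apply le_of_forall_pos_le_add
      intro η hη
      have hb := seq_bounds hd hd3 F f hFY h0 h1 hε hδ hsp hη
      have : ∀ᶠ i : ℕ in atTop, Real.sqrt ((2 * i : ℕ) : ℝ) * MM d F f (2 * i) (i : ℤ)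
          ≤ Real.exp ε * (Real.log 3 + 2 * ε) * cY d F f Y δ * gz 0 + η := by
        filter_upwards [hb] with i hi
        exact hi.1.le
      exact le_of_tendsto hu this
  have hu0 : 0 ≤ u := by
    refine ge_of_tendsto' hu fun i => ?_
    exact mul_nonneg (Real.sqrt_nonneg _) (Sq.M_nonneg hd hd3 F f _ _)
  have huB : u ≤ B := le_of_tendsto hu (hbd hsp)
  refine ⟨u, hu0, fun {k o z} h => ?_, fun {Y} a {ε} b c e {δ} g => hlevel a b c e g⟩
  rw [Metric.tendsto_atTop]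
  intro η hη
  have hE1 : Real.exp (-z ^ 2 / 2) ≤ 1 := Real.exp_le_one_iff.2 (by nlinarith [sq_nonneg z])
  have hE0 : 0 < Real.exp (-z ^ 2 / 2) := Real.exp_pos _
  set e : ℝ := min (1 / 10) (η / (160 * (B + 1))) with he
  have he0 : 0 < e := by rw [he]; positivity
  have he1 : e ≤ 1 / 10 := min_le_left _ _
  have he2 : e * (160 * (B + 1)) ≤ η := by
    have := min_le_right (1 / 10 : ℝ) (η / (160 * (B + 1)))
    rw [← he, le_div_iff₀ (by positivity)] at this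
    exact this
  obtain ⟨Y, δ, _, hFY, hδ, hε⟩ := level hd hd3 F he0 0
  have hb := seq_bounds hd hd3 F f hFY he0 (by linarith) hε hδ h (show 0 < η / 4 by positivity)
  obtain ⟨l1, l2⟩ := hlevel hFY he0 (by linarith) hε hδ
  have har := level_arith he0 he1 (cY_nonneg F f (d := d) hδ) (gz_pos 0) (l1.trans (by linarith : u ≤ B + 1))
  obtain ⟨N, hN⟩ := eventually_atTop.1 hb
  refine ⟨N, fun n hn => ?_⟩
  have p1 := hN n hn
  change _ < _ * gz z + _ ∧ _ * gz z - _ < _ at p1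
  rw [gz_eq z] at p1
  set E := Real.exp (-z ^ 2 / 2) with hE
  set U := Real.exp e * (Real.log 3 + 2 * e) * cY d F f Y δ * gz 0 with hU
  set V := Real.exp (-e) * (Real.log 3 - 2 * e) * cY d F f Y δ * gz 0 with hV
  have p1' : Real.sqrt (k n) * MM d F f (k n) (o n) < U * E + η / 4 ∧
      V * E - η / 4 < Real.sqrt (k n) * MM d F f (k n) (o n) := by
    constructor
    · have := p1.1
      have e1 : Real.exp e * (Real.log 3 + 2 * e) * cY d F f Y δ * (gz 0 * E) = U * E := by rw [hU]; ring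
      rw [e1] at this; exact this
    · have := p1.2
      have e1 : Real.exp (-e) * (Real.log 3 - 2 * e) * cY d F f Y δ * (gz 0 * E) = V * E := by rw [hV]; ring
      rw [e1] at this; exact this
  have q1 : (U - u) * E ≤ (U - V) * 1 := mul_le_mul (by linarith) hE1 hE0.le (by linarith)
  have q2 : (u - V) * E ≤ (U - V) * 1 := mul_le_mul (by linarith) hE1 hE0.le (by linarith)
  rw [Real.dist_eq, abs_lt]
  constructor
  · nlinarith [p1'.2]
  · nlinarith [p1'.1]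

/-- LOCAL LIMIT THEOREM, uniform version -/
theorem local_limit {d : ℤ} (hd : Odd d) (hd3 : IsCoprime d 3) (F : Finset ℤ) (f : ℤ) :
    ∃ u : ℝ, 0 ≤ u ∧
      (∀ K ε : ℝ, 0 < ε → ∃ k0 : ℕ, ∀ (k : ℕ) (o : ℤ), k0 ≤ k → |2 * (o : ℝ) - k| ≤ K * Real.sqrt k →
        |Real.sqrt k * MM d F f k o - u * Real.exp (-(2 * (o : ℝ) - k) ^ 2 / (2 * k))| ≤ ε) ∧
      (∀ {Y : ℕ} (_ : F ⊆ FY Y) {ε : ℝ} (_ : 0 < ε) (_ : 2 * ε < Real.log 3)
        (_ : ∀ (x g : ℤ) (j : ℕ), x ≠ 0 → Hit d (FY Y) g x j →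
          g ≠ 0 ∧ |Real.log (x : ℝ) + od d j x * Real.log 3 - j * Real.log 2 - Real.log (g : ℝ)| ≤ ε)
        {δ : ℤ → ℝ} (_ : ∀ g, HD 1 (PF d (FY Y) g) (δ g)),
        Real.exp (-ε) * (Real.log 3 - 2 * ε) * cY d F f Y δ * gz 0 ≤ u ∧
        u ≤ Real.exp ε * (Real.log 3 + 2 * ε) * cY d F f Y δ * gz 0) := by
  obtain ⟨u, hu0, hseq, hlev⟩ := seq_limit hd hd3 F f
  refine ⟨u, hu0, ?_, fun {Y} a {ε} b c e {δ} g => hlev a b c e g⟩
  intro K ε hε
  by_contra hcon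
  push Not at hcon
  choose k o hk ho hbad using hcon
  -- compactness
  have hcomp : IsCompact (Set.Icc (-K) K) := isCompact_Icc
  have hmem : ∀ i : ℕ, (2 * (o (i + 1) : ℝ) - k (i + 1)) / Real.sqrt (k (i + 1)) ∈ Set.Icc (-K) K := by
    intro i
    have h1 : (0 : ℝ) < k (i + 1) := by
      have := hk (i + 1)
      exact_mod_cast (by omega : 0 < k (i + 1))
    have hsq := Real.sqrt_pos.2 h1
    have h2 := abs_le.1 (ho (i + 1))
    constructor
    · rw [le_div_iff₀ hsq]; linarith [h2.1]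
    · rw [div_le_iff₀ hsq]; linarith [h2.2]
  obtain ⟨z, _, φ, hφ, hlim⟩ := hcomp.tendsto_subseq hmem
  have hsq : Sq (fun i => k (φ i + 1)) (fun i => o (φ i + 1)) z := by
    constructor
    · have h1 : Tendsto (fun i : ℕ => (i : ℝ)) atTop atTop := tendsto_natCast_atTop_atTop
      refine tendsto_atTop_mono (fun i => ?_) h1
      have h2 := hk (φ i + 1)
      have h3 := hφ.id_le i
      simp only [id] at h3
      exact_mod_cast (by omega : i ≤ k (φ i + 1))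
    · exact hlim
  have h1 := hseq hsq
  have h2 : Tendsto (fun i => u * Real.exp (-((2 * (o (φ i + 1) : ℝ) - k (φ i + 1)) /
      Real.sqrt (k (φ i + 1))) ^ 2 / 2)) atTop (𝓝 (u * Real.exp (-z ^ 2 / 2))) := by
    apply Tendsto.const_mul
    apply (Real.continuous_exp.tendsto _).comp
    apply Tendsto.div_const
    exact ((hsq.lim).pow 2).neg
  have h3 := (h1.sub h2).abs
  rw [sub_self, abs_zero] at h3
  obtain ⟨i, hi⟩ := (h3.eventually (gt_mem_nhds hε)).exists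
  have h4 := hbad (φ i + 1)
  have h5 : (0 : ℝ) < k (φ i + 1) := by
    have := hk (φ i + 1)
    exact_mod_cast (by omega : 0 < k (φ i + 1))
  have h6 : -((2 * (o (φ i + 1) : ℝ) - k (φ i + 1)) / Real.sqrt (k (φ i + 1))) ^ 2 / 2
      = -(2 * (o (φ i + 1) : ℝ) - k (φ i + 1)) ^ 2 / (2 * k (φ i + 1)) := by
    rw [div_pow, Real.sq_sqrt h5.le]
    field_simp
  rw [h6] at hi
  linarith

end Pool.Agent.H499R2.LT
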