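import Pool.Agent.H33.G.R_seed8.H499R2.LT.H3

/-! Project LT, task H4: positivity of the constant; both signs. -/

set_option autoImplicit false

namespace Pool.Agent.H499R2.LT

open Pool.Agent.H320R2.PD Finset Filter Topology

open Pool.Agent.H499R2.ND hiding La Ea Me FC

open Pool.Agent.H499R2.CZ

open Pool.Agent.H319R2.Lln (mu)

theorem hd_nonneg {S : Set ℤ} {l : ℝ} (h : HD 1 S l) : 0 ≤ l := by
  refine ge_of_tendsto h ?_
  filter_upwards [eventually_gt_atTop (0 : ℝ)] with X hX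
  exact div_nonneg (G_nonneg _ _) hX.le

theorem hd_mono {S S' : Set ℤ} {l l' : ℝ} (h : HD 1 S l) (h' : HD 1 S' l') (hS : S ⊆ S') : l ≤ l' := by
  refine le_of_tendsto_of_tendsto h h' ?_
  filter_upwards [eventually_gt_atTop (0 : ℝ)] with X hX
  apply div_le_div_of_nonneg_right _ hX.le
  unfold G
  have hsub : pos {x | 1 * x ∈ S} X ⊆ pos {x | 1 * x ∈ S'} X := by
    intro x hx
    rw [mem_pos] at hx ⊢
    exact ⟨hx.1, hS hx.2⟩
  exact_mod_cast card_le_card hsub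

/-- positivity of a constant at some level -/
theorem level_pos {d : ℤ} (F : Finset ℤ) (f : ℤ) {l : ℝ} (hl : HD 1 (PF d F f) l) (hlpos : 0 < l)
    {Y : ℕ} (hFY : F ⊆ FY Y) {ε : ℝ}
    (hε : ∀ (x g : ℤ) (j : ℕ), x ≠ 0 → Hit d (FY Y) g x j →
          g ≠ 0 ∧ |Real.log (x : ℝ) + od d j x * Real.log 3 - j * Real.log 2 - Real.log (g : ℝ)| ≤ ε)
    {δ : ℤ → ℝ} (hδ : ∀ g, HD 1 (PF d (FY Y) g) (δ g)) : 0 < cY d F f Y δ := by
  classical
  have hδ0 : ∀ g, 0 ≤ δ g := fun g => hd_nonneg (hδ g)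
  have hcov : ∀ X : ℝ, G {x | 1 * x ∈ PF d F f} X ≤ ∑ g ∈ GS d F f Y, G {x | 1 * x ∈ PF d (FY Y) g} X := by
    intro X
    unfold G
    have hsub : pos {x | 1 * x ∈ PF d F f} X
        ⊆ (GS d F f Y).biUnion (fun g => pos {x | 1 * x ∈ PF d (FY Y) g} X) := by
      intro x hx
      rw [mem_pos] at hx
      obtain ⟨⟨h1, h2⟩, h3⟩ := hx
      have h3' : x ∈ PF d F f := by
        have : 1 * x ∈ PF d F f := h3
        rwa [one_mul] at this
      obtain ⟨j, hj⟩ := h3'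
      obtain ⟨i, _, g, hg, e1, e2⟩ := hit_split hFY hj
      rw [mem_biUnion]
      refine ⟨g, mem_GS.2 ⟨hg, (hε x g i (by omega) e1).1, ⟨_, e2⟩⟩, ?_⟩
      rw [mem_pos]
      refine ⟨⟨h1, h2⟩, ?_⟩
      change 1 * x ∈ PF d (FY Y) g
      rw [one_mul]; exact ⟨i, e1⟩
    have := (card_le_card hsub).trans card_biUnion_le
    exact_mod_cast this
  have hle : l ≤ ∑ g ∈ GS d F f Y, δ g := by
    have h1 : Tendsto (fun X : ℝ => ∑ g ∈ GS d F f Y, G {x | 1 * x ∈ PF d (FY Y) g} X / X) atTop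
        (𝓝 (∑ g ∈ GS d F f Y, δ g)) := tendsto_finsetSum _ fun g _ => hδ g
    refine le_of_tendsto_of_tendsto hl h1 ?_
    filter_upwards [eventually_gt_atTop (0 : ℝ)] with X hX
    rw [← sum_div]
    exact div_le_div_of_nonneg_right (hcov X) hX.le
  obtain ⟨g, hg, hgpos⟩ : ∃ g ∈ GS d F f Y, 0 < δ g := by
    by_contra hcon
    push Not at hcon
    have : ∑ g ∈ GS d F f Y, δ g ≤ 0 := sum_nonpos hcon
    linarith
  unfold cY
  refine lt_of_lt_of_le ?_ (single_le_sum (f := fun g => Real.exp (-kap d F f g) * δ g)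
    (fun g' _ => mul_nonneg (Real.exp_pos _).le (hδ0 g')) hg)
  exact mul_pos (Real.exp_pos _) hgpos

/-- if the density is zero then so are the constants -/
theorem level_zero {d : ℤ} (F : Finset ℤ) (f : ℤ) (hl : HD 1 (PF d F f) 0)
    {Y : ℕ} (hFY : F ⊆ FY Y) {δ : ℤ → ℝ} (hδ : ∀ g, HD 1 (PF d (FY Y) g) (δ g)) : cY d F f Y δ = 0 := by
  unfold cY
  apply sum_eq_zero
  intro g hg
  have h1 : PF d (FY Y) g ⊆ PF d F f := by
    rintro x ⟨i, hi⟩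
    obtain ⟨j, hj⟩ := (mem_GS.1 hg).2.2
    exact ⟨_, hit_join hFY hi hj⟩
  have h2 := hd_mono (hδ g) hl h1
  have h3 := hd_nonneg (hδ g)
  rw [le_antisymm h2 h3, mul_zero]

/-- LOCAL LIMIT THEOREM for first hits of `F` in `f`, positive side -/
theorem local_f {d : ℤ} (hd : Odd d) (hd3 : IsCoprime d 3) (F : Finset ℤ) (f : ℤ) {l : ℝ}
    (hl : HD 1 (PF d F f) l) :
    ∃ u : ℝ, 0 ≤ u ∧ (0 < u ↔ 0 < l) ∧ ∀ K ε : ℝ, 0 < ε → ∃ k0 : ℕ, ∀ (k : ℕ) (o : ℤ), k0 ≤ k →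
      |2 * (o : ℝ) - k| ≤ K * Real.sqrt k →
        |Real.sqrt k * MM d F f k o - u * Real.exp (-(2 * (o : ℝ) - k) ^ 2 / (2 * k))| ≤ ε := by
  obtain ⟨u, hu0, h, hlev⟩ := local_limit hd hd3 F f
  refine ⟨u, hu0, ?_, h⟩
  have hl1 : 1 ≤ Real.log 3 := by
    rw [Real.le_log_iff_exp_le (by norm_num)]
    linarith [Real.exp_one_lt_d9]
  obtain ⟨Y, δ, _, hFY, hδ, hε⟩ := level hd hd3 F (show (0 : ℝ) < 1 / 10 by norm_num) 0
  obtain ⟨h1, h1'⟩ := hlev hFY (by norm_num) (by linarith) hε hδ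
  have h3 := gz_pos 0
  have h4 : 0 < Real.log 3 - 2 * (1 / 10) := by linarith
  constructor
  · intro hu
    rcases (hd_nonneg hl).eq_or_lt with h0 | h0
    · exfalso
      rw [← h0] at hl
      rw [level_zero F f hl hFY hδ] at h1'
      linarith
    · exact h0
  · intro h0
    have h2 := level_pos F f hl h0 hFY hε hδ
    refine lt_of_lt_of_le ?_ h1
    positivity

/-- number of positive integers which meet `F` for the first time after `k` steps with `o` odd terms -/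
noncomputable def NF (d : ℤ) (F : Finset ℤ) (k : ℕ) (o : ℤ) : ℝ :=
  ({x : ℤ | 0 < x ∧ (∃ f, Hit d F f x k) ∧ od d k x = o}.ncard : ℝ)

theorem SF_finite {d : ℤ} (hd : Odd d) (hd3 : IsCoprime d 3) (F : Finset ℤ) (f : ℤ) (k : ℕ) (o : ℤ) :
    {x : ℤ | 0 < x ∧ x ∈ SF d F f k o}.Finite := by
  obtain ⟨C, hC, hb⟩ := bres hd hd3 F f
  apply (Set.finite_Icc (0 : ℤ) ⌈Real.exp (k * Real.log 2 - o * Real.log 3 + C)⌉).subset
  rintro x ⟨hx, j, hj, hh, ho⟩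
  refine ⟨hx.le, ?_⟩
  have h1 := hb x j (by omega) hh
  have hj' : j = k := by omega
  rw [ho, hj'] at h1
  have h3 := (abs_le.1 h1).2
  have hx0 : (0 : ℝ) < x := by exact_mod_cast hx
  have h5 : (x : ℝ) ≤ Real.exp (k * Real.log 2 - o * Real.log 3 + C) :=
    (Real.log_le_iff_le_exp hx0).1 (by linarith)
  have h6 := Int.le_ceil (Real.exp (k * Real.log 2 - o * Real.log 3 + C))
  exact_mod_cast h5.trans h6

theorem NF_sum {d : ℤ} (hd : Odd d) (hd3 : IsCoprime d 3) (F : Finset ℤ) (k : ℕ) (o : ℤ) :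
    NF d F k o = ∑ f ∈ F, NN d F f k o := by
  classical
  unfold NF NN
  have h1 : {x : ℤ | 0 < x ∧ (∃ f, Hit d F f x k) ∧ od d k x = o}
      = ((F.biUnion fun f => (SF_finite hd hd3 F f k o).toFinset : Finset ℤ) : Set ℤ) := by
    ext x
    rw [mem_coe, mem_biUnion]
    constructor
    · rintro ⟨hx, ⟨f, hf⟩, ho⟩
      refine ⟨f, hf.2.1, ?_⟩
      rw [Set.Finite.mem_toFinset]
      exact ⟨hx, k, rfl, hf, ho⟩
    · rintro ⟨f, hf, hx⟩
      rw [Set.Finite.mem_toFinset] at hx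
      obtain ⟨hx, j, hj, hh, ho⟩ := hx
      have hj' : j = k := by exact_mod_cast hj
      subst hj'
      exact ⟨hx, ⟨f, hh⟩, ho⟩
  rw [h1, Set.ncard_coe_finset, card_biUnion]
  · push_cast
    apply sum_congr rfl
    intro f _
    rw [Set.ncard_eq_toFinset_card _ (SF_finite hd hd3 F f k o)]
  · intro f _ g _ hfg
    rw [Function.onFun, Finset.disjoint_left]
    intro x hx hx'
    rw [Set.Finite.mem_toFinset] at hx hx'
    obtain ⟨_, j, _, hh, _⟩ := hx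
    obtain ⟨_, j', _, hh', _⟩ := hx'
    exact hfg (Hit_unique hh hh').1

theorem Dn_zero : Dn (fun _ => False) 0 := by
  unfold Dn Pool.Agent.H499R2.ND.cnt
  refine tendsto_const_nhds.congr fun N => ?_
  have : {n : ℕ | 1 ≤ n ∧ n ≤ N ∧ False} = ∅ := by
    ext n; simp
  rw [this]; simp

theorem Dn_iff {P Q : ℕ → Prop} {l : ℝ} (h : ∀ n, 1 ≤ n → (P n ↔ Q n)) (hP : Dn P l) : Dn Q l := by
  unfold Dn Pool.Agent.H499R2.ND.cnt at *
  refine hP.congr fun N => ?_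
  have : {n : ℕ | 1 ≤ n ∧ n ≤ N ∧ P n} = {n : ℕ | 1 ≤ n ∧ n ≤ N ∧ Q n} := by
    ext n
    constructor
    · rintro ⟨h1, h2, h3⟩; exact ⟨h1, h2, (h n h1).1 h3⟩
    · rintro ⟨h1, h2, h3⟩; exact ⟨h1, h2, (h n h1).2 h3⟩
  rw [this]

theorem Dn_add {P Q : ℕ → Prop} {l l' : ℝ} (hP : Dn P l) (hQ : Dn Q l') (hd : ∀ n, ¬ (P n ∧ Q n)) :
    Dn (fun n => P n ∨ Q n) (l + l') := by
  unfold Dn at *
  refine (hP.add hQ).congr fun N => ?_
  rw [← add_div]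
  congr 1
  unfold Pool.Agent.H499R2.ND.cnt
  have hf : ∀ R : ℕ → Prop, {n : ℕ | 1 ≤ n ∧ n ≤ N ∧ R n}.Finite := fun R =>
    (Set.finite_Icc 1 N).subset fun n hn => ⟨hn.1, hn.2.1⟩
  have : {n : ℕ | 1 ≤ n ∧ n ≤ N ∧ (P n ∨ Q n)}
      = {n : ℕ | 1 ≤ n ∧ n ≤ N ∧ P n} ∪ {n : ℕ | 1 ≤ n ∧ n ≤ N ∧ Q n} := by
    ext n
    simp only [Set.mem_ofPred_eq, Set.mem_union]
    tauto
  rw [this, Set.ncard_union_eq _ (hf P) (hf Q)]
  · push_cast; ring
  · rw [Set.disjoint_left]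
    rintro n ⟨_, _, h1⟩ ⟨_, _, h2⟩
    exact hd n ⟨h1, h2⟩

theorem Dn_sum {ι : Type*} (A : Finset ι) (P : ι → ℕ → Prop) (l : ι → ℝ) (h : ∀ i ∈ A, Dn (P i) (l i))
    (hd : ∀ n, ∀ i ∈ A, ∀ j ∈ A, P i n → P j n → i = j) :
    Dn (fun n => ∃ i ∈ A, P i n) (∑ i ∈ A, l i) := by
  classical
  induction A using Finset.induction_on with
  | empty =>
    rw [sum_empty]
    exact Dn_iff (fun n _ => by simp) Dn_zero
  | insert a A ha ih =>
    rw [sum_insert ha]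
    have h1 := ih (fun i hi => h i (mem_insert_of_mem hi))
      (fun n i hi j hj => hd n i (mem_insert_of_mem hi) j (mem_insert_of_mem hj))
    refine Dn_iff (fun n _ => ?_) (Dn_add (h a (mem_insert_self a A)) h1 ?_)
    · constructor
      · rintro (hn | ⟨i, hi, hn⟩)
        · exact ⟨a, mem_insert_self a A, hn⟩
        · exact ⟨i, mem_insert_of_mem hi, hn⟩
      · rintro ⟨i, hi, hn⟩
        rcases mem_insert.1 hi with hi | hi
        · left; rw [← hi]; exact hn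
        · exact Or.inr ⟨i, hi, hn⟩
    · rintro n ⟨h1, i, hi, h2⟩
      have := hd n a (mem_insert_self a A) i (mem_insert_of_mem hi) h1 h2
      rw [this] at ha
      exact ha hi

/-- a trajectory meets `F` iff there is a first hit -/
theorem hit_iff {d : ℤ} {F : Finset ℤ} {x : ℤ} {k : ℕ} (h : (Td d)^[k] x ∈ F) :
    ∃ j ≤ k, ∃ f, Hit d F f x j := by
  classical
  have hex : ∃ k, (Td d)^[k] x ∈ F := ⟨k, h⟩
  refine ⟨Nat.find hex, Nat.find_min' hex h, (Td d)^[Nat.find hex] x, rfl, Nat.find_spec hex,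
    fun i hi => Nat.find_min hex hi⟩

theorem dn_PF {d : ℤ} {F : Finset ℤ} {f : ℤ} {l : ℝ} (hl : HD 1 (PF d F f) l) :
    Dn (fun n : ℕ => (n : ℤ) ∈ PF d F f) l := by
  refine (HD_ncard (Or.inl rfl) hl).congr fun N => ?_
  unfold Pool.Agent.H499R2.ND.cnt
  congr 2
  have : {n : ℤ | 0 < 1 * n ∧ 1 * n ≤ N ∧ n ∈ PF d F f}
      = (fun n : ℕ => (n : ℤ)) '' {n : ℕ | 1 ≤ n ∧ n ≤ N ∧ (n : ℤ) ∈ PF d F f} := by
    ext x
    rw [Set.mem_image]
    constructor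
    · rintro ⟨h1, h2, h3⟩
      refine ⟨x.toNat, ⟨by omega, by omega, ?_⟩, by omega⟩
      rw [Int.toNat_of_nonneg (by omega)]; exact h3
    · rintro ⟨n, ⟨h1, h2, h3⟩, rfl⟩
      exact ⟨by omega, by omega, h3⟩
  rw [this, Set.ncard_image_of_injective _ Nat.cast_injective]

/-- THE LAWS of the hitting time of a finite set, positive side -/
theorem laws {d : ℤ} (hd : Odd d) (hd3 : ¬ (3 : ℤ) ∣ d) (F : Finset ℤ) : ∃ δ u : ℝ, 0 ≤ δ ∧ 0 ≤ u ∧
    (0 < u ↔ 0 < δ) ∧ ((∃ a ∈ F, 0 < a ∧ ¬ (3 : ℤ) ∣ a) → 0 < δ) ∧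
    Dn (fun n : ℕ => ∃ k : ℕ, (Td d)^[k] (n : ℤ) ∈ F) δ ∧
    (∀ x : ℝ, Dn (fun n : ℕ => ∃ k : ℕ, (k : ℝ) ≤ Real.log n / mu + x * sg * Real.sqrt (Real.log n) ∧
      (Td d)^[k] (n : ℤ) ∈ F) (δ * Phi x)) ∧
    ∀ K ε : ℝ, 0 < ε → ∃ k0 : ℕ, ∀ (k : ℕ) (o : ℤ), k0 ≤ k → |2 * (o : ℝ) - k| ≤ K * Real.sqrt k →
      |Real.sqrt k * (NF d F k o * (3 : ℝ) ^ o / 2 ^ k)
        - u * Real.exp (-(2 * (o : ℝ) - k) ^ 2 / (2 * k))| ≤ ε := by
  classical
  have hc3 := cop_of_not_dvd hd3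
  choose l hl using fun f => hd_exists hd hc3 F f
  choose u hu0 hul hloc using fun f => local_f hd hc3 F f (hl f)
  have hl0 : ∀ f, 0 ≤ l f := fun f => hd_nonneg (hl f)
  have hδ : Dn (fun n : ℕ => ∃ k : ℕ, (Td d)^[k] (n : ℤ) ∈ F) (∑ f ∈ F, l f) := by
    refine Dn_iff (fun n _ => ?_) (Dn_sum F (fun f n => (n : ℤ) ∈ PF d F f) l (fun f _ => dn_PF (hl f)) ?_)
    · constructor
      · rintro ⟨f, hf, j, hj⟩
        exact ⟨j, hj.1 ▸ hf⟩
      · rintro ⟨k, hk⟩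
        obtain ⟨j, _, f, hf⟩ := hit_iff hk
        exact ⟨f, hf.2.1, j, hf⟩
    · rintro n f _ g _ ⟨j, hj⟩ ⟨j', hj'⟩
      exact (Hit_unique hj hj').1
  refine ⟨∑ f ∈ F, l f, ∑ f ∈ F, u f, sum_nonneg fun f _ => hl0 f, sum_nonneg fun f _ => hu0 f, ?_, ?_, hδ, ?_, ?_⟩
  · constructor
    · intro h
      obtain ⟨f, hf, hf'⟩ : ∃ f ∈ F, 0 < u f := by
        by_contra hcon
        push Not at hcon
        linarith [sum_nonpos hcon]
      exact lt_of_lt_of_le ((hul f).1 hf') (single_le_sum (fun f _ => hl0 f) hf)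
    · intro h
      obtain ⟨f, hf, hf'⟩ : ∃ f ∈ F, 0 < l f := by
        by_contra hcon
        push Not at hcon
        linarith [sum_nonpos hcon]
      exact lt_of_lt_of_le ((hul f).2 hf') (single_le_sum (fun f _ => hu0 f) hf)
  · rintro ⟨a, haF, ha, ha3⟩
    obtain ⟨la, hla⟩ := hd_exists hd hc3 {a} a
    have h1 := PF_pos hd hd3 ha ha3 hla
    have h2 := dn_PF hla
    refine lt_of_lt_of_le h1 ?_
    refine le_of_tendsto_of_tendsto' h2 hδ fun N => ?_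
    apply div_le_div_of_nonneg_right _ (Nat.cast_nonneg N)
    unfold Pool.Agent.H499R2.ND.cnt
    have hf : {n : ℕ | 1 ≤ n ∧ n ≤ N ∧ ∃ k : ℕ, (Td d)^[k] (n : ℤ) ∈ F}.Finite :=
      (Set.finite_Icc 1 N).subset fun n hn => ⟨hn.1, hn.2.1⟩
    have hsub : {n : ℕ | 1 ≤ n ∧ n ≤ N ∧ (n : ℤ) ∈ PF d {a} a}
        ⊆ {n : ℕ | 1 ≤ n ∧ n ≤ N ∧ ∃ k : ℕ, (Td d)^[k] (n : ℤ) ∈ F} := by
      rintro n ⟨hn1, hn2, j, hj⟩
      exact ⟨hn1, hn2, j, by rw [hj.1]; exact haF⟩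
    exact_mod_cast Set.ncard_le_ncard hsub hf
  · intro x
    have h1 := Dn_sum F (fun f n => evF d F f x n) (fun f => l f * Phi x)
      (fun f _ => cltF hd hc3 F f (hl f) x) (by
        rintro n f _ g _ ⟨j, _, hj⟩ ⟨j', _, hj'⟩
        exact (Hit_unique hj hj').1)
    rw [← sum_mul] at h1
    refine Dn_iff (fun n _ => ?_) h1
    constructor
    · rintro ⟨f, hf, j, hj1, hj⟩
      exact ⟨j, hj1, hj.1 ▸ hf⟩
    · rintro ⟨k, hk1, hk⟩
      obtain ⟨j, hjk, f, hf⟩ := hit_iff hk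
      have : (j : ℝ) ≤ k := by exact_mod_cast hjk
      exact ⟨f, hf.2.1, j, by linarith, hf⟩
  · intro K ε hε
    have hcard : (0 : ℝ) < F.card + 1 := by positivity
    choose k0 hk0 using fun f => hloc f K (ε / (F.card + 1)) (by positivity)
    refine ⟨F.sup k0, fun k o hk ho => ?_⟩
    rw [NF_sum hd hc3, sum_mul, sum_div, mul_sum, sum_mul, ← sum_sub_distrib]
    refine (abs_sum_le_sum_abs _ _).trans ?_
    have h1 : ∀ f ∈ F, |Real.sqrt k * (NN d F f k o * (3 : ℝ) ^ o / 2 ^ k)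
        - u f * Real.exp (-(2 * (o : ℝ) - k) ^ 2 / (2 * k))| ≤ ε / (F.card + 1) := fun f hf =>
      hk0 f k o ((Finset.le_sup (f := k0) hf).trans hk) ho
    refine (sum_le_sum h1).trans ?_
    rw [sum_const, nsmul_eq_mul, mul_div_assoc', div_le_iff₀ hcard]
    nlinarith

end Pool.Agent.H499R2.LT
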