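import Pool.Agent.H33.G.R_seed8.H499R2.LT.H4
import Pool.Agent.H33.G.R_seed8.H499R2.LT.BL
import Pool.Agent.H33.G.R_seed8.H499R2.NDK

/-! Project LT: final forms. Both signs; comparison with binomial coefficients. -/

set_option autoImplicit false

namespace Pool.Agent.H499R2.LT

open Pool.Agent.H320R2.PD Finset Filter Topology

open Pool.Agent.H499R2.ND hiding La Ea Me FC

open Pool.Agent.H499R2.CZ

open Pool.Agent.H319R2.Lln (mu)

theorem llt_binom {N : ℕ → ℤ → ℝ} {u : ℝ} (hu : 0 ≤ u)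
    (h : ∀ K ε : ℝ, 0 < ε → ∃ k0 : ℕ, ∀ (k : ℕ) (o : ℤ), k0 ≤ k → |2 * (o : ℝ) - k| ≤ K * Real.sqrt k →
      |Real.sqrt k * (N k o * (3 : ℝ) ^ o / 2 ^ k)
        - u * Real.exp (-(2 * (o : ℝ) - k) ^ 2 / (2 * k))| ≤ ε) :
    ∀ K ε : ℝ, 0 < ε → ∃ k0 : ℕ, ∀ k o : ℕ, k0 ≤ k → |2 * (o : ℝ) - k| ≤ K * Real.sqrt k →
      |N k o * (3 : ℝ) ^ o / (k.choose o : ℝ) - u * Real.sqrt (Real.pi / 2)| ≤ ε := by
  intro K ε hε
  set s2 := Real.sqrt (Real.pi / 2) with hs2
  have hs20 : 0 < s2 := Real.sqrt_pos.2 (by positivity)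
  set e := Real.exp (-K ^ 2 / 2) with he
  have he0 : 0 < e := Real.exp_pos _
  set ε1 : ℝ := ε * e / (4 * s2) with hε1
  have hε1' : 0 < ε1 := by positivity
  set ε2 : ℝ := min (e / 2) (ε * e / (4 * s2 * (u + 1))) with hε2
  have hε2' : 0 < ε2 := lt_min (by positivity) (by positivity)
  obtain ⟨k1, hk1⟩ := h K ε1 hε1'
  obtain ⟨k2, hk2⟩ := binom_local K ε2 hε2'
  refine ⟨max k1 (max k2 1), fun k o hk ho => ?_⟩
  have hkk1 : k1 ≤ k := (le_max_left _ _).trans hk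
  have hkk2 : k2 ≤ k := ((le_max_left _ _).trans (le_max_right _ _)).trans hk
  have hk0 : 1 ≤ k := ((le_max_right _ _).trans (le_max_right _ _)).trans hk
  have hkR : (1 : ℝ) ≤ k := by exact_mod_cast hk0
  have h1 := hk1 k o hkk1 (by exact_mod_cast ho)
  have h2 := hk2 k o hkk2 ho
  push_cast at h1
  set E := Real.exp (-(2 * (o : ℝ) - k) ^ 2 / (2 * k)) with hE
  have hEe : e ≤ E := by
    apply Real.exp_le_exp.2
    have h3 : (2 * (o : ℝ) - k) ^ 2 ≤ K ^ 2 * k := by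
      have h4 : |2 * (o : ℝ) - k| ^ 2 ≤ (K * Real.sqrt k) ^ 2 :=
        pow_le_pow_left₀ (abs_nonneg _) ho 2
      rw [sq_abs, mul_pow, Real.sq_sqrt (by linarith)] at h4
      exact h4
    rw [div_le_div_iff₀ (by norm_num) (by positivity)]
    nlinarith
  set sk := Real.sqrt k with hsk
  have hsk0 : 0 < sk := Real.sqrt_pos.2 (by linarith)
  set q : ℝ := sk * (k.choose o : ℝ) / 2 ^ k with hq
  have e1 : Real.sqrt (Real.pi * k / 2) = s2 * sk := by
    rw [hs2, hsk, ← Real.sqrt_mul (by positivity)]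
    congr 1; ring
  have h2' : |s2 * q - E| ≤ ε2 := by
    have : s2 * q = Real.sqrt (Real.pi * k / 2) * (k.choose o : ℝ) / 2 ^ k := by
      rw [e1, hq]; ring
    rw [this]; exact h2
  have h5 : e / 2 ≤ s2 * q := by
    have := (abs_le.1 h2').1
    have h6 : ε2 ≤ e / 2 := min_le_left _ _
    linarith
  have hq0 : 0 < q := by
    by_contra hcon
    push Not at hcon
    nlinarith
  have hch : (0 : ℝ) < (k.choose o : ℝ) := by
    by_contra hcon
    have h7 : (k.choose o : ℝ) = 0 := le_antisymm (not_lt.1 hcon) (Nat.cast_nonneg _)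
    rw [hq, h7] at hq0
    simp at hq0
  have h8 : N k o * (3 : ℝ) ^ (o : ℤ) / (k.choose o : ℝ) = (sk * (N k o * (3 : ℝ) ^ (o : ℤ) / 2 ^ k)) / q := by
    rw [hq]
    field_simp
  have h9 : |sk * (N k o * (3 : ℝ) ^ (o : ℤ) / 2 ^ k) - u * (s2 * q)| ≤ ε1 + u * ε2 := by
    have : sk * (N k o * (3 : ℝ) ^ (o : ℤ) / 2 ^ k) - u * (s2 * q)
        = (sk * (N k o * (3 : ℝ) ^ (o : ℤ) / 2 ^ k) - u * E) - u * (s2 * q - E) := by ring
    rw [this]
    refine (abs_sub _ _).trans (add_le_add h1 ?_)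
    rw [abs_mul, abs_of_nonneg hu]
    exact mul_le_mul_of_nonneg_left h2' hu
  have h10 : N k o * (3 : ℝ) ^ o / (k.choose o : ℝ) - u * s2
      = (sk * (N k o * (3 : ℝ) ^ (o : ℤ) / 2 ^ k) - u * (s2 * q)) / q := by
    rw [← zpow_natCast, h8]
    field_simp
  rw [h10, abs_div, abs_of_pos hq0, div_le_iff₀ hq0]
  refine h9.trans ?_
  have h11 : e / (2 * s2) ≤ q := by
    rw [div_le_iff₀ (by positivity)]
    linarith
  have h12 : u * ε2 ≤ ε * e / (4 * s2) := by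
    have h13 : ε2 ≤ ε * e / (4 * s2 * (u + 1)) := min_le_right _ _
    have h14 : u * ε2 ≤ u * (ε * e / (4 * s2 * (u + 1))) := mul_le_mul_of_nonneg_left h13 hu
    refine h14.trans ?_
    rw [mul_div_assoc', div_le_div_iff₀ (by positivity) (by positivity)]
    have : 0 ≤ ε * e * (4 * s2) := by positivity
    nlinarith
  have h15 : ε * (e / (2 * s2)) ≤ ε * q := mul_le_mul_of_nonneg_left h11 hε.le
  have h16 : ε1 + ε * e / (4 * s2) = ε * (e / (2 * s2)) := by
    rw [hε1]; field_simp; norm_num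
  linarith

/-- the level sets: integers of the sign of `s` which meet `F` for the first time at time `k`, with
`o` odd terms before -/
def Lev (d s : ℤ) (F : Finset ℤ) (k : ℕ) (o : ℤ) : Set ℤ :=
  {x : ℤ | 0 < s * x ∧ (Td d)^[k] x ∈ F ∧ (∀ i < k, (Td d)^[i] x ∉ F) ∧ od d k x = o}

theorem ss {s : ℤ} (hs : s = 1 ∨ s = -1) (x : ℤ) : s * (s * x) = x := by
  rcases hs with rfl | rfl <;> ring

theorem od_side {d : ℤ} (hd : Odd d) {s : ℤ} (hs : s = 1 ∨ s = -1) (k : ℕ) (x : ℤ) :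
    od (s * d) k x = od d k (s * x) := by
  induction k generalizing x with
  | zero => rfl
  | succ k ih =>
    rw [od, od, ih]
    have h1 : Td (s * d) x = s * Td d (s * x) := by
      have := Td_side hd hs 1 x
      simpa using this
    rw [h1, ss hs]
    congr 1
    have h2 : (s * x) % 2 = 0 ↔ x % 2 = 0 := by
      rcases hs with rfl | rfl <;> omega
    by_cases h : x % 2 = 0
    · rw [if_pos h, if_pos (h2.2 h)]
    · rw [if_neg h, if_neg (fun h' => h (h2.1 h'))]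

theorem mem_side {s : ℤ} (hs : s = 1 ∨ s = -1) (F : Finset ℤ) (y : ℤ) :
    s * y ∈ F.image (fun a => s * a) ↔ y ∈ F := by
  rw [mem_image]
  constructor
  · rintro ⟨a, ha, h⟩
    have : a = y := by
      have h2 := congrArg (fun z => s * z) h
      simp only [ss hs] at h2
      exact h2
    rwa [← this]
  · intro h
    exact ⟨y, h, rfl⟩

theorem lev_side {d : ℤ} (hd : Odd d) {s : ℤ} (hs : s = 1 ∨ s = -1) (F : Finset ℤ) (k : ℕ) (o x : ℤ) :
    (0 < x ∧ (∃ f, Hit (s * d) (F.image (fun a => s * a)) f x k) ∧ od (s * d) k x = o) ↔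
      s * x ∈ Lev d s F k o := by
  unfold Lev
  rw [Set.mem_ofPred_eq, ss hs, od_side hd hs]
  constructor
  · rintro ⟨h1, ⟨f, h2, h3, h4⟩, h5⟩
    refine ⟨h1, ?_, fun i hi hm => ?_, h5⟩
    · rw [← h2, Td_side hd hs, mem_side hs] at h3
      exact h3
    · apply h4 i hi
      rw [Td_side hd hs, mem_side hs]
      exact hm
  · rintro ⟨h1, h2, h3, h5⟩
    refine ⟨h1, ⟨_, rfl, ?_, fun i hi hm => ?_⟩, h5⟩
    · rw [Td_side hd hs, mem_side hs]
      exact h2
    · rw [Td_side hd hs, mem_side hs] at hm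
      exact h3 i hi hm

theorem ncard_Lev {d : ℤ} (hd : Odd d) {s : ℤ} (hs : s = 1 ∨ s = -1) (F : Finset ℤ) (k : ℕ) (o : ℤ) :
    ((Lev d s F k o).ncard : ℝ) = NF (s * d) (F.image (fun a => s * a)) k o := by
  unfold NF
  have h1 : Lev d s F k o = (fun x => s * x) ''
      {x : ℤ | 0 < x ∧ (∃ f, Hit (s * d) (F.image (fun a => s * a)) f x k) ∧ od (s * d) k x = o} := by
    ext y
    rw [Set.mem_image]
    constructor
    · intro hy
      refine ⟨s * y, ?_, ss hs y⟩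
      rw [Set.mem_ofPred_eq, lev_side hd hs, ss hs]
      exact hy
    · rintro ⟨x, hx, rfl⟩
      rw [Set.mem_ofPred_eq, lev_side hd hs] at hx
      exact hx
  have hinj : Function.Injective (fun x : ℤ => s * x) := by
    intro x y h
    have h2 := congrArg (fun z => s * z) h
    simp only [ss hs] at h2
    exact h2
  rw [h1, Set.ncard_image_of_injective _ hinj]

/-- the density of a set of integers of the sign of `s` -/
theorem hit_side {d : ℤ} (hd : Odd d) {s : ℤ} (hs : s = 1 ∨ s = -1) (F : Finset ℤ) (k : ℕ) (x : ℤ) :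
    (Td (s * d))^[k] x ∈ F.image (fun a => s * a) ↔ (Td d)^[k] (s * x) ∈ F := by
  rw [Td_side hd hs, mem_side hs]

/-- THE LAWS of the hitting times, both signs: density, central limit theorem, local limit theorem -/
theorem laws_side {d : ℤ} (hd : Odd d) (hd3 : ¬ (3 : ℤ) ∣ d) {s : ℤ} (hs : s = 1 ∨ s = -1) (F : Finset ℤ) :
    ∃ δ c : ℝ, 0 ≤ δ ∧ 0 ≤ c ∧ (0 < c ↔ 0 < δ) ∧
    ((∃ a ∈ F, 0 < s * a ∧ ¬ (3 : ℤ) ∣ a) → 0 < δ) ∧
    Dn (fun n : ℕ => ∃ k : ℕ, (Td d)^[k] (s * n) ∈ F) δ ∧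
    (∀ x : ℝ, Dn (fun n : ℕ => ∃ k : ℕ, (k : ℝ) ≤ Real.log n / mu + x * sg * Real.sqrt (Real.log n) ∧
      (Td d)^[k] (s * n) ∈ F) (δ * Phi x)) ∧
    ∀ K ε : ℝ, 0 < ε → ∃ k0 : ℕ, ∀ k o : ℕ, k0 ≤ k → |2 * (o : ℝ) - k| ≤ K * Real.sqrt k →
      |((Lev d s F k o).ncard : ℝ) * (3 : ℝ) ^ o / (k.choose o : ℝ) - c| ≤ ε := by
  have hd' : Odd (s * d) := by
    rcases hs with rfl | rfl
    · simpa using hd
    · rw [neg_one_mul]; exact hd.neg
  have hd3' : ¬ (3 : ℤ) ∣ s * d := by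
    rcases hs with rfl | rfl
    · simpa using hd3
    · rw [neg_one_mul, dvd_neg]; exact hd3
  obtain ⟨δ, u, hδ, hu, h1, h2, h3, h4, h5⟩ := laws hd' hd3' (F.image (fun a => s * a))
  have hpi : 0 < Real.sqrt (Real.pi / 2) := Real.sqrt_pos.2 (by positivity)
  refine ⟨δ, u * Real.sqrt (Real.pi / 2), hδ, mul_nonneg hu hpi.le, ?_, ?_, ?_, ?_, ?_⟩
  · rw [← h1]
    constructor
    · intro h
      rcases hu.eq_or_lt with h' | h'
      · rw [← h'] at h; simp at h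
      · exact h'
    · intro h
      exact mul_pos h hpi
  · rintro ⟨a, haF, ha, ha3⟩
    apply h2
    refine ⟨s * a, mem_image_of_mem _ haF, ha, ?_⟩
    rcases hs with rfl | rfl
    · simpa using ha3
    · rw [neg_one_mul, dvd_neg]; exact ha3
  · exact Dn_iff (fun n _ => exists_congr fun k => hit_side hd hs F k n) h3
  · intro x
    exact Dn_iff (fun n _ => exists_congr fun k => and_congr_right fun _ => hit_side hd hs F k n) (h4 x)
  · have h6 := llt_binom hu h5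
    intro K ε hε
    obtain ⟨k0, hk0⟩ := h6 K ε hε
    refine ⟨k0, fun k o hk ho => ?_⟩
    rw [ncard_Lev hd hs]
    exact hk0 k o hk ho

/-- the size of the elements of the level sets -/
theorem lev_size {d : ℤ} (hd : Odd d) (hd3 : ¬ (3 : ℤ) ∣ d) {s : ℤ} (F : Finset ℤ) :
    ∃ A : ℝ, 1 ≤ A ∧ ∀ (k : ℕ) (o : ℕ) (x : ℤ), x ∈ Lev d s F k o →
      2 ^ k / (A * 3 ^ o) ≤ |(x : ℝ)| ∧ |(x : ℝ)| ≤ A * 2 ^ k / 3 ^ o := by
  classical
  have hc3 := cop_of_not_dvd hd3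
  choose C hC hb using fun f => bres hd hc3 F f
  set B := ∑ f ∈ F, C f with hB
  have hCB : ∀ f ∈ F, C f ≤ B := fun f hf => single_le_sum (fun g _ => (hC g).le) hf
  have hB0 : 0 ≤ B := sum_nonneg fun f _ => (hC f).le
  refine ⟨Real.exp B, Real.one_le_exp hB0, ?_⟩
  rintro k o x ⟨hx, h1, h2, h3⟩
  have hx0 : x ≠ 0 := by rintro rfl; simp at hx
  have h4 := hb _ x k hx0 ⟨rfl, h1, h2⟩
  have h5 := h4.trans (hCB _ h1)
  rw [h3, abs_le] at h5
  have hxa : 0 < |(x : ℝ)| := abs_pos.2 (by exact_mod_cast hx0)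
  have e1 : Real.log |(x : ℝ)| = Real.log x := Real.log_abs _
  have h2k : (2 : ℝ) ^ k = Real.exp (k * Real.log 2) := by
    rw [← Real.rpow_natCast, Real.rpow_def_of_pos (by norm_num), mul_comm]
  have h3o : (3 : ℝ) ^ o = Real.exp (o * Real.log 3) := by
    rw [← Real.rpow_natCast, Real.rpow_def_of_pos (by norm_num), mul_comm]
  push_cast at h5
  constructor
  · have e2 : (2 : ℝ) ^ k / (Real.exp B * 3 ^ o) = Real.exp (k * Real.log 2 - B - o * Real.log 3) := by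
      rw [h2k, h3o, ← Real.exp_add, ← Real.exp_sub]
      congr 1; ring
    rw [e2, ← Real.le_log_iff_exp_le hxa, e1]
    linarith [h5.1]
  · have e2 : Real.exp B * 2 ^ k / 3 ^ o = Real.exp (B + k * Real.log 2 - o * Real.log 3) := by
      rw [h2k, h3o, ← Real.exp_add, ← Real.exp_sub]
    rw [e2, ← Real.log_le_iff_le_exp hxa, e1]
    linarith [h5.2]

end Pool.Agent.H499R2.LT
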