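import Pool.Agent.H33.G.R_seed8.H499R2.LT.R2

/-! Project LT: local limit theorem for the Collatz map on the integers. -/

set_option autoImplicit false

namespace Pool.Agent.H499R2.LT

open Pool.Agent.H320R2.PD Finset Filter Topology

open Pool.Agent.H499R2.ND hiding La Ea Me FC

open Pool.Agent.H499R2.CZ

open Pool.Agent.H319R2.Lln (mu)

theorem od_nn (d : ℤ) (k : ℕ) (x : ℤ) : 0 ≤ od d k x := levC_iff.od_nonneg d k x

/-- first hits of the Collatz map -/
theorem firstC {F : Finset ℤ} {t : ℕ} {x : ℤ} (h : Cz^[t] x ∈ F) :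
    ∃ e o : ℕ, e + o ≤ t ∧ LevC F e o x := by
  classical
  have hex : ∃ t, Cz^[t] x ∈ F := ⟨t, h⟩
  have h1 := oC_le (Nat.find hex) x
  refine ⟨Nat.find hex - oC (Nat.find hex) x, oC (Nat.find hex) x, ?_, ?_⟩
  · have := Nat.find_min' hex h
    omega
  · unfold LevC
    rw [Nat.sub_add_cancel h1]
    exact ⟨Nat.find_spec hex, fun i hi => Nat.find_min hex hi, rfl⟩

theorem levC_hit {F : Finset ℤ} {e : ℕ} {g x : ℤ} (h : Hit 1 (FF F) g x e) : ∃ o : ℕ, LevC F e o x := by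
  have hnn := od_nn 1 e x
  by_cases hg : g ∈ F
  · exact ⟨(od 1 e x).toNat, (levC_iff F e _ x).2 ⟨g, h, Or.inl ⟨hg, by omega⟩⟩⟩
  · exact ⟨(od 1 e x).toNat + 1, (levC_iff F e _ x).2 ⟨g, h, Or.inr ⟨hg, by push_cast; omega⟩⟩⟩

theorem hitC_iff {F : Finset ℤ} {x : ℤ} : (∃ t : ℕ, Cz^[t] x ∈ F) ↔ ∃ k : ℕ, (Td 1)^[k] x ∈ FF F := by
  constructor
  · rintro ⟨t, ht⟩
    obtain ⟨e, o, _, h⟩ := firstC ht
    obtain ⟨g, hg, _⟩ := (levC_iff F e o x).1 h
    exact ⟨e, by rw [hg.1]; exact hg.2.1⟩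
  · rintro ⟨k, hk⟩
    obtain ⟨j, _, g, hg⟩ := hit_iff hk
    obtain ⟨o, ho⟩ := levC_hit hg
    exact ⟨j + o, ho.1⟩

/-- LOCAL LIMIT THEOREM for the Collatz map on the integers -/
theorem lltC {s : ℤ} (hs : s = 1 ∨ s = -1) (F : Finset ℤ) : ∃ A c δ : ℝ, 1 ≤ A ∧ 0 ≤ c ∧
    (∀ (e o : ℕ) (x : ℤ), x ∈ LevCs s F e o → 2 ^ e / (A * 3 ^ o) ≤ |(x : ℝ)| ∧ |(x : ℝ)| ≤ A * 2 ^ e / 3 ^ o) ∧
    (∀ K ε : ℝ, 0 < ε → ∃ k0 : ℕ, ∀ e o : ℕ, k0 ≤ e → |2 * (o : ℝ) - e| ≤ K * Real.sqrt e →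
      |((LevCs s F e o).ncard : ℝ) * 3 ^ o / (e.choose o : ℝ) - c| ≤ ε) ∧
    Dn (fun n : ℕ => ∃ t : ℕ, Cz^[t] (s * n) ∈ F) δ ∧ (0 < c ↔ 0 < δ) ∧
    ((∃ a ∈ F, 0 < s * a ∧ ¬ (3 : ℤ) ∣ a) → 0 < c) := by
  classical
  have h13 : ¬ (3 : ℤ) ∣ 1 := by omega
  have hc13 := cop_of_not_dvd h13
  choose l u hl0 hu0 hul hdens hloc using fun g => laws_f odd_one h13 hs (FF F) g
  obtain ⟨δ, _, hδ0, _, _, hpos, hδ, _, _⟩ := laws_side odd_one h13 hs (FF F)
  -- the density is the sum of the densities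
  have hδs : δ = ∑ g ∈ FF F, l g := by
    refine tendsto_nhds_unique hδ ?_
    refine Dn_iff (fun n _ => ?_) (Dn_sum (FF F) (fun g n => s * (n : ℤ) ∈ PF 1 (FF F) g) l
      (fun g _ => hdens g) ?_)
    · constructor
      · rintro ⟨g, hg, j, hj⟩
        exact ⟨j, hj.1 ▸ hg⟩
      · rintro ⟨k, hk⟩
        obtain ⟨j, _, f, hf⟩ := hit_iff hk
        exact ⟨f, hf.2.1, j, hf⟩
    · rintro n f _ g _ ⟨j, hj⟩ ⟨j', hj'⟩
      exact (Hit_unique hj hj').1
  set U : ℝ := ∑ g ∈ (FF F).filter (fun g => g ∈ F), u g + ∑ g ∈ (FF F).filter (fun g => g ∉ F), 3 * u g with hU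
  have hU0 : 0 ≤ U := add_nonneg (sum_nonneg fun g _ => hu0 g)
    (sum_nonneg fun g _ => mul_nonneg (by norm_num) (hu0 g))
  have hllt := llt_binom hU0 (llt_add
    (llt_sum ((FF F).filter (fun g => g ∈ F)) (fun g k o => NNs 1 s (FF F) g k o) u (fun g _ => hloc g))
    (llt_sum ((FF F).filter (fun g => g ∉ F)) (fun g k o => NNs 1 s (FF F) g k (o - 1)) (fun g => 3 * u g)
      (fun g _ => llt_shift (hu0 g) (hloc g))))
  have hpi : 0 < Real.sqrt (Real.pi / 2) := Real.sqrt_pos.2 (by positivity)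
  have hUiff : 0 < U ↔ 0 < δ := by
    rw [hδs]
    constructor
    · intro h
      obtain ⟨g, hg, hg'⟩ : ∃ g ∈ FF F, 0 < u g := by
        by_contra hcon
        push Not at hcon
        have h1 : ∑ g ∈ (FF F).filter (fun g => g ∈ F), u g ≤ 0 :=
          sum_nonpos fun g hg => hcon g (mem_filter.1 hg).1
        have h2 : ∑ g ∈ (FF F).filter (fun g => g ∉ F), 3 * u g ≤ 0 :=
          sum_nonpos fun g hg => by linarith [hcon g (mem_filter.1 hg).1]
        linarith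
      exact lt_of_lt_of_le ((hul g).1 hg') (single_le_sum (fun g _ => hl0 g) hg)
    · intro h
      obtain ⟨g, hg, hg'⟩ : ∃ g ∈ FF F, 0 < l g := by
        by_contra hcon
        push Not at hcon
        linarith [sum_nonpos hcon]
      have hug := (hul g).2 hg'
      by_cases hgF : g ∈ F
      · have h1 : u g ≤ ∑ g ∈ (FF F).filter (fun g => g ∈ F), u g :=
          single_le_sum (fun g _ => hu0 g) (mem_filter.2 ⟨hg, hgF⟩)
        have h2 : 0 ≤ ∑ g ∈ (FF F).filter (fun g => g ∉ F), 3 * u g :=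
          sum_nonneg fun g _ => mul_nonneg (by norm_num) (hu0 g)
        linarith
      · have h1 : 3 * u g ≤ ∑ g ∈ (FF F).filter (fun g => g ∉ F), 3 * u g :=
          single_le_sum (f := fun g => 3 * u g) (fun g _ => mul_nonneg (by norm_num) (hu0 g))
            (mem_filter.2 ⟨hg, hgF⟩)
        have h2 : 0 ≤ ∑ g ∈ (FF F).filter (fun g => g ∈ F), u g := sum_nonneg fun g _ => hu0 g
        linarith
  have hciff : 0 < U * Real.sqrt (Real.pi / 2) ↔ 0 < δ := by
    rw [← hUiff]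
    constructor
    · intro h
      rcases hU0.eq_or_lt with h' | h'
      · rw [← h'] at h; simp at h
      · exact h'
    · intro h; exact mul_pos h hpi
  -- sizes
  choose C hC hb using fun g => bres odd_one hc13 (FF F) g
  set B := ∑ g ∈ FF F, C g with hB
  have hCB : ∀ g ∈ FF F, C g ≤ B := fun g hg => single_le_sum (fun g _ => (hC g).le) hg
  have hB0 : 0 ≤ B := sum_nonneg fun g _ => (hC g).le
  have hl3 : 0 < Real.log 3 := Real.log_pos (by norm_num)
  refine ⟨Real.exp (B + Real.log 3), U * Real.sqrt (Real.pi / 2), δ, Real.one_le_exp (by linarith),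
    mul_nonneg hU0 hpi.le, ?_, ?_, ?_, hciff, ?_⟩
  · rintro e o x ⟨hx, hlev⟩
    obtain ⟨g, hg, h⟩ := (levC_iff F e o x).1 hlev
    have hx0 : x ≠ 0 := by rintro rfl; simp at hx
    have h4 := hb g x e hx0 hg
    have h5 := h4.trans (hCB _ hg.2.1)
    have h6 : |Real.log (x : ℝ) + o * Real.log 3 - e * Real.log 2| ≤ B + Real.log 3 := by
      rcases h with ⟨_, h⟩ | ⟨_, h⟩
      · rw [h] at h5
        push_cast at h5
        linarith
      · have h7 : ((od 1 e x : ℤ) : ℝ) = (o : ℝ) - 1 := by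
          have : od 1 e x = (o : ℤ) - 1 := by omega
          rw [this]; push_cast; ring
        rw [h7] at h5
        rw [abs_le] at h5 ⊢
        constructor <;> nlinarith [h5.1, h5.2]
    rw [abs_le] at h6
    have hxa : 0 < |(x : ℝ)| := abs_pos.2 (by exact_mod_cast hx0)
    have e1 : Real.log |(x : ℝ)| = Real.log x := Real.log_abs _
    have h2k : (2 : ℝ) ^ e = Real.exp (e * Real.log 2) := by
      rw [← Real.rpow_natCast, Real.rpow_def_of_pos (by norm_num), mul_comm]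
    have h3o : (3 : ℝ) ^ o = Real.exp (o * Real.log 3) := by
      rw [← Real.rpow_natCast, Real.rpow_def_of_pos (by norm_num), mul_comm]
    constructor
    · have e2 : (2 : ℝ) ^ e / (Real.exp (B + Real.log 3) * 3 ^ o)
          = Real.exp (e * Real.log 2 - (B + Real.log 3) - o * Real.log 3) := by
        rw [h2k, h3o, ← Real.exp_add, ← Real.exp_sub]
        congr 1; ring
      rw [e2, ← Real.le_log_iff_exp_le hxa, e1]
      linarith [h6.1]
    · have e2 : Real.exp (B + Real.log 3) * 2 ^ e / 3 ^ o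
          = Real.exp (B + Real.log 3 + e * Real.log 2 - o * Real.log 3) := by
        rw [h2k, h3o, ← Real.exp_add, ← Real.exp_sub]
      rw [e2, ← Real.log_le_iff_le_exp hxa, e1]
      linarith [h6.2]
  · intro K ε hε
    obtain ⟨k0, hk0⟩ := hllt K ε hε
    refine ⟨k0, fun e o he ho => ?_⟩
    rw [levCs_ncard hs]
    exact hk0 e o he ho
  · exact Dn_iff (fun n _ => hitC_iff.symm) hδ
  · rintro ⟨a, haF, ha, ha3⟩
    rw [hciff]
    exact hpos ⟨a, mem_FF.2 (Or.inl haF), ha, ha3⟩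

end Pool.Agent.H499R2.LT
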