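import Pool.Agent.H33.G.R_seed8.H499R2.LT.R3
import Pool.Agent.H33.G.R_seed8.H499R2.LT.E4
import Pool.Agent.H33.G.R_seed8.H499R2.CL.O4

/-! Project LT: final forms of the joint law. -/

set_option autoImplicit false

namespace Pool.Agent.H499R2.LT

open Pool.Agent.H320R2.PD Finset Filter Topology

open Pool.Agent.H499R2.ND hiding La Ea Me FC Bg Ea_word La_word

open Pool.Agent.H499R2.CZ

open Pool.Agent.H319R2.Lln (mu)

theorem kpp_eq : kpp = Real.log 6 / Real.log 3 := by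
  have h3 := Real.log_pos (by norm_num : (1 : ℝ) < 3)
  have e6 : Real.log 6 = Real.log 2 + Real.log 3 := by
    rw [← Real.log_mul (by norm_num) (by norm_num)]; norm_num
  unfold kpp
  rw [e6]
  field_simp
  ring

theorem sg_eq (L : ℝ) (hL : 0 ≤ L) :
    Real.log 3 * Real.sqrt (2 * L / Real.log (4 / 3) ^ 3) = sg * Real.sqrt L := by
  have h := sgk_eq L hL
  have h3 := Real.log_pos (by norm_num : (1 : ℝ) < 3)
  have h6 := Real.log_pos (by norm_num : (1 : ℝ) < 6)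
  rw [kpp_eq] at h
  have h1 : Real.log 6 * (Real.log 3 * Real.sqrt (2 * L / Real.log (4 / 3) ^ 3))
      = Real.log 6 * (sg * Real.sqrt L) := by
    have h2 : Real.log 6 * (Real.log 3 * Real.sqrt (2 * L / Real.log (4 / 3) ^ 3))
        = Real.log 3 * (Real.log 6 * Real.sqrt (2 * L / Real.log (4 / 3) ^ 3)) := by ring
    rw [h2, h]
    field_simp
  exact mul_left_cancel₀ h6.ne' h1

/-- the time bound for the shortcut map, in closed form -/
theorem tb2 (x : ℝ) (n : ℕ) (hn : 1 ≤ n) : Real.log n / mu + x * sg * Real.sqrt (Real.log n)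
    = 2 / Real.log (4 / 3) * Real.log n + x * (Real.log 3 * Real.sqrt (2 * Real.log n / Real.log (4 / 3) ^ 3)) := by
  rw [sg_eq _ (Real.log_nonneg (by exact_mod_cast hn)), log43]
  have := mu_pos'
  field_simp

theorem joint_f {d : ℤ} (hd : Odd d) (hd3 : ¬ (3 : ℤ) ∣ d) {s : ℤ} (hs : s = 1 ∨ s = -1) (F : Finset ℤ) (f : ℤ) :
    ∃ l : ℝ, 0 ≤ l ∧ Dn (fun n : ℕ => s * (n : ℤ) ∈ PF d F f) l ∧
    ∀ (x : ℝ) (m : ℕ) (κ ω : ℤ), 1 ≤ m → Dn (fun n : ℕ => ∃ j : ℕ,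
      (j : ℝ) ≤ Real.log n / mu + x * sg * Real.sqrt (Real.log n) ∧ Hit d F f (s * n) j ∧
      (j : ℤ) ≡ κ [ZMOD m] ∧ od d j (s * n) ≡ ω [ZMOD m]) (l / m ^ 2 * Phi x) := by
  have hd' : Odd (s * d) := side_odd hd hs
  have hd3' : IsCoprime (s * d) 3 := side_cop (cop_of_not_dvd hd3) hs
  obtain ⟨l, hl⟩ := hd_exists hd' hd3' (F.image (fun a => s * a)) (s * f)
  refine ⟨l, hd_nonneg hl, ?_, fun x m κ ω hm => ?_⟩
  · refine Dn_iff (fun n _ => ?_) (dn_PF hl)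
    unfold PF
    rw [Set.mem_ofPred_eq, Set.mem_ofPred_eq]
    exact exists_congr fun j => hit_sideF hd hs F f n j
  · refine Dn_iff (fun n _ => ?_) (cltC hd' hd3' (F.image (fun a => s * a)) (s * f) hl hm κ ω x)
    unfold evC
    refine exists_congr fun j => ?_
    rw [hit_sideF hd hs, od_side hd hs]

/-- JOINT LAW for the first hits of a finite set, both signs -/
theorem joint_side {d : ℤ} (hd : Odd d) (hd3 : ¬ (3 : ℤ) ∣ d) {s : ℤ} (hs : s = 1 ∨ s = -1) (F : Finset ℤ) :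
    ∃ δ : ℝ, 0 ≤ δ ∧ ((∃ a ∈ F, 0 < s * a ∧ ¬ (3 : ℤ) ∣ a) → 0 < δ) ∧
    Dn (fun n : ℕ => ∃ k : ℕ, (Td d)^[k] (s * n) ∈ F) δ ∧
    ∀ (x : ℝ) (m : ℕ) (κ ω : ℤ), 1 ≤ m → Dn (fun n : ℕ => ∃ j : ℕ,
      (j : ℝ) ≤ Real.log n / mu + x * sg * Real.sqrt (Real.log n) ∧
      ((Td d)^[j] (s * n) ∈ F ∧ ∀ i < j, (Td d)^[i] (s * n) ∉ F) ∧
      (j : ℤ) ≡ κ [ZMOD m] ∧ od d j (s * n) ≡ ω [ZMOD m]) (δ / m ^ 2 * Phi x) := by
  choose l hl0 hdens hj using joint_f hd hd3 hs F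
  obtain ⟨δ, _, hδ0, _, _, hpos, hδ, _, _⟩ := laws_side hd hd3 hs F
  have hδs : δ = ∑ f ∈ F, l f := by
    refine tendsto_nhds_unique hδ ?_
    refine Dn_iff (fun n _ => ?_) (Dn_sum F (fun g n => s * (n : ℤ) ∈ PF d F g) l
      (fun g _ => hdens g) ?_)
    · constructor
      · rintro ⟨g, hg, j, hj⟩
        exact ⟨j, hj.1 ▸ hg⟩
      · rintro ⟨k, hk⟩
        obtain ⟨j, _, f, hf⟩ := hit_iff hk
        exact ⟨f, hf.2.1, j, hf⟩
    · rintro n f _ g _ ⟨j, hj⟩ ⟨j', hj'⟩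
      exact (Hit_unique hj hj').1
  refine ⟨δ, hδ0, hpos, hδ, fun x m κ ω hm => ?_⟩
  have h1 := Dn_sum F _ (fun f => l f / m ^ 2 * Phi x) (fun f _ => hj f x m κ ω hm) (by
    rintro n f _ g _ ⟨j, _, hj, _⟩ ⟨j', _, hj', _⟩
    exact (Hit_unique hj hj').1)
  rw [← sum_mul, ← sum_div, ← hδs] at h1
  refine Dn_iff (fun n _ => ?_) h1
  constructor
  · rintro ⟨f, hf, j, hj1, hj2, hj3, hj4⟩
    exact ⟨j, hj1, ⟨hj2.1 ▸ hf, hj2.2.2⟩, hj3, hj4⟩
  · rintro ⟨j, hj1, ⟨hj2, hj2'⟩, hj3, hj4⟩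
    exact ⟨_, hj2, j, hj1, ⟨rfl, hj2, hj2'⟩, hj3, hj4⟩

/-- JOINT LAW for the Collatz map on the integers -/
theorem jointC {s : ℤ} (hs : s = 1 ∨ s = -1) (F : Finset ℤ) :
    ∃ δ : ℝ, 0 ≤ δ ∧ ((∃ a ∈ F, 0 < s * a ∧ ¬ (3 : ℤ) ∣ a) → 0 < δ) ∧
    Dn (fun n : ℕ => ∃ t : ℕ, Cz^[t] (s * n) ∈ F) δ ∧
    ∀ (x : ℝ) (m : ℕ) (κ ω : ℤ), 1 ≤ m → Dn (fun n : ℕ => ∃ e o : ℕ,
      ((e + o : ℕ) : ℝ) ≤ tbC x n ∧ LevC F e o (s * n) ∧
      (e : ℤ) ≡ κ [ZMOD m] ∧ (o : ℤ) ≡ ω [ZMOD m]) (δ / m ^ 2 * Phi x) := by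
  classical
  have h13 : ¬ (3 : ℤ) ∣ 1 := by omega
  have hc13 := cop_of_not_dvd h13
  choose l hl0 hdens hj using joint_f odd_one h13 hs (FF F)
  obtain ⟨δ, _, hδ0, _, _, hpos, hδ, _, _⟩ := laws_side odd_one h13 hs (FF F)
  have hδs : δ = ∑ f ∈ FF F, l f := by
    refine tendsto_nhds_unique hδ ?_
    refine Dn_iff (fun n _ => ?_) (Dn_sum (FF F) (fun g n => s * (n : ℤ) ∈ PF 1 (FF F) g) l
      (fun g _ => hdens g) ?_)
    · constructor
      · rintro ⟨g, hg, j, hj⟩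
        exact ⟨j, hj.1 ▸ hg⟩
      · rintro ⟨k, hk⟩
        obtain ⟨j, _, f, hf⟩ := hit_iff hk
        exact ⟨f, hf.2.1, j, hf⟩
    · rintro n f _ g _ ⟨j, hj⟩ ⟨j', hj'⟩
      exact (Hit_unique hj hj').1
  refine ⟨δ, hδ0, ?_, Dn_iff (fun n _ => hitC_iff.symm) hδ, fun x m κ ω hm => ?_⟩
  · rintro ⟨a, haF, ha, ha3⟩
    exact hpos ⟨a, mem_FF.2 (Or.inl haF), ha, ha3⟩
  -- the family of events of the shortcut map
  set P : ℝ → ℕ → Prop := fun x n => ∃ g ∈ FF F, ∃ j : ℕ,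
      (j : ℝ) ≤ Real.log n / mu + x * sg * Real.sqrt (Real.log n) ∧ Hit 1 (FF F) g (s * n) j ∧
      (j : ℤ) ≡ κ [ZMOD m] ∧ od 1 j (s * n) ≡ (if g ∈ F then ω else ω - 1) [ZMOD m] with hP
  have hPd : ∀ x, Dn (P x) (δ / m ^ 2 * Phi x) := by
    intro x
    have h1 := Dn_sum (FF F) _ (fun f => l f / m ^ 2 * Phi x)
      (fun g _ => hj g x m κ (if g ∈ F then ω else ω - 1) hm) (by
      rintro n f _ g _ ⟨j, _, hj, _⟩ ⟨j', _, hj', _⟩
      exact (Hit_unique hj hj').1)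
    rw [← sum_mul, ← sum_div, ← hδs] at h1
    exact h1
  choose C hC hb using fun g => bres odd_one hc13 (FF F) g
  set B := ∑ g ∈ FF F, C g with hB
  have hCB : ∀ g ∈ FF F, C g ≤ B := fun g hg => single_le_sum (fun g _ => (hC g).le) hg
  have hB0 : 0 ≤ B := sum_nonneg fun g _ => (hC g).le
  have hl3 : 0 < Real.log 3 := Real.log_pos (by norm_num)
  have hl31 : 1 ≤ Real.log 3 := by
    rw [Real.le_log_iff_exp_le (by norm_num)]
    linarith [Real.exp_one_lt_d9]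
  have hl2 : 0 < Real.log 2 := Real.log_pos (by norm_num)
  have hkap : 1 ≤ kpp := by
    unfold kpp
    have : 0 ≤ Real.log 2 / Real.log 3 := by positivity
    linarith
  have hsg : 0 < sg := by
    unfold sg
    exact div_pos c0_pos (Real.sqrt_pos.2 mu_pos')
  set B1 : ℝ := B + 1 with hB1
  -- the times
  have htime : ∀ (n : ℕ) (g : ℤ) (j o : ℕ), 1 ≤ n → Hit 1 (FF F) g (s * n) j →
      ((g ∈ F ∧ od 1 j (s * n) = o) ∨ (g ∉ F ∧ od 1 j (s * n) + 1 = o)) →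
      |((j + o : ℕ) : ℝ) - (kpp * j - Real.log n / Real.log 3)| ≤ B1 := by
    intro n g j o hn hg ho
    have hsn : (s * (n : ℤ)) ≠ 0 := by
      rcases hs with rfl | rfl <;> omega
    have h1 := (hb g _ j hsn hg).trans (hCB _ hg.2.1)
    have e1 : Real.log ((s * (n : ℤ) : ℤ) : ℝ) = Real.log n := by
      rcases hs with rfl | rfl
      · simp
      · push_cast
        rw [neg_one_mul, Real.log_neg_eq_log]
    rw [e1] at h1
    have h2 : |Real.log n + ((od 1 j (s * n) : ℤ) : ℝ) * Real.log 3 - j * Real.log 2| / Real.log 3 ≤ B := by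
      rw [div_le_iff₀ hl3]
      nlinarith
    have e2 : |Real.log n + ((od 1 j (s * n) : ℤ) : ℝ) * Real.log 3 - j * Real.log 2| / Real.log 3
        = |((j : ℝ) + ((od 1 j (s * n) : ℤ) : ℝ)) - (kpp * j - Real.log n / Real.log 3)| := by
      rw [← abs_of_pos hl3, ← abs_div, abs_of_pos hl3]
      congr 1
      unfold kpp
      field_simp
      ring
    rw [e2, abs_le] at h2
    rw [abs_le]
    rcases ho with ⟨_, ho⟩ | ⟨_, ho⟩
    · have h3 : ((od 1 j (s * n) : ℤ) : ℝ) = o := by rw [ho]; simp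
      rw [h3] at h2
      push_cast
      constructor <;> linarith [h2.1, h2.2]
    · have h3 : ((od 1 j (s * n) : ℤ) : ℝ) = (o : ℝ) - 1 := by
        have : od 1 j (s * n) = (o : ℤ) - 1 := by omega
        rw [this]; push_cast; ring
      rw [h3] at h2
      push_cast
      constructor <;> linarith [h2.1, h2.2]
  refine dn_squeeze (P := P) (F := fun x => δ / m ^ 2 * Phi x) (Phi_continuous.const_mul _) hPd ?_
  intro θ hθ η hη
  obtain ⟨E, hE, hE'⟩ := large_log (P := fun L => B1 ≤ θ * sg * Real.sqrt L)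
    ⟨(B1 / (θ * sg)) ^ 2, fun L hL => by
      have h4 : B1 / (θ * sg) ≤ Real.sqrt L := Real.le_sqrt_of_sq_le hL
      rw [div_le_iff₀ (by positivity)] at h4
      linarith⟩ hη
  refine ⟨E, hE, fun n hn hnE => ?_⟩
  have h := hE' n hn hnE
  have hmul : B1 ≤ kpp * (θ * sg * Real.sqrt (Real.log n)) := by
    have h0 : 0 ≤ θ * sg * Real.sqrt (Real.log n) := by positivity
    nlinarith
  constructor
  · rintro ⟨g, hg, j, hj1, hj2, hj3, hj4⟩
    have hnn := od_nn 1 j (s * n)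
    have h5 := mul_le_mul_of_nonneg_left hj1 (show 0 ≤ kpp by linarith)
    by_cases hgF : g ∈ F
    · rw [if_pos hgF] at hj4
      have ho : od 1 j (s * n) = ((od 1 j (s * n)).toNat : ℤ) := by omega
      have h6 := htime n g j (od 1 j (s * n)).toNat hn hj2 (Or.inl ⟨hgF, ho⟩)
      refine ⟨j, (od 1 j (s * n)).toNat, ?_, (levC_iff F j _ _).2 ⟨g, hj2, Or.inl ⟨hgF, ho⟩⟩, hj3, ?_⟩
      · rw [tbC_eq]
        have h7 := (abs_le.1 h6).2
        have h8 : kpp * (Real.log n / mu + (x - θ) * sg * Real.sqrt (Real.log n))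
            = kpp * (Real.log n / mu + x * sg * Real.sqrt (Real.log n))
              - kpp * (θ * sg * Real.sqrt (Real.log n)) := by ring
        linarith
      · rw [← ho]; exact hj4
    · rw [if_neg hgF] at hj4
      have ho : od 1 j (s * n) + 1 = (((od 1 j (s * n)).toNat + 1 : ℕ) : ℤ) := by push_cast; omega
      have h6 := htime n g j ((od 1 j (s * n)).toNat + 1) hn hj2 (Or.inr ⟨hgF, ho⟩)
      refine ⟨j, (od 1 j (s * n)).toNat + 1, ?_, (levC_iff F j _ _).2 ⟨g, hj2, Or.inr ⟨hgF, ho⟩⟩, hj3, ?_⟩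
      · rw [tbC_eq]
        have h7 := (abs_le.1 h6).2
        have h8 : kpp * (Real.log n / mu + (x - θ) * sg * Real.sqrt (Real.log n))
            = kpp * (Real.log n / mu + x * sg * Real.sqrt (Real.log n))
              - kpp * (θ * sg * Real.sqrt (Real.log n)) := by ring
        linarith
      · rw [← ho]
        have := hj4.add_right 1
        rwa [sub_add_cancel] at this
  · rintro ⟨e, o, h1, h2, h3, h4⟩
    obtain ⟨g, hg, ho⟩ := (levC_iff F e o _).1 h2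
    have h6 := (abs_le.1 (htime n g e o hn hg ho)).1
    rw [tbC_eq] at h1
    refine ⟨g, hg.2.1, e, ?_, hg, h3, ?_⟩
    · have h7 : kpp * e ≤ kpp * (Real.log n / mu + x * sg * Real.sqrt (Real.log n)) + B1 := by linarith
      have h8 : kpp * (e : ℝ) ≤ kpp * (Real.log n / mu + (x + θ) * sg * Real.sqrt (Real.log n)) := by
        have e3 : kpp * (Real.log n / mu + (x + θ) * sg * Real.sqrt (Real.log n))
            = kpp * (Real.log n / mu + x * sg * Real.sqrt (Real.log n))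
              + kpp * (θ * sg * Real.sqrt (Real.log n)) := by ring
        linarith
      exact le_of_mul_le_mul_left h8 (by linarith)
    · rcases ho with ⟨hgF, ho⟩ | ⟨hgF, ho⟩
      · rw [if_pos hgF, ho]; exact h4
      · rw [if_neg hgF]
        have e4 : od 1 e (s * n) = (o : ℤ) - 1 := by omega
        rw [e4]
        exact h4.sub_right 1

end Pool.Agent.H499R2.LT
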