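import Pool.Agent.H33.G.R_seed8.H499R2.LT.R4

/-! Project LT: conversion of densities. -/

set_option autoImplicit false

namespace Pool.Agent.H499R2.LT

open Filter Topology

open Pool.Agent.H499R2.ND hiding La Ea Me FC Bg Ea_word La_word

theorem hd_one {s : ℤ} {S : Set ℤ} {l : ℝ} (hl : HD s S l) : HD 1 {x : ℤ | s * x ∈ S} l := by
  unfold HD at hl ⊢
  have h1 : {x : ℤ | 1 * x ∈ {x : ℤ | s * x ∈ S}} = {x : ℤ | s * x ∈ S} := by
    ext x
    constructor
    · intro h
      have h2 : s * (1 * x) ∈ S := h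
      rw [one_mul] at h2
      exact h2
    · intro h
      have h2 : s * x ∈ S := h
      have h3 : s * (1 * x) ∈ S := by rw [one_mul]; exact h2
      exact h3
  rw [h1]
  exact hl

theorem dn_side {s : ℤ} {S : Set ℤ} {l : ℝ} (hl : HD s S l) : Dn (fun n : ℕ => s * (n : ℤ) ∈ S) l := by
  have h1 := dn_of_HD' (S := {x : ℤ | s * x ∈ S}) (hd_one hl)
  refine Dn_iff (fun n _ => ?_) h1
  rw [Set.mem_ofPred_eq]

end Pool.Agent.H499R2.LT
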